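import Pool.Agent.Lib.H69H.Defs

set_option autoImplicit false
set_option linter.unusedSectionVars false

namespace Pool.Agent.H69H

open NumberField IsDedekindDomain CFT

variable {K : Type} [Field K] [NumberField K] {L : Type} [Field L] [NumberField L] [Algebra K L]

theorem c1_iter (σ : L ≃ₐ[K] L) (i : ℕ) (x : Lˣ) : (((sU σ)^[i] x : Lˣ) : L) = (σ ^ i) (x : L) := by
  induction i with
  | zero => rfl
  | succ i ih => rw [Function.iterate_succ_apply', sU_coe, ih, pow_succ']; rfl

/-- `σ ^ card G = 1`, `card G = finrank K L` (`IsGalois.card_aut_eq_finrank`). -/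
theorem sU_iter [IsGalois K L] (σ : L ≃ₐ[K] L) (x : Lˣ) : (sU σ)^[Module.finrank K L] x = x := by
  apply Units.ext
  rw [c1_iter, ← IsGalois.card_aut_eq_finrank, pow_card_eq_one']
  rfl

/-- An element fixed by the generator is fixed by all of `G`, so it is in `K` (`IsGalois.mem_bot_iff_fixed`, or `IsGalois.mem_range_algebraMap_iff_fixed`). -/
theorem dif_eq_one [IsGalois K L] (σ : L ≃ₐ[K] L) (hσ : ∀ x, x ∈ Subgroup.zpowers σ) (x : Lˣ) :
    dif (sU σ) x = 1 ↔ ∃ κ : Kˣ, x = kU K L κ := by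
  constructor
  · intro h
    rw [dif_apply, div_eq_one] at h
    have h1 : σ (x : L) = x := congrArg Units.val h
    have h2 : (x : L) ∈ Set.range (algebraMap K L) := by
      rw [IsGalois.mem_range_algebraMap_iff_fixed]
      intro f
      obtain ⟨i, rfl⟩ := hσ f
      have h3 : σ ∈ MulAction.stabilizer (L ≃ₐ[K] L) (x : L) := h1
      exact (MulAction.stabilizer (L ≃ₐ[K] L) (x : L)).zpow_mem h3 i
    obtain ⟨κ, hκ⟩ := h2
    have hκ0 : κ ≠ 0 := by
      rintro rfl
      rw [map_zero] at hκ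
      exact x.ne_zero hκ.symm
    exact ⟨Units.mk0 κ hκ0, Units.ext hκ.symm⟩
  · rintro ⟨κ, rfl⟩
    rw [dif_apply, div_eq_one]
    apply Units.ext
    rw [sU_coe, kU_coe, σ.commutes]

/-- `Algebra.norm_eq_prod_automorphisms` and the bijection `i ↦ σ^i` from `range n` to `G`. -/
theorem nrm_eq [IsGalois K L] (σ : L ≃ₐ[K] L) (hσ : ∀ x, x ∈ Subgroup.zpowers σ) (x : Lˣ) :
    nrm (Module.finrank K L) (sU σ) x = kU K L (Units.map (Algebra.norm K : L →* K) x) := by
  apply Units.ext
  rw [nrm_apply, Units.coe_prod]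
  simp only [c1_iter]
  rw [kU_coe, Units.coe_map]
  show _ = algebraMap K L (Algebra.norm K (x : L))
  rw [Algebra.norm_eq_prod_automorphisms, ← IsGalois.card_aut_eq_finrank]
  classical
  rw [← IsCyclic.image_range_card hσ, Finset.prod_image]
  rw [← orderOf_eq_card_of_forall_mem_zpowers hσ, Finset.coe_range]
  exact pow_injOn_Iio_orderOf

/-- Hilbert 90, Mathlib `groupCohomology.exists_div_of_norm_eq_one` (take the inverse of `y`). -/
theorem hilbert90 [IsGalois K L] (σ : L ≃ₐ[K] L) (hσ : ∀ x, x ∈ Subgroup.zpowers σ) (x : Lˣ)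
    (hx : nrm (Module.finrank K L) (sU σ) x = 1) : ∃ y : Lˣ, x = dif (sU σ) y := by
  rw [nrm_eq σ hσ] at hx
  have h1 : Algebra.norm K (x : L) = 1 := by
    have h2 := congrArg Units.val hx
    rw [kU_coe, Units.val_one, ← map_one (algebraMap K L)] at h2
    exact (algebraMap K L).injective h2
  have : IsCyclic (L ≃ₐ[K] L) := ⟨σ, hσ⟩
  obtain ⟨y, hy⟩ := groupCohomology.exists_div_of_norm_eq_one hσ h1
  refine ⟨y⁻¹, Units.ext ?_⟩
  rw [map_inv, dif_apply, ← hy]
  rw [Units.val_inv_eq_inv_val, Units.val_div_eq_div_val, sU_coe, inv_div]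

end Pool.Agent.H69H
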