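import Pool.Agent.Lib.H69H.Defs

set_option autoImplicit false
set_option linter.unusedSectionVars false

namespace Pool.Agent.H69H

open NumberField IsDedekindDomain CFT

variable {K : Type} [Field K] [NumberField K] {L : Type} [Field L] [NumberField L] [Algebra K L]

theorem d1_comm : SMulCommClass (L ≃ₐ[K] L) (𝓞 K) (𝓞 L) := by
  refine ⟨fun s a x => ?_⟩
  apply RingOfIntegers.ext
  show s ((a • x : 𝓞 L) : L) = ((a • (s • x : 𝓞 L) : 𝓞 L) : L)
  rw [Algebra.smul_def, Algebra.smul_def]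
  show s (algebraMap K L (a : K) * (x : L)) = algebraMap K L (a : K) * s (x : L)
  rw [map_mul, AlgEquiv.commutes]

open scoped Pointwise in
/-- PROOF: the valuation at `σ w` of `σ x` is the valuation at `w` of `x`; for `x` in the ring of integers from the definition of `intValuation` (`HeightOneSpectrum.intValuation_le_pow_iff_mem`
or `intValuation_eq_exp_neg_multiplicity`; `σ x ∈ (σ w)^n` iff `x ∈ w^n`), then quotients. -/
theorem od_gp (σ : L ≃ₐ[K] L) (w : Pr L) (x : L) : od (gp σ w) (σ x) = od w x := by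
  have h1 : ∀ r : 𝓞 L, (gp σ w).intValuation (σ • r) = w.intValuation r := by
    intro r
    by_cases hr : r = 0
    · subst hr
      rw [smul_zero, map_zero, map_zero]
    have hr' : σ • r ≠ 0 := by
      rw [Ne, smul_eq_zero_iff_eq]
      exact hr
    have hmem : ∀ n : ℕ, σ • r ∈ (gp σ w).asIdeal ^ n ↔ r ∈ w.asIdeal ^ n := by
      intro n
      rw [gp_asIdeal, ← smul_pow', Ideal.smul_mem_pointwise_smul_iff]
    refine le_antisymm ?_ ?_
    · rw [w.intValuation_if_neg hr, HeightOneSpectrum.intValuation_le_pow_iff_mem, hmem,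
        ← HeightOneSpectrum.intValuation_le_pow_iff_mem]
      exact (w.intValuation_if_neg hr).le
    · rw [(gp σ w).intValuation_if_neg hr', HeightOneSpectrum.intValuation_le_pow_iff_mem, ← hmem,
        ← HeightOneSpectrum.intValuation_le_pow_iff_mem]
      exact ((gp σ w).intValuation_if_neg hr').le
  have h2 : ∀ r : 𝓞 L, (gp σ w).valuation L (σ (algebraMap (𝓞 L) L r)) = w.valuation L (algebraMap (𝓞 L) L r) := by
    intro r
    rw [HeightOneSpectrum.valuation_of_algebraMap, ← h1, ← HeightOneSpectrum.valuation_of_algebraMap (K := L)]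
    rfl
  obtain ⟨a, b, hb, rfl⟩ := IsFractionRing.div_surjective (A := 𝓞 L) x
  unfold od
  rw [map_div₀, map_div₀, map_div₀, h2, h2]

theorem dvU_sU (σ : L ≃ₐ[K] L) (x : Lˣ) : dvU L (sU σ x) = sM σ (dvU L x) := by
  show Multiplicative.ofAdd (dv (σ (x : L))) = Multiplicative.ofAdd (sD σ (dv (x : L)))
  congr 1
  ext w
  rw [sD_apply, dv_apply, dv_apply, ← od_gp σ (gp σ⁻¹ w) (x : L), gp_gp_inv]

/-- Mathlib `Ideal.under_smul`. -/
theorem below_gp (σ : L ≃ₐ[K] L) (w : Pr L) : below K (gp σ w) = below K w := by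
  ext1
  show (gp σ w).asIdeal.under (𝓞 K) = w.asIdeal.under (𝓞 K)
  have hc : SMulCommClass (L ≃ₐ[K] L) (𝓞 K) (𝓞 L) := d1_comm
  rw [gp_asIdeal]
  exact Ideal.under_smul _ _ _

/-- Mathlib `Ideal.exists_smul_eq_of_isGaloisGroup` (or `Algebra.IsInvariant.exists_smul_of_under_eq`). -/
theorem exists_gp [IsGalois K L] (w w' : Pr L) (h : below K w = below K w') : ∃ τ : L ≃ₐ[K] L, gp τ w = w' := by
  have h1 : w.asIdeal.under (𝓞 K) = w'.asIdeal.under (𝓞 K) := congrArg HeightOneSpectrum.asIdeal h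
  obtain ⟨g, hg⟩ := Algebra.IsInvariant.exists_smul_of_under_eq (𝓞 K) (𝓞 L) (L ≃ₐ[K] L) w.asIdeal w'.asIdeal h1
  exact ⟨g, HeightOneSpectrum.ext hg.symm⟩

theorem sM_iter [IsGalois K L] (σ : L ≃ₐ[K] L) (D : Multiplicative (Dv L)) : (sM σ)^[Module.finrank K L] D = D := by
  have h1 : ∀ i : ℕ, (sM σ)^[i] D = sM (σ ^ i) D := by
    intro i
    induction i with
    | zero =>
      apply Multiplicative.toAdd.injective
      ext w
      show _ = Multiplicative.toAdd D (gp (σ ^ 0)⁻¹ w)
      rw [pow_zero, inv_one, gp_one]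
      rfl
    | succ i ih =>
      rw [Function.iterate_succ_apply', ih]
      apply Multiplicative.toAdd.injective
      ext w
      show Multiplicative.toAdd D (gp (σ ^ i)⁻¹ (gp σ⁻¹ w)) = Multiplicative.toAdd D (gp (σ ^ (i + 1))⁻¹ w)
      rw [← gp_mul, pow_succ', mul_inv_rev]
  rw [h1, ← IsGalois.card_aut_eq_finrank, pow_card_eq_one']
  apply Multiplicative.toAdd.injective
  ext w
  show Multiplicative.toAdd D (gp (1 : L ≃ₐ[K] L)⁻¹ w) = _
  rw [inv_one, gp_one]

end Pool.Agent.H69H
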