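import Pool.Agent.Lib.H69H.Defs
import Pool.Agent.Lib.CFT.B06

set_option autoImplicit false
set_option linter.unusedSectionVars false

namespace Pool.Agent.H69H

open NumberField IsDedekindDomain CFT

variable {K : Type} [Field K] [NumberField K] {L : Type} [Field L] [NumberField L] [Algebra K L]

/-- The order at `w` of an element of `K`. -/
theorem od_algebraMap (w : Pr L) (x : K) :
    od w (algebraMap K L x) = (w.asIdeal.ramificationIdx (𝓞 K) : ℤ) * od (below K w) x := CFT.od_alg x w

theorem con_dv (x : K) : con K L (dv x) = dv (algebraMap K L x) := by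
  ext w
  rw [con_apply, dv_apply, dv_apply, od_algebraMap]

/-- There is a prime above. -/
theorem below_surj (L : Type) [Field L] [NumberField L] [Algebra K L] (v : Pr K) : ∃ w : Pr L, below K w = v :=
  CFT.below_surj v

theorem ram_ne (w : Pr L) : (w.asIdeal.ramificationIdx (𝓞 K) : ℤ) ≠ 0 := by
  exact_mod_cast (CFT.e_pos w).ne'

/-- The conorm is injective. -/
theorem con_injective : Function.Injective (con K L) := by
  rw [injective_iff_map_eq_zero]
  intro D hD
  ext v
  obtain ⟨w, rfl⟩ := below_surj L v
  have h := DFunLike.congr_fun hD w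
  rw [con_apply, Finsupp.zero_apply] at h
  exact (mul_eq_zero.1 h).resolve_left (ram_ne w)

end Pool.Agent.H69H
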