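import Pool.Agent.Lib.H69H.Defs

set_option autoImplicit false
set_option linter.unusedSectionVars false

namespace Pool.Agent.H69H

open NumberField IsDedekindDomain CFT

variable {K : Type} [Field K] [NumberField K] {L : Type} [Field L] [NumberField L] [Algebra K L]

open scoped Pointwise in
/-- PROOF. As in U6: `i ↦ σ^i` is a bijection from `range (finrank K L)` to `G = Gal(L/K)`, `(gp σ)^[i] w = gp (σ^i) w`, so the number is `#{g ∈ G | g • w = w'}`, a coset of the stabilizer
(`w'` is in the orbit: `Ideal.exists_smul_eq_of_isGaloisGroup`), of order `e f`: Mathlib `Ideal.card_stabilizer_eq`, `Ideal.ramificationIdxIn_eq_ramificationIdx`, `Ideal.inertiaDegIn_eq_inertiaDeg`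
(`IsGaloisGroup (L ≃ₐ[K] L) (𝓞 K) (𝓞 L)` : see how NumberTheory/RamificationInertia/HilbertTheory.lean or NumberField files get it, `IsGaloisGroup.of_isFractionRing`). -/
theorem gp_count [IsGalois K L] (σ : L ≃ₐ[K] L) (hσ : ∀ x, x ∈ Subgroup.zpowers σ) (w w' : Pr L)
    (h : below K w = below K w') [DecidableEq (Pr L)] :
    ((Finset.range (Module.finrank K L)).filter fun i => (gp σ)^[i] w = w').card =
      w.asIdeal.ramificationIdx (𝓞 K) * w.asIdeal.inertiaDeg (𝓞 K) := by
  have hG : IsGaloisGroup (L ≃ₐ[K] L) (𝓞 K) (𝓞 L) := inferInstance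
  have hp := w.isPrime
  have hv := (below K w).isMaximal
  have hl : w.asIdeal.LiesOver (below K w).asIdeal := ⟨rfl⟩
  have hfin : Finite (𝓞 K ⧸ (below K w).asIdeal) := Ring.HasFiniteQuotients.finiteQuotient (below K w).ne_bot
  have hperf : PerfectField (below K w).asIdeal.ResidueField := by
    have : Finite (below K w).asIdeal.ResidueField :=
      Finite.of_surjective _ (Ideal.bijective_algebraMap_quotient_residueField (below K w).asIdeal).surjective
    infer_instance
  have hst : Nat.card (MulAction.stabilizer (L ≃ₐ[K] L) w.asIdeal) = w.asIdeal.ramificationIdx (𝓞 K) * w.asIdeal.inertiaDeg (𝓞 K) := by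
    rw [Ideal.card_stabilizer_eq (G := L ≃ₐ[K] L) (below K w).asIdeal w.asIdeal,
      Ideal.ramificationIdxIn_eq_ramificationIdx (below K w).asIdeal w.asIdeal (L ≃ₐ[K] L),
      Ideal.inertiaDegIn_eq_inertiaDeg (below K w).asIdeal w.asIdeal (L ≃ₐ[K] L)]
  rw [← hst]
  have hit : ∀ i : ℕ, (gp σ)^[i] w = gp (σ ^ i) w := by
    intro i
    induction i with
    | zero => rw [pow_zero, gp_one]; rfl
    | succ i ih => rw [Function.iterate_succ_apply', ih, ← gp_mul, pow_succ']
  have h1 : w.asIdeal.under (𝓞 K) = w'.asIdeal.under (𝓞 K) := congrArg HeightOneSpectrum.asIdeal h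
  obtain ⟨g, hg⟩ := Algebra.IsInvariant.exists_smul_of_under_eq (𝓞 K) (𝓞 L) (L ≃ₐ[K] L) w.asIdeal w'.asIdeal h1
  have hg' : gp g w = w' := HeightOneSpectrum.ext hg.symm
  classical
  have e1 : ((Finset.range (Module.finrank K L)).filter fun i => (gp σ)^[i] w = w').card =
      (Finset.univ.filter fun τ : L ≃ₐ[K] L => gp τ w = w').card := by
    rw [← IsGalois.card_aut_eq_finrank]
    simp only [hit]
    rw [← IsCyclic.image_range_card hσ, Finset.filter_image, Finset.card_image_of_injOn]
    rw [← orderOf_eq_card_of_forall_mem_zpowers hσ]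
    refine (pow_injOn_Iio_orderOf (x := σ)).mono fun i hi => ?_
    exact Finset.mem_range.1 (Finset.mem_filter.1 hi).1
  rw [e1]
  have e2 : Nat.card (MulAction.stabilizer (L ≃ₐ[K] L) w.asIdeal) = (Finset.univ.filter fun τ : L ≃ₐ[K] L => gp τ w = w).card := by
    rw [Nat.card_eq_fintype_card, Fintype.card_subtype]
    congr 1
    ext τ
    simp only [Finset.mem_filter, Finset.mem_univ, true_and, MulAction.mem_stabilizer_iff]
    constructor
    · intro h2
      exact HeightOneSpectrum.ext h2
    · intro h2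
      exact congrArg HeightOneSpectrum.asIdeal h2
  rw [e2]
  refine Finset.card_bij' (fun τ _ => g⁻¹ * τ) (fun τ _ => g * τ) ?_ ?_ ?_ ?_
  · intro τ hτ
    rw [Finset.mem_filter] at hτ ⊢
    refine ⟨Finset.mem_univ _, ?_⟩
    rw [gp_mul, hτ.2, ← hg', gp_inv_gp]
  · intro τ hτ
    rw [Finset.mem_filter] at hτ ⊢
    refine ⟨Finset.mem_univ _, ?_⟩
    rw [gp_mul, hτ.2, hg']
  · intro τ _
    rw [mul_inv_cancel_left]
  · intro τ _
    rw [inv_mul_cancel_left]

end Pool.Agent.H69H
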