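import Pool.Agent.Lib.H69H.Defs
import Pool.Agent.Lib.H69H.C1
import Pool.Agent.Lib.H69H.D1
import Pool.Agent.Lib.H69H.D2
import Pool.Agent.Lib.H69H.D3
import Pool.Agent.Lib.CFT.B07

set_option autoImplicit false
set_option linter.unusedSectionVars false

namespace Pool.Agent.H69H

open NumberField IsDedekindDomain CFT

variable {K : Type} [Field K] [NumberField K] {L : Type} [Field L] [NumberField L] [Algebra K L]

theorem d4_sD_single (σ : L ≃ₐ[K] L) (w : Pr L) (a : ℤ) :
    sD σ (Finsupp.single w a) = Finsupp.single (gp σ w) a := by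
  classical
  ext w'
  rw [sD_apply, Finsupp.single_apply, Finsupp.single_apply]
  by_cases h : gp σ w = w'
  · rw [if_pos h, if_pos]
    rw [← h, gp_inv_gp]
  · rw [if_neg h, if_neg]
    intro h'
    apply h
    rw [h', gp_gp_inv]

theorem d4_sM_iter (σ : L ≃ₐ[K] L) (w : Pr L) (a : ℤ) (i : ℕ) :
    (sM σ)^[i] (Multiplicative.ofAdd (Finsupp.single w a)) =
      Multiplicative.ofAdd (Finsupp.single ((gp σ)^[i] w) a) := by
  induction i with
  | zero => rfl
  | succ i ih =>
    rw [Function.iterate_succ_apply', ih, Function.iterate_succ_apply']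
    show Multiplicative.ofAdd (sD σ (Finsupp.single ((gp σ)^[i] w) a)) = _
    rw [d4_sD_single]

theorem d4_below_iter (σ : L ≃ₐ[K] L) (w : Pr L) (i : ℕ) :
    below K ((gp σ)^[i] w) = below K w := by
  induction i with
  | zero => rfl
  | succ i ih => rw [Function.iterate_succ_apply', below_gp, ih]

theorem d4_comm : SMulCommClass (L ≃ₐ[K] L) (𝓞 K) (𝓞 L) := by
  refine ⟨fun g a x => ?_⟩
  apply RingOfIntegers.ext
  show g (((a • x : 𝓞 L)) : L) = ((a • (g • x) : 𝓞 L) : L)
  rw [Algebra.smul_def, Algebra.smul_def]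
  show g (algebraMap (𝓞 L) L (algebraMap (𝓞 K) (𝓞 L) a * x)) =
    algebraMap (𝓞 L) L (algebraMap (𝓞 K) (𝓞 L) a * (g • x))
  rw [map_mul, map_mul, map_mul]
  have h : algebraMap (𝓞 L) L (algebraMap (𝓞 K) (𝓞 L) a) = algebraMap K L (algebraMap (𝓞 K) K a) := by
    rw [← IsScalarTower.algebraMap_apply, ← IsScalarTower.algebraMap_apply]
  rw [h, AlgEquiv.commutes]
  rfl

theorem d4_ram_gp (τ : L ≃ₐ[K] L) (w : Pr L) :
    (gp τ w).asIdeal.ramificationIdx (𝓞 K) = w.asIdeal.ramificationIdx (𝓞 K) := by
  rw [gp_asIdeal]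
  have := d4_comm (K := K) (L := L)
  exact Ideal.ramificationIdx_smul (R := 𝓞 K) (S := 𝓞 L) (G := L ≃ₐ[K] L) w.asIdeal τ

/-- PROOF. Both sides are additive in `D`; `D = single w a`. The coefficient at `w'` is on the left `e(w') * f(w) * a` if `below K w' = below K w` and `0` otherwise (`con_apply`, definition of `Nd`), on
the right `∑_{i<n} ((sD σ)^[i] (single w a)) w' = a * #{i < n | (gp σ)^[i] w = w'}`: `gp_count` (D3) if `below K w = below K w'`, and `0` otherwise (`below_gp`, D1). The ramification index is the same for `w` and `w'`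
(they are conjugate: `Ideal.ramificationIdx_smul`, `exists_gp`). -/
theorem con_Nd [IsGalois K L] (σ : L ≃ₐ[K] L) (hσ : ∀ x, x ∈ Subgroup.zpowers σ) (D : Dv L) :
    con K L (Nd K L D) = Multiplicative.toAdd (nrm (Module.finrank K L) (sM σ) (Multiplicative.ofAdd D)) := by
  classical
  let φ1 : Dv L →+ Dv L := (con K L).comp (Nd K L)
  let φ2 : Dv L →+ Dv L :=
    { toFun := fun D => Multiplicative.toAdd (nrm (Module.finrank K L) (sM σ) (Multiplicative.ofAdd D))
      map_zero' := by rw [ofAdd_zero, map_one, toAdd_one]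
      map_add' := fun D E => by rw [ofAdd_add, map_mul, toAdd_mul] }
  have key : φ1 = φ2 := by
    refine Finsupp.addHom_ext fun w a => ?_
    ext w'
    show con K L (Nd K L (Finsupp.single w a)) w' =
      (Multiplicative.toAdd (nrm (Module.finrank K L) (sM σ) (Multiplicative.ofAdd (Finsupp.single w a)))) w'
    rw [nrm_apply, toAdd_prod, con_apply]
    have h1 : Nd K L (Finsupp.single w a) =
        Finsupp.single (below K w) (((w.asIdeal.inertiaDeg (𝓞 K) : ℕ) : ℤ) * a) := by
      unfold Nd
      rw [Finsupp.liftAddHom_apply_single]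
      rfl
    rw [h1, Finsupp.single_apply]
    have h2 : (∑ i ∈ Finset.range (Module.finrank K L), Multiplicative.toAdd
        ((sM σ)^[i] (Multiplicative.ofAdd (Finsupp.single w a)))) w' =
        ∑ i ∈ Finset.range (Module.finrank K L), if (gp σ)^[i] w = w' then a else 0 := by
      rw [Finsupp.finsetSum_apply]
      refine Finset.sum_congr rfl fun i _ => ?_
      rw [d4_sM_iter, toAdd_ofAdd, Finsupp.single_apply]
    rw [h2, ← Finset.sum_filter, Finset.sum_const, nsmul_eq_mul]
    by_cases hb : below K w = below K w'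
    · rw [if_pos hb, gp_count σ hσ w w' hb]
      obtain ⟨τ, hτ⟩ := exists_gp (K := K) w w' hb
      rw [← hτ, d4_ram_gp]
      push_cast
      ring
    · rw [if_neg hb, mul_zero]
      have h3 : (Finset.range (Module.finrank K L)).filter (fun i => (gp σ)^[i] w = w') = ∅ := by
        rw [Finset.filter_eq_empty_iff]
        intro i _ hi
        apply hb
        rw [← hi, d4_below_iter]
      rw [h3, Finset.card_empty, Nat.cast_zero, zero_mul]
  exact DFunLike.congr_fun key D

theorem Nd_dv (y : Lˣ) : Nd K L (dv (y : L)) = dv (Algebra.norm K (y : L)) := CFT.Nd_dv y.ne_zero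

end Pool.Agent.H69H
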