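import Pool.Agent.Lib.H69H.Defs
import Pool.Agent.Lib.H69H.D1
import Pool.Agent.Lib.H69H.D2

set_option autoImplicit false
set_option linter.unusedSectionVars false

namespace Pool.Agent.H69H

open NumberField IsDedekindDomain CFT

variable {K : Type} [Field K] [NumberField K] {L : Type} [Field L] [NumberField L] [Algebra K L]

/-- PROOF. `D` is constant on the orbits (`sD σ D = D` gives `D (gp τ w) = D w` for all `τ ∈ zpowers σ = G`), the orbits are the sets of the primes above one `v` (`exists_gp`, D1). Let `E v = D w` for `v ∈ T`, `w` above `v`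
(`below_surj`, D2), `0` for `v ∉ T`. `con E w = e(w) * E (below w) = D w`: `e(w) = 1` for `v ∈ T` (`hT`), both are `0` otherwise. -/
theorem inv_con [IsGalois K L] (σ : L ≃ₐ[K] L) (hσ : ∀ x, x ∈ Subgroup.zpowers σ) (T : Finset (Pr K))
    (hT : ∀ v ∈ T, Unr K L v) (D : Dv L) (hD : D ∈ DTL L T) (h : sD σ D = D) : ∃ E ∈ DTK T, D = con K L E := by
  classical
  have h1 : ∀ w, D (gp σ w) = D w := by
    intro w
    have := DFunLike.congr_fun h (gp σ w)
    rw [sD_apply, gp_inv_gp] at this
    exact this.symm
  let H : Subgroup (L ≃ₐ[K] L) :=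
    { carrier := {τ | ∀ w, D (gp τ w) = D w}
      one_mem' := fun w => by rw [gp_one]
      mul_mem' := fun {a b} ha hb w => by
        rw [gp_mul]
        exact (ha _).trans (hb w)
      inv_mem' := fun {a} ha w => by
        have := ha (gp a⁻¹ w)
        rw [gp_gp_inv] at this
        exact this.symm }
  have hσH : σ ∈ H := h1
  have h2 : ∀ τ ∈ Subgroup.zpowers σ, ∀ w, D (gp τ w) = D w := by
    intro τ hτ
    have h2' : Subgroup.zpowers σ ≤ H := by
      rw [Subgroup.zpowers_le]
      exact hσH
    exact h2' hτ
  have h3 : ∀ w w' : Pr L, below K w = below K w' → D w = D w' := by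
    intro w w' hb
    obtain ⟨τ, hτ⟩ := exists_gp (K := K) w w' hb
    rw [← hτ, h2 τ (hσ τ)]
  choose up hup using fun v : Pr K => below_surj L v
  let E : Dv K := Finsupp.onFinset T (fun v => if v ∈ T then D (up v) else 0) (by
    intro v hv
    by_contra hcon
    exact hv (if_neg hcon))
  have hE : ∀ v, E v = if v ∈ T then D (up v) else 0 := fun v => rfl
  refine ⟨E, fun v hv => ?_, ?_⟩
  · rw [hE, if_neg hv]
  · ext w
    rw [con_apply, hE]
    by_cases hw : below K w ∈ T
    · rw [if_pos hw, hT _ hw w rfl, Nat.cast_one, one_mul]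
      exact h3 w (up (below K w)) (hup (below K w)).symm
    · rw [if_neg hw, mul_zero]
      exact hD w hw

/-- Generated by the `single w 1`, `w` above `T` (finitely many, `fib_fin`). -/
theorem MT_fg (T : Finset (Pr K)) : (MT L T).FG := by
  classical
  have hfin : {w : Pr L | below K w ∈ T}.Finite := by
    have h1 : {w : Pr L | below K w ∈ T} = ⋃ v ∈ T, {w : Pr L | below K w = v} := by
      ext w
      simp
    rw [h1]
    exact Set.Finite.biUnion T.finite_toSet fun v _ => fib_fin (L := L) K v
  obtain ⟨g, hg⟩ : ∃ g : Pr L → Multiplicative (Dv L),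
      ∀ w, g w = Multiplicative.ofAdd (Finsupp.single w (1 : ℤ)) := ⟨_, fun _ => rfl⟩
  rw [Subgroup.fg_iff]
  refine ⟨g '' {w : Pr L | below K w ∈ T}, ?_, hfin.image _⟩
  apply le_antisymm
  · rw [Subgroup.closure_le]
    rintro _ ⟨w, hw, rfl⟩
    rw [SetLike.mem_coe, mem_MT]
    intro w' hw'
    rw [hg, toAdd_ofAdd, Finsupp.single_apply, if_neg]
    rintro rfl
    exact hw' hw
  · intro D hD
    rw [mem_MT] at hD
    have key : ∀ (E : Dv L), (∀ w, below K w ∉ T → E w = 0) →
        Multiplicative.ofAdd E ∈ Subgroup.closure (g '' {w : Pr L | below K w ∈ T}) := by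
      intro E
      induction E using Finsupp.induction with
      | zero =>
        intro _
        rw [ofAdd_zero]
        exact one_mem _
      | single_add w a f hwf ha ih =>
        intro hE
        have hw : below K w ∈ T := by
          by_contra hcon
          have h1 := hE w hcon
          rw [Finsupp.add_apply, Finsupp.single_eq_same, Finsupp.notMem_support_iff.1 hwf, add_zero] at h1
          exact ha h1
        rw [ofAdd_add]
        refine mul_mem ?_ (ih ?_)
        · have h2 : Multiplicative.ofAdd (Finsupp.single w a) = g w ^ a := by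
            rw [hg, ← ofAdd_zsmul]
            congr 1
            rw [Finsupp.smul_single, smul_eq_mul, mul_one]
          rw [h2]
          have h3 : g w ∈ g '' {w : Pr L | below K w ∈ T} := Set.mem_image_of_mem g hw
          exact zpow_mem (Subgroup.subset_closure h3) a
        · intro w' hw'
          have h1 := hE w' hw'
          rw [Finsupp.add_apply, Finsupp.single_apply, if_neg, zero_add] at h1
          · exact h1
          · rintro rfl
            exact hw' hw
    exact key (Multiplicative.toAdd D) hD

/-- A divisor supported outside `S`, the sum of the part in ... : every divisor is the sum of a divisor supported above `T` and of one vanishing above `T`. -/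
theorem DTL_split (T : Finset (Pr K)) (D : Dv L) : ∃ E ∈ DTL L T, ∀ w, below K w ∈ T → E w = D w := by
  classical
  refine ⟨D.filter fun w => below K w ∈ T, fun w hw => ?_, fun w hw => ?_⟩
  · exact Finsupp.filter_apply_neg _ _ hw
  · exact Finsupp.filter_apply_pos _ _ hw

end Pool.Agent.H69H
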