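import Pool.Agent.Lib.H69H.Defs

set_option autoImplicit false
set_option linter.unusedSectionVars false

namespace Pool.Agent.H69H

open NumberField IsDedekindDomain CFT

variable {X : Type*} [CommGroup X]

/-- `Q` finitely generated, `P ≤ Q`, `x ^ n ∈ P` for all `x ∈ Q`: the index of `P` in `Q` is finite. PROOF: the quotient `Q / P` (for example
`Q ⧸ P.subgroupOf Q`) is a finitely generated commutative torsion group, so finite: Mathlib `CommGroup.finite_of_fg_torsion`. -/
theorem relIndex_ne_zero_of_fg {P Q : Subgroup X} (hPQ : P ≤ Q) (hfg : Q.FG) {n : ℕ} (hn : n ≠ 0)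
    (h : ∀ x ∈ Q, x ^ n ∈ P) : P.relIndex Q ≠ 0 := by
  haveI : Group.FG Q := (Group.fg_iff_subgroup_fg Q).2 hfg
  have ht : Monoid.IsTorsion (Q ⧸ P.subgroupOf Q) := by
    intro x
    obtain ⟨x, rfl⟩ := QuotientGroup.mk_surjective x
    rw [isOfFinOrder_iff_pow_eq_one]
    refine ⟨n, Nat.pos_of_ne_zero hn, ?_⟩
    rw [← QuotientGroup.mk_pow, QuotientGroup.eq_one_iff, Subgroup.mem_subgroupOf]
    exact h x x.2
  haveI : Finite (Q ⧸ P.subgroupOf Q) := CommGroup.finite_of_fg_torsion _ ht
  exact Subgroup.index_ne_zero_of_finite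

end Pool.Agent.H69H
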