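import Pool.Agent.Lib.H69H.Defs

set_option autoImplicit false
set_option linter.unusedSectionVars false

namespace Pool.Agent.H69H

open NumberField IsDedekindDomain CFT

variable {X : Type*} [CommGroup X]

/-- `dif s (nrm n s x) = s^n x / x = 1` and `nrm n s (dif s x) = s^n x / x = 1`. PROOF: both products telescope
(`Finset.prod_range_div`, or `Finset.prod_range_succ'` and `Finset.prod_range_succ`); `s (∏ i, s^[i] x) = ∏ i, s^[i+1] x` by `map_prod`
and `Function.iterate_succ_apply'`; `s^[i] (s x / x) = s^[i+1] x / s^[i] x` (`iterate_map_div`). -/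
theorem isPair_dif_nrm (s : X →* X) {n : ℕ} (hn : ∀ x, s^[n] x = x) : IsPair (dif s) (nrm n s) := by
  have h1 : ∀ x, s (nrm n s x) = ∏ i ∈ Finset.range n, s^[i + 1] x := by
    intro x
    rw [nrm_apply, map_prod]
    refine Finset.prod_congr rfl fun i _ => ?_
    rw [Function.iterate_succ_apply']
  have h2 : ∀ x, (∏ i ∈ Finset.range n, s^[i + 1] x) / (∏ i ∈ Finset.range n, s^[i] x) = 1 := by
    intro x
    rw [← Finset.prod_div_distrib, Finset.prod_range_div (fun i => s^[i] x), hn]
    simp
  refine ⟨fun x => ?_, fun x => ?_⟩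
  · rw [dif_apply, h1, nrm_apply, h2]
  · rw [dif_apply, nrm_apply, ← h2 x, ← Finset.prod_div_distrib]
    refine Finset.prod_congr rfl fun i _ => ?_
    rw [iterate_map_div, Function.iterate_succ_apply]

/-- A subgroup stable under `s` is stable under `dif s` and `nrm n s`. -/
theorem isStable_of (s : X →* X) (n : ℕ) {A : Subgroup X} (h : ∀ x ∈ A, s x ∈ A) : IsStable (dif s) (nrm n s) A := by
  have h1 : ∀ i : ℕ, ∀ x ∈ A, s^[i] x ∈ A := by
    intro i
    induction i with
    | zero => intro x hx; exact hx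
    | succ i ih =>
      intro x hx
      rw [Function.iterate_succ_apply]
      exact ih _ (h x hx)
  refine ⟨fun x hx => ?_, fun x hx => ?_⟩
  · rw [dif_apply]
    exact A.div_mem (h x hx) hx
  · rw [nrm_apply]
    exact A.prod_mem fun i _ => h1 i x hx

/-- If `s x = x` then `nrm n s x = x ^ n`. -/
theorem nrm_of_fixed (s : X →* X) (n : ℕ) {x : X} (h : s x = x) : nrm n s x = x ^ n := by
  rw [nrm_apply]
  have h1 : ∀ i : ℕ, s^[i] x = x := by
    intro i
    exact Function.iterate_fixed h i
  simp [h1]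

/-- `x ^ n / nrm n s x` is of the form `dif s y`, with `y` a product of elements `s^[i] x` and inverses: `x / s^[i] x` is the inverse of
`dif s (∏ j in range i, s^[j] x)`. So `y ∈ A` if `A` is stable under `s` and `x ∈ A`. -/
theorem exists_dif (s : X →* X) (n : ℕ) {A : Subgroup X} (h : ∀ x ∈ A, s x ∈ A) {x : X} (hx : x ∈ A) :
    ∃ y ∈ A, x ^ n / nrm n s x = dif s y := by
  have hA := isStable_of s n h
  have h1 : ∀ i : ℕ, ∃ y ∈ A, x / s^[i] x = dif s y := by
    intro i
    refine ⟨(nrm i s x)⁻¹, A.inv_mem ((isStable_of s i h).right x hx), ?_⟩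
    rw [map_inv, dif_apply, nrm_apply, map_prod, ← Finset.prod_div_distrib, ← Finset.prod_inv_distrib]
    have h2 := Finset.prod_range_div (fun j => (s^[j] x)⁻¹) i
    simp only [Function.iterate_zero, id] at h2
    rw [← inv_div, div_eq_mul_inv, ← inv_inv x]
    rw [inv_inv, ← div_eq_mul_inv]
    calc (s^[i] x / x)⁻¹ = (s^[i] x)⁻¹ / x⁻¹ := by
          rw [inv_div, div_eq_mul_inv, div_eq_mul_inv, inv_inv, mul_comm]
      _ = _ := h2.symm
      _ = _ := by
          refine Finset.prod_congr rfl fun j _ => ?_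
          rw [← Function.iterate_succ_apply' s j x, div_eq_mul_inv, div_eq_mul_inv, mul_inv]
  choose y hy h2 using h1
  refine ⟨∏ i ∈ Finset.range n, y i, A.prod_mem fun i _ => hy i, ?_⟩
  rw [map_prod, nrm_apply]
  rw [← Finset.prod_congr rfl fun i _ => h2 i, Finset.prod_div_distrib, Finset.prod_const, Finset.card_range]

end Pool.Agent.H69H
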