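import Pool.Agent.Lib.H69H.Defs
import Pool.Agent.Lib.H69H.G1
import Pool.Agent.Lib.H69H.G3

set_option autoImplicit false
set_option linter.unusedSectionVars false

namespace Pool.Agent.H69H

open NumberField IsDedekindDomain CFT

variable {X : Type*} [CommGroup X]

theorem g4_fg_of_le {P Q : Subgroup X} (h : P ≤ Q) (hQ : Q.FG) : P.FG := by
  rw [Subgroup.fg_iff_add_fg] at hQ ⊢
  have hQ' : (AddSubgroup.toIntSubmodule Q.toAddSubgroup).FG := (Submodule.fg_iff_addSubgroup_fg _).2 hQ
  have := isNoetherian_of_fg_of_noetherian _ hQ'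
  exact (Submodule.fg_iff_addSubgroup_fg (AddSubgroup.toIntSubmodule P.toAddSubgroup)).1
    (isNoetherian_submodule.1 this _ (fun x hx => h hx))

/-- PROOF. `tate f g A B = (B.map g ⊔ A).relIndex (B ⊓ A.comap f)`. By `relIndex_ne_zero_of_fg` (G1) it is enough: the inclusion; `B ⊓ A.comap f` is
finitely generated (a subgroup of a finitely generated commutative group: ℤ is Noetherian; Mathlib: `Subgroup.fg_of_le`-like statement or
`AddSubgroup`/`Submodule ℤ` version with `IsNoetherian ℤ`), and `x ^ n` is in `B.map g ⊔ A` for `x ∈ B ⊓ A.comap f`. First group (`f = dif s`,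
`g = nrm n s`): `s x = x a`, `a ∈ A`, so `s^[i] x = x a_i`, `a_i ∈ A` (induction, `A` stable) and `nrm n s x = x ^ n a'`, `a' ∈ A`. Second group (`f = nrm`, `g = dif`):
`x ^ n = (x ^ n / nrm n s x) * nrm n s x`, the first factor is `dif s y`, `y ∈ B` (`exists_dif`, G3), the second is in `A`. -/
theorem tate_fg (s : X →* X) {n : ℕ} (hn0 : n ≠ 0) (hn : ∀ x, s^[n] x = x) {A B : Subgroup X}
    (hA : ∀ x ∈ A, s x ∈ A) (hB : ∀ x ∈ B, s x ∈ B) (hAB : A ≤ B) (hfg : B.FG) :
    tate (dif s) (nrm n s) A B ≠ 0 ∧ tate (nrm n s) (dif s) A B ≠ 0 := by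
  have hB' := isStable_of s n hB
  have key : ∀ x, dif s x ∈ A → ∀ i : ℕ, s^[i] x / x ∈ A := by
    intro x hx i
    induction i with
    | zero => simp
    | succ i ih =>
      have h1 := A.mul_mem (hA _ ih) hx
      rw [map_div, ← Function.iterate_succ_apply' s i x, dif_apply, div_mul_div_cancel] at h1
      exact h1
  have hp := isPair_dif_nrm s hn
  constructor
  · refine relIndex_ne_zero_of_fg ?_ (g4_fg_of_le inf_le_left hfg) hn0 ?_
    · refine sup_le (le_inf ?_ ?_) (le_inf hAB fun x hx => ((isStable_of s n hA).left x hx))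
      · rintro _ ⟨x, hx, rfl⟩
        exact hB'.right x hx
      · rintro _ ⟨x, hx, rfl⟩
        show dif s (nrm n s x) ∈ A
        rw [hp.fg]
        exact A.one_mem
    · rintro x ⟨h1, h2⟩
      have h3 : nrm n s x / x ^ n ∈ A := by
        have h4 : nrm n s x / x ^ n = ∏ i ∈ Finset.range n, (s^[i] x / x) := by
          rw [nrm_apply, Finset.prod_div_distrib, Finset.prod_const, Finset.card_range]
        rw [h4]
        exact A.prod_mem fun i _ => key x h2 i
      have h5 : x ^ n = nrm n s x * (nrm n s x / x ^ n)⁻¹ := by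
        rw [inv_div, mul_div_cancel]
      rw [h5]
      exact Subgroup.mul_mem_sup ⟨x, h1, rfl⟩ (A.inv_mem h3)
  · refine relIndex_ne_zero_of_fg ?_ (g4_fg_of_le inf_le_left hfg) hn0 ?_
    · refine sup_le (le_inf ?_ ?_) (le_inf hAB fun x hx => ((isStable_of s n hA).right x hx))
      · rintro _ ⟨x, hx, rfl⟩
        exact hB'.left x hx
      · rintro _ ⟨x, hx, rfl⟩
        show nrm n s (dif s x) ∈ A
        rw [hp.gf]
        exact A.one_mem
    · rintro x ⟨h1, h2⟩
      obtain ⟨y, hy, h3⟩ := exists_dif s n hB h1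
      have h5 : x ^ n = dif s y * nrm n s x := by
        rw [← h3, div_mul_cancel]
      rw [h5]
      exact Subgroup.mul_mem_sup ⟨y, hy, rfl⟩ h2

end Pool.Agent.H69H
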