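import Pool.Agent.Lib.H69H.Defs
import Pool.Agent.Lib.H69H.G4
import Pool.Agent.Lib.H69H.D4
import Pool.Agent.Lib.H69H.D5

set_option autoImplicit false
set_option linter.unusedSectionVars false

namespace Pool.Agent.H69H

open NumberField IsDedekindDomain CFT

variable {K : Type} [Field K] [NumberField K] {L : Type} [Field L] [NumberField L] [Algebra K L]

/-- The conorm, multiplicative notation. -/
noncomputable def d6_con (K L : Type) [Field K] [NumberField K] [Field L] [NumberField L] [Algebra K L] :
    Multiplicative (Dv K) →* Multiplicative (Dv L) := AddMonoidHom.toMultiplicative (con K L)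

theorem d6_con_apply (D : Dv K) : d6_con K L (Multiplicative.ofAdd D) = Multiplicative.ofAdd (con K L D) := rfl

theorem d6_inj : Function.Injective (d6_con K L) := fun a b h => con_injective (K := K) (L := L) h

theorem d6_mem_dif (σ : L ≃ₐ[K] L) (D : Multiplicative (Dv L)) :
    dif (sM σ) D = 1 ↔ sD σ (Multiplicative.toAdd D) = Multiplicative.toAdd D := by
  rw [dif_apply, div_eq_one]
  exact Iff.rfl

theorem d6_sD_con (σ : L ≃ₐ[K] L) (D : Dv K) : sD σ (con K L D) = con K L D := by
  ext w
  rw [sD_apply, con_apply, con_apply, below_gp, d4_ram_gp]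

theorem d6_relIndex {A : Type*} [AddGroup A] (H J : AddSubgroup A) :
    (AddSubgroup.toSubgroup H).relIndex (AddSubgroup.toSubgroup J) = H.relIndex J := rfl

/-- PROOF. `H := tate (dif (sM σ)) (nrm n (sM σ)) ⊥ (MT L T)` and `H' := tate (nrm) (dif) ⊥ (MT L T)` are not `0` (`tate_fg`, G4, `MT_fg`, D5, `sM_iter`, D1; `MT L T` is stable: `below_gp`). `exists_her`: `Her ⊥ (MT L T) t`, and `t = H / H' ≤ H`.
`H = ((DTL L T).map (Nd K L)).relIndex (DTK T)`: the injective homomorphism `con` (D2) maps `DTK T` onto the invariants of `DTL L T` (`inv_con`, D5; `con E` is invariant by `below_gp` and the ramification index of `gp σ w`, or because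
`T` is unramified: only primes above `T` count) and `(DTL L T).map Nd` onto the image of `nrm` (`con_Nd`, D4). Index under injective maps: `AddSubgroup.relIndex_map_map_of_injective`; `Subgroup.relIndex` and `AddSubgroup.relIndex` are compared by
`AddSubgroup.toSubgroup`/`Subgroup.toAddSubgroup` (the same quotient; if there is no lemma, unfold `relIndex`, `index` and `Nat.card_congr`). -/
theorem her_MT [IsGalois K L] (σ : L ≃ₐ[K] L) (hσ : ∀ x, x ∈ Subgroup.zpowers σ) (T : Finset (Pr K))
    (hT : ∀ v ∈ T, Unr K L v) :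
    ∃ t : ℚ, Her (dif (sM σ)) (nrm (Module.finrank K L) (sM σ)) ⊥ (MT L T) t ∧
      t ≤ ((DTL L T).map (Nd K L)).relIndex (DTK T) ∧ ((DTL L T).map (Nd K L)).relIndex (DTK T) ≠ 0 := by
  classical
  have hstab : ∀ x ∈ MT L T, sM σ x ∈ MT L T := by
    intro x hx
    rw [mem_MT] at hx ⊢
    intro w hw
    show sD σ (Multiplicative.toAdd x) w = 0
    rw [sD_apply]
    exact hx _ (by rwa [below_gp])
  obtain ⟨h1, h2⟩ := tate_fg (sM σ) (n := Module.finrank K L) Module.finrank_pos.ne'
    (fun x => sM_iter σ x) (A := ⊥) (B := MT L T)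
    (fun x hx => by
      rw [Subgroup.mem_bot] at hx ⊢
      rw [hx, map_one]) hstab bot_le (MT_fg T)
  have hkey : ((DTL L T).map (Nd K L)).relIndex (DTK T) =
      tate (dif (sM σ)) (nrm (Module.finrank K L) (sM σ)) ⊥ (MT L T) := by
    rw [← d6_relIndex, ← Subgroup.relIndex_map_map_of_injective _ _ (d6_inj (K := K) (L := L))]
    unfold tate
    congr 1
    · rw [sup_bot_eq]
      ext D
      constructor
      · rintro ⟨E, ⟨F, hF, hE⟩, rfl⟩
        refine ⟨Multiplicative.ofAdd F, hF, ?_⟩
        have h3 := con_Nd (K := K) (L := L) σ hσ F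
        have h4 : Nd K L F = Multiplicative.toAdd E := hE
        rw [h4] at h3
        show nrm (Module.finrank K L) (sM σ) (Multiplicative.ofAdd F) =
          Multiplicative.ofAdd (con K L (Multiplicative.toAdd E))
        rw [h3]
        rfl
      · rintro ⟨F, hF, rfl⟩
        refine ⟨Multiplicative.ofAdd (Nd K L (Multiplicative.toAdd F)), ⟨Multiplicative.toAdd F, hF, rfl⟩, ?_⟩
        rw [d6_con_apply, con_Nd σ hσ]
        rfl
    · ext D
      rw [Subgroup.mem_inf, Subgroup.mem_comap, Subgroup.mem_bot, d6_mem_dif]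
      constructor
      · rintro ⟨E, hE, rfl⟩
        refine ⟨?_, d6_sD_con σ _⟩
        rw [mem_MT]
        intro w hw
        show con K L (Multiplicative.toAdd E) w = 0
        rw [con_apply]
        have h3 : (Multiplicative.toAdd E) (below K w) = 0 := hE (below K w) hw
        rw [h3, mul_zero]
      · rintro ⟨hD, hs⟩
        obtain ⟨E, hE, h3⟩ := inv_con σ hσ T hT (Multiplicative.toAdd D) hD hs
        refine ⟨Multiplicative.ofAdd E, hE, ?_⟩
        rw [d6_con_apply, ← h3]
        rfl
  obtain ⟨t, ht⟩ := exists_her h1 h2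
  refine ⟨t, ht, ?_, ?_⟩
  · rw [hkey, ht.eq]
    have h3 : (1 : ℚ) ≤ tate (nrm (Module.finrank K L) (sM σ)) (dif (sM σ)) ⊥ (MT L T) := by
      exact_mod_cast Nat.one_le_iff_ne_zero.2 h2
    exact le_mul_of_one_le_right ht.pos.le h3
  · rw [hkey]
    exact h1

end Pool.Agent.H69H
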