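import Pool.Agent.Lib.H69H.Defs

set_option autoImplicit false
set_option linter.unusedSectionVars false

namespace Pool.Agent.H69H

open NumberField IsDedekindDomain CFT

/-- PROOF. If `od w y = 0` then there is `a : 𝓞 L` with `w.valuation (y - a) < exp (-N)` (Mathlib `HeightOneSpectrum.exists_valuation_sub_lt_of_integer`), `a ∉ w`. The ring `𝓞 L ⧸ w^(N+1)` is finite (`Ideal.finiteQuotientOfFreeOfNeBot` or `Ideal.fintypeQuotientOfFreeOfNeBot`), `a` is a unit
in it, so `a^m - 1 ∈ w^(N+1)`, `m` the order of the unit group, i.e. `w.valuation (a^m - 1) ≤ exp (-(N+1)) < exp (-N)` (`intValuation_le_pow_iff_mem`), and `y^m - a^m` is divisible by `y - a` (`sub_dvd_pow_sub_pow`), the cofactor is integral at `w`. -/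
theorem pow_near {L : Type} [Field L] [NumberField L] (w : Pr L) (N : ℕ) : ∃ m : ℕ, m ≠ 0 ∧ ∀ y : Lˣ, od w (y : L) = 0 →
    w.valuation L ((y : L) ^ m - 1) < WithZero.exp (-(N : ℤ)) := by
  have hfin : Finite (𝓞 L ⧸ w.asIdeal ^ (N + 1)) :=
    Ideal.finiteQuotientOfFreeOfNeBot _ (pow_ne_zero _ w.ne_bot)
  refine ⟨Nat.card (𝓞 L ⧸ w.asIdeal ^ (N + 1))ˣ, Nat.card_pos.ne', fun y hy => ?_⟩
  generalize hm : Nat.card (𝓞 L ⧸ w.asIdeal ^ (N + 1))ˣ = m
  have hy1 : w.valuation L (y : L) = 1 := by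
    rw [val_eq w y.ne_zero, hy, neg_zero, WithZero.exp_zero]
  obtain ⟨a, ha⟩ := w.exists_valuation_sub_lt_of_integer (K := L) hy1.le (Units.mk0 (WithZero.exp (-(N : ℤ))) WithZero.coe_ne_zero)
  have ha : w.valuation L (algebraMap (𝓞 L) L a - y) < WithZero.exp (-(N : ℤ)) := ha
  have ha1 : w.valuation L (algebraMap (𝓞 L) L a) = 1 := by
    have h1 : algebraMap (𝓞 L) L a = (y : L) + (algebraMap (𝓞 L) L a - y) := by ring
    rw [h1, Valuation.map_add_eq_of_lt_left _ (by rw [hy1]; exact ha.trans_le (exp_le_one N)), hy1]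
  have ha2 : a ∉ w.asIdeal := by
    intro h
    have h1 := (w.valuation_lt_one_iff_mem (K := L) a).2 h
    rw [ha1] at h1
    exact lt_irrefl _ h1
  have ha3 : IsUnit (Ideal.Quotient.mk (w.asIdeal ^ (N + 1)) a) := by
    have hmax := w.isMaximal
    have h1 : IsCoprime (Ideal.span {a}) (w.asIdeal ^ (N + 1)) := by
      refine IsCoprime.pow_right ?_
      rw [Ideal.isCoprime_iff_exists]
      obtain ⟨b, i, hi, hb⟩ := hmax.exists_inv ha2
      exact ⟨b * a, Ideal.mem_span_singleton'.2 ⟨b, rfl⟩, i, hi, hb⟩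
    rw [Ideal.isCoprime_iff_exists] at h1
    obtain ⟨x, hx, z, hz, h2⟩ := h1
    obtain ⟨b, rfl⟩ := Ideal.mem_span_singleton'.1 hx
    refine IsUnit.of_mul_eq_one (Ideal.Quotient.mk _ b) ?_
    rw [← map_mul, mul_comm a b, ← map_one (Ideal.Quotient.mk (w.asIdeal ^ (N + 1))), ← h2, Ideal.Quotient.mk_eq_mk_iff_sub_mem]
    have h3 : b * a - (b * a + z) = -z := by ring
    rw [h3]
    exact neg_mem hz
  obtain ⟨u, hu⟩ := ha3
  have hum : u ^ m = 1 := by
    rw [← hm]
    exact pow_card_eq_one'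
  have ham : a ^ m - 1 ∈ w.asIdeal ^ (N + 1) := by
    rw [← Ideal.Quotient.mk_eq_mk_iff_sub_mem, map_pow, ← hu, map_one, ← Units.val_pow_eq_pow_val, hum, Units.val_one]
  have ham' : w.valuation L (algebraMap (𝓞 L) L a ^ m - 1) < WithZero.exp (-(N : ℤ)) := by
    rw [← map_pow, ← map_one (algebraMap (𝓞 L) L), ← map_sub, HeightOneSpectrum.valuation_of_algebraMap]
    refine ((w.intValuation_le_pow_iff_mem _ _).2 ham).trans_lt ?_
    rw [WithZero.exp_lt_exp]
    push_cast
    omega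
  have hind : ∀ k : ℕ, w.valuation L ((y : L) ^ k - algebraMap (𝓞 L) L a ^ k) < WithZero.exp (-(N : ℤ)) := by
    intro k
    induction k with
    | zero =>
      rw [pow_zero, pow_zero, sub_self, map_zero]
      exact WithZero.zero_lt_coe _
    | succ k ih =>
      have h1 : (y : L) ^ (k + 1) - algebraMap (𝓞 L) L a ^ (k + 1) =
          y * ((y : L) ^ k - algebraMap (𝓞 L) L a ^ k) - (algebraMap (𝓞 L) L a - y) * algebraMap (𝓞 L) L a ^ k := by ring
      rw [h1]
      refine (Valuation.map_sub _ _ _).trans_lt (max_lt ?_ ?_)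
      · rw [map_mul, hy1, one_mul]
        exact ih
      · rw [map_mul, map_pow, ha1, one_pow, mul_one]
        exact ha
  have h1 : (y : L) ^ m - 1 = ((y : L) ^ m - algebraMap (𝓞 L) L a ^ m) + (algebraMap (𝓞 L) L a ^ m - 1) := by ring
  rw [h1]
  exact (Valuation.map_add _ _ _).trans_lt (max_lt (hind m) ham')

variable {K : Type} [Field K] [NumberField K] {L : Type} [Field L] [NumberField L] [Algebra K L]

/-- PROOF. `hV.ray` gives `N`; take the product of the `m` of `pow_near` over the finitely many `w` above `S` (`fib_fin`); if `w.valuation (x - 1) < exp (-N) ≤ 1` then the same for the powers of `x`. -/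
theorem pow_mem_V {σ : L ≃ₐ[K] L} {S : Finset (Pr K)} {V : Subgroup Lˣ} (hV : IsV σ S V) :
    ∃ m : ℕ, m ≠ 0 ∧ ∀ y : Lˣ, (∀ w : Pr L, below K w ∈ S → od w (y : L) = 0) → y ^ m ∈ V := by
  obtain ⟨N, hN⟩ := hV.ray
  choose m hm0 hm using fun w : Pr L => pow_near w N
  have hfin : {w : Pr L | below K w ∈ S}.Finite := by
    refine (S.finite_toSet.biUnion fun v _ => fib_fin (L := L) K v).subset fun w hw => ?_
    exact Set.mem_biUnion (x := below K w) hw rfl
  refine ⟨∏ w ∈ hfin.toFinset, m w, Finset.prod_ne_zero_iff.2 fun w _ => hm0 w, fun y hy => ?_⟩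
  refine hN _ fun w hw => ?_
  have hmem : w ∈ hfin.toFinset := hfin.mem_toFinset.2 hw
  have hdvd : m w ∣ ∏ w ∈ hfin.toFinset, m w := Finset.dvd_prod_of_mem m hmem
  obtain ⟨k, hk⟩ := hdvd
  rw [hk, Units.val_pow_eq_pow_val, pow_mul]
  have h1 := hm w y (hy w hw)
  generalize (y : L) ^ m w = z at h1
  have hz : w.valuation L z = 1 := by
    have h2 : z = 1 + (z - 1) := by ring
    rw [h2]
    exact Valuation.map_one_add_of_lt _ (h1.trans_le (exp_le_one N))
  clear hk
  induction k with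
  | zero =>
    rw [pow_zero, sub_self, map_zero]
    exact WithZero.zero_lt_coe _
  | succ k ih =>
    have h2 : z ^ (k + 1) - 1 = z * (z ^ k - 1) + (z - 1) := by ring
    rw [h2]
    refine (Valuation.map_add _ _ _).trans_lt (max_lt ?_ h1)
    rw [map_mul, hz, one_mul]
    exact ih

end Pool.Agent.H69H
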