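import Pool.Agent.Lib.H69H.Defs

set_option autoImplicit false
set_option linter.unusedSectionVars false

namespace Pool.Agent.H69H

open NumberField IsDedekindDomain CFT

theorem u2_claim {ι : Type*} [Fintype ι] (C : ι → ι → ℝ) (m : ι → ℝ) (hm : ∀ i, 0 < m i)
    (hoff : ∀ i j, i ≠ j → C i j < 0) (hsum : ∀ j, ∑ i, m i * C i j = 0) (x : ι → ℤ)
    (hx : ∀ i, ∑ j, C i j * x j = 0) (j0 : ι) (hj0 : 0 < x j0) : ∀ j, 0 < x j := by
  classical
  by_contra hcon
  push Not at hcon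
  obtain ⟨q0, hq0⟩ := hcon
  let P : Finset ι := Finset.univ.filter fun j => 0 < x j
  let Q : Finset ι := Finset.univ.filter fun j => ¬ 0 < x j
  have hP : j0 ∈ P := Finset.mem_filter.2 ⟨Finset.mem_univ _, hj0⟩
  have hQ : q0 ∈ Q := Finset.mem_filter.2 ⟨Finset.mem_univ _, not_lt.2 hq0⟩
  have h0 : ∑ j, (x j : ℝ) * ∑ i ∈ Q, m i * C i j = 0 := by
    have h1 : ∑ i ∈ Q, m i * ∑ j, C i j * x j = 0 :=
      Finset.sum_eq_zero fun i _ => by rw [hx i, mul_zero]
    rw [← h1]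
    simp_rw [Finset.mul_sum]
    rw [Finset.sum_comm]
    refine Finset.sum_congr rfl fun i _ => Finset.sum_congr rfl fun j _ => by ring
  have hcP : ∀ j ∈ P, ∑ i ∈ Q, m i * C i j < 0 := by
    intro j hj
    refine Finset.sum_neg (fun i hi => ?_) ⟨q0, hQ⟩
    have hij : i ≠ j := by
      rintro rfl
      exact (Finset.mem_filter.1 hi).2 (Finset.mem_filter.1 hj).2
    exact mul_neg_of_pos_of_neg (hm i) (hoff i j hij)
  have hcQ : ∀ j ∈ Q, 0 < ∑ i ∈ Q, m i * C i j := by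
    intro j hj
    have h1 : ∑ i ∈ P, m i * C i j + ∑ i ∈ Q, m i * C i j = 0 := by
      rw [← hsum j]
      exact Finset.sum_filter_add_sum_filter_not _ _ _
    have h2 : ∑ i ∈ P, m i * C i j < 0 := by
      refine Finset.sum_neg (fun i hi => ?_) ⟨j0, hP⟩
      have hij : i ≠ j := by
        rintro rfl
        exact (Finset.mem_filter.1 hj).2 (Finset.mem_filter.1 hi).2
      exact mul_neg_of_pos_of_neg (hm i) (hoff i j hij)
    linarith
  have hle : ∀ j ∈ (Finset.univ : Finset ι), (x j : ℝ) * ∑ i ∈ Q, m i * C i j ≤ 0 := by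
    intro j _
    by_cases hj : 0 < x j
    · have h1 := hcP j (Finset.mem_filter.2 ⟨Finset.mem_univ _, hj⟩)
      have h2 : (0 : ℝ) < x j := by exact_mod_cast hj
      exact (mul_neg_of_pos_of_neg h2 h1).le
    · have h1 := hcQ j (Finset.mem_filter.2 ⟨Finset.mem_univ _, hj⟩)
      have h2 : (x j : ℝ) ≤ 0 := by exact_mod_cast not_lt.1 hj
      exact mul_nonpos_of_nonpos_of_nonneg h2 h1.le
  have hlt : (x j0 : ℝ) * ∑ i ∈ Q, m i * C i j0 < 0 := by
    have h2 : (0 : ℝ) < x j0 := by exact_mod_cast hj0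
    exact mul_neg_of_pos_of_neg h2 (hcP j0 hP)
  have := Finset.sum_lt_sum hle ⟨j0, Finset.mem_univ _, hlt⟩
  rw [h0, Finset.sum_const_zero] at this
  exact lt_irrefl _ this

/-- PROOF. Claim: if some `x j > 0` then all are. Let `P = {j | 0 < x j}`, nonempty, `Q` its complement, suppose `Q` is nonempty. Then
`0 = ∑_{i ∈ Q} m i * ∑_j C i j * x j = ∑_j x j * c j`, `c j = ∑_{i ∈ Q} m i * C i j`. For `j ∈ P`: `c j < 0` (`Q` is nonempty and does not contain `j`).
For `j ∈ Q`: `c j = - ∑_{i ∈ P} m i * C i j > 0`. So all terms of `∑_j x j * c j` are `≤ 0` and those with `j ∈ P` are `< 0`: contradiction. Apply the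
claim to `x` and to `-x`. -/
theorem sign_lemma {ι : Type*} [Fintype ι] (C : ι → ι → ℝ) (m : ι → ℝ) (hm : ∀ i, 0 < m i)
    (hoff : ∀ i j, i ≠ j → C i j < 0) (hsum : ∀ j, ∑ i, m i * C i j = 0) (x : ι → ℤ)
    (hx : ∀ i, ∑ j, C i j * x j = 0) : (∀ j, x j = 0) ∨ (∀ j, 0 < x j) ∨ (∀ j, x j < 0) := by
  classical
  by_cases h1 : ∃ j, 0 < x j
  · obtain ⟨j0, hj0⟩ := h1
    exact Or.inr (Or.inl (u2_claim C m hm hoff hsum x hx j0 hj0))
  by_cases h2 : ∃ j, x j < 0
  · obtain ⟨j0, hj0⟩ := h2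
    refine Or.inr (Or.inr fun j => ?_)
    have := u2_claim C m hm hoff hsum (fun j => -x j) (fun i => by
      have e : ∑ j, C i j * ((-x j : ℤ) : ℝ) = -∑ j, C i j * (x j : ℝ) := by
        rw [← Finset.sum_neg_distrib]
        refine Finset.sum_congr rfl fun j _ => ?_
        push_cast
        ring
      rw [e, hx i, neg_zero]) j0 (by simpa using hj0) j
    simpa using this
  · push Not at h1 h2
    exact Or.inl fun j => le_antisymm (h1 j) (h2 j)

end Pool.Agent.H69H
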