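import Pool.Agent.Lib.H69H.Defs
import Pool.Agent.Lib.H69H.U2
import Pool.Agent.Lib.CFT.B02

set_option autoImplicit false
set_option linter.unusedSectionVars false

namespace Pool.Agent.H69H

open NumberField IsDedekindDomain CFT

variable {K : Type} [Field K] [NumberField K] {L : Type} [Field L] [NumberField L] [Algebra K L]

theorem u3_UL_eq (L : Type) [Field L] [NumberField L] : UL L = (Units.map (algebraMap (𝓞 L) L : 𝓞 L →* L)).range := by
  ext x
  constructor
  · intro hx
    have h1 : dvU L x = 1 := hx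
    have h2 : dv (x : L) = 0 := by
      rw [dvU_apply] at h1
      exact h1
    obtain ⟨u, hu⟩ := unit_of_dv x.ne_zero h2
    exact ⟨u, Units.ext hu⟩
  · rintro ⟨u, rfl⟩
    show dvU L _ = 1
    rw [dvU_apply]
    exact dv_unit u

/-- The units. -/
noncomputable def u3_equiv (L : Type) [Field L] [NumberField L] : (𝓞 L)ˣ ≃* UL L :=
  (MonoidHom.ofInjective (f := Units.map (algebraMap (𝓞 L) L : 𝓞 L →* L))
    (Units.map_injective (FaithfulSMul.algebraMap_injective (𝓞 L) L))).trans
    (MulEquiv.subgroupCongr (u3_UL_eq L).symm)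

theorem u3_finrank (L : Type) [Field L] [NumberField L] : Module.finrank ℤ (Additive (UL L)) = NumberField.Units.rank L := by
  rw [← NumberField.Units.finrank_eq]
  exact (LinearEquiv.finrank_eq (AddEquiv.toIntLinearEquiv (MulEquiv.toAdditive (u3_equiv L)))).symm

theorem u3_finite (L : Type) [Field L] [NumberField L] : Module.Finite ℤ (Additive (UL L)) :=
  Module.Finite.equiv (AddEquiv.toIntLinearEquiv (MulEquiv.toAdditive (u3_equiv L)))

/-- The linear map. -/
noncomputable def u3_f (ε : InfinitePlace L → Lˣ) (h : ∀ x, phi ε x ∈ UL L) : (InfinitePlace L → ℤ) →ₗ[ℤ] Additive (UL L) :=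
  AddMonoidHom.toIntLinearMap
    { toFun := fun x => Additive.ofMul ⟨phi ε (Multiplicative.ofAdd x), h _⟩
      map_zero' := by
        rw [← ofMul_one]
        congr 1
        exact Subtype.ext (map_one (phi ε))
      map_add' := fun x y => by
        rw [← ofMul_mul]
        congr 1
        exact Subtype.ext (map_mul (phi ε) (Multiplicative.ofAdd x) (Multiplicative.ofAdd y)) }

theorem u3_f_apply (ε : InfinitePlace L → Lˣ) (h : ∀ x, phi ε x ∈ UL L) (x : InfinitePlace L → ℤ) :
    u3_f ε h x = Additive.ofMul ⟨phi ε (Multiplicative.ofAdd x), h _⟩ := rfl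

/-- The kernel is not trivial. PROOF: otherwise `phi ε` would be an injective homomorphism from a group of rank `card (InfinitePlace L)` to the
units (`UL L`, isomorphic to `(𝓞 L)ˣ`), whose rank is `card - 1` (Mathlib `NumberField.Units.rank`, `NumberField.Units.finrank_eq :
finrank ℤ (Additive (𝓞 K)ˣ) = rank K`; `LinearMap.finrank_le_finrank_of_injective` or `LinearMap.rank_le_of_injective`). -/
theorem phi_ker_ne (ε : InfinitePlace L → Lˣ) (h1 : ∀ w, ε w ∈ UL L) :
    ∃ x : Multiplicative (InfinitePlace L → ℤ), x ≠ 1 ∧ phi ε x = 1 := by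
  have hmem : ∀ x, phi ε x ∈ UL L := fun x => by
    rw [phi_apply]
    exact Subgroup.prod_mem _ fun w _ => Subgroup.zpow_mem _ (h1 w) _
  by_contra hcon
  have hcon' : ∀ x : Multiplicative (InfinitePlace L → ℤ), phi ε x = 1 → x = 1 := by
    intro x hx
    by_contra h
    exact hcon ⟨x, h, hx⟩
  have hinj : Function.Injective (u3_f ε hmem) := by
    rw [injective_iff_map_eq_zero]
    intro x hx
    rw [u3_f_apply] at hx
    have h2 : phi ε (Multiplicative.ofAdd x) = 1 := congrArg (fun z : Additive (UL L) => ((Additive.toMul z : UL L) : Lˣ)) hx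
    exact hcon' _ h2
  have := u3_finite L
  have h2 := LinearMap.finrank_le_finrank_of_injective hinj
  rw [u3_finrank, NumberField.Units.rank, Module.finrank_fintype_fun_eq_card] at h2
  have h3 : 0 < Fintype.card (InfinitePlace L) := Fintype.card_pos
  omega

/-- The coordinates of an element of the kernel are all zero, all positive or all negative. PROOF: `sign_lemma` (U2) with
`C w' w = Real.log (w' (ε w))` and `m w' = mult w'`: `∑ w', mult w' * log (w' u) = 0` for a unit `u` (Mathlib `NumberField.Units.sum_mult_mul_log`),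
`C w' w < 0` for `w' ≠ w`, and `∑_w C w' w * x w = log (w' (∏_w ε_w ^ x_w)) = 0`. -/
theorem phi_ker_sign (ε : InfinitePlace L → Lˣ) (h1 : ∀ w, ε w ∈ UL L) (h3 : ∀ w w' : InfinitePlace L, w' ≠ w → w' (ε w : L) < 1)
    (x : Multiplicative (InfinitePlace L → ℤ)) (hx : phi ε x = 1) :
    (∀ w, Multiplicative.toAdd x w = 0) ∨ (∀ w, 0 < Multiplicative.toAdd x w) ∨ (∀ w, Multiplicative.toAdd x w < 0) := by
  have hpos : ∀ w w' : InfinitePlace L, 0 < w' (ε w : L) := fun w w' => InfinitePlace.pos_iff.2 (ε w).ne_zero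
  refine sign_lemma (fun w' w => Real.log (w' (ε w : L))) (fun w => (w.mult : ℝ)) (fun w => ?_) ?_ ?_ _ ?_
  · exact_mod_cast InfinitePlace.mult_pos
  · intro i j hij
    exact Real.log_neg (hpos j i) (h3 j i hij)
  · intro j
    have h4 := h1 j
    rw [u3_UL_eq] at h4
    obtain ⟨u, hu⟩ := h4
    have h5 := NumberField.Units.sum_mult_mul_log u
    have h6 : ((ε j : Lˣ) : L) = algebraMap (𝓞 L) L (u : 𝓞 L) := by
      rw [← hu]
      rfl
    rw [h6]
    exact h5
  · intro i
    have h4 : i ((phi ε x : Lˣ) : L) = ∏ w, i (ε w : L) ^ (Multiplicative.toAdd x w) := by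
      rw [phi_apply, Units.coe_prod, map_prod]
      exact Finset.prod_congr rfl fun w _ => by rw [Units.val_zpow_eq_zpow_val, map_zpow₀]
    rw [hx, Units.val_one, map_one] at h4
    have h5 := congrArg Real.log h4
    rw [Real.log_one, Real.log_prod (fun w _ => (zpow_pos (hpos w i) _).ne')] at h5
    rw [h5]
    refine Finset.sum_congr rfl fun w _ => ?_
    rw [Real.log_zpow, mul_comm]

end Pool.Agent.H69H
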