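import Pool.Agent.Lib.H69H.Defs
import Pool.Agent.Lib.H69H.U3

set_option autoImplicit false
set_option linter.unusedSectionVars false

namespace Pool.Agent.H69H

open NumberField IsDedekindDomain CFT

variable {K : Type} [Field K] [NumberField K] {L : Type} [Field L] [NumberField L] [Algebra K L]

/-- PROOF. `phi_ker_ne`, `phi_ker_sign` (U3). Fix a place `w0`. By `phi_ker_ne` and `phi_ker_sign` (and inverses) there are elements of the kernel with
positive coordinate at `w0`; let `c` be one with the smallest such coordinate `m` (`Nat.find` or well founded minimum). If `x` is in the kernel, `x w0 = k m + r`, `0 ≤ r < m`, then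
`x * c^(-k)` is in the kernel with `w0` coordinate `r`: so `r = 0` by minimality, and then all its coordinates are `0` by `phi_ker_sign`; `x = c ^ k`. `c ^ i = 1` gives `i * m = 0`.
INVARIANCE: let `c' w = c (σ • w)`. `phi ε c' = ∏_w ε_w ^ c (σ • w) = ∏_w ε_(σ⁻¹ • w) ^ c w = σ⁻¹ (∏ ε_w ^ c w) = 1` (`h2`), so `c' = c ^ k`, and the sum of the coordinates
of `c'` and `c` is the same and positive: `k = 1`. -/
theorem phi_ker (ε : InfinitePlace L → Lˣ) (h1 : ∀ w, ε w ∈ UL L) (h2 : ∀ (σ : L ≃ₐ[K] L) w, sU σ (ε w) = ε (σ • w))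
    (h3 : ∀ w w' : InfinitePlace L, w' ≠ w → w' (ε w : L) < 1) :
    ∃ c : Multiplicative (InfinitePlace L → ℤ), (phi ε).ker = Subgroup.zpowers c ∧ (∀ i : ℤ, c ^ i = 1 → i = 0) ∧
      ∀ (σ : L ≃ₐ[K] L) w, Multiplicative.toAdd c (σ • w) = Multiplicative.toAdd c w := by
  classical
  obtain ⟨w0⟩ := (inferInstance : Nonempty (InfinitePlace L))
  let co : Multiplicative (InfinitePlace L → ℤ) → InfinitePlace L → ℤ := fun x => Multiplicative.toAdd x
  have co_mul : ∀ x y w, co (x * y) w = co x w + co y w := fun x y w => rfl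
  have co_zpow : ∀ x (i : ℤ) w, co (x ^ i) w = i * co x w := fun x i w => by
    show Multiplicative.toAdd (x ^ i) w = _
    rw [toAdd_zpow, Pi.smul_apply, smul_eq_mul]
  have co_one : ∀ w, co 1 w = 0 := fun w => rfl
  have co_ext : ∀ x y, (∀ w, co x w = co y w) → x = y := fun x y h => by
    apply Multiplicative.toAdd.injective
    funext w
    exact h w
  have sgn : ∀ x, phi ε x = 1 → (∀ w, co x w = 0) ∨ (∀ w, 0 < co x w) ∨ (∀ w, co x w < 0) :=
    fun x hx => phi_ker_sign ε h1 h3 x hx
  have hne : ∃ n : ℕ, 0 < n ∧ ∃ x, phi ε x = 1 ∧ co x w0 = n := by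
    obtain ⟨x, hx1, hx2⟩ := phi_ker_ne ε h1
    rcases sgn x hx2 with h | h | h
    · exact absurd (co_ext x 1 fun w => by rw [h w, co_one]) hx1
    · exact ⟨(co x w0).toNat, by have := h w0; omega, x, hx2, by have := h w0; omega⟩
    · refine ⟨(-co x w0).toNat, by have := h w0; omega, x ^ (-1 : ℤ), ?_, ?_⟩
      · rw [map_zpow, hx2, one_zpow]
      · rw [co_zpow]
        have := h w0
        omega
  set m := Nat.find hne with hm
  obtain ⟨hm0, c, hc1, hc2⟩ := Nat.find_spec hne
  rw [← hm] at hm0 hc2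
  have hmin : ∀ k : ℕ, 0 < k → k < m → ∀ x, phi ε x = 1 → co x w0 ≠ k := by
    intro k hk hkm x hx hxk
    exact Nat.find_min hne hkm ⟨hk, x, hx, hxk⟩
  have hker : ∀ x, phi ε x = 1 → ∃ k : ℤ, c ^ k = x := by
    intro x hx
    refine ⟨co x w0 / m, ?_⟩
    set q := co x w0 / (m : ℤ) with hq
    have hy : phi ε (x * c ^ (-q)) = 1 := by
      rw [map_mul, map_zpow, hx, hc1, one_zpow, mul_one]
    have hyw : co (x * c ^ (-q)) w0 = co x w0 % (m : ℤ) := by
      rw [co_mul, co_zpow, hc2, Int.emod_def, hq]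
      ring
    have hr0 := Int.emod_nonneg (co x w0) (b := (m : ℤ)) (by omega)
    have hr1 := Int.emod_lt_of_pos (co x w0) (b := (m : ℤ)) (by omega)
    have hr : co x w0 % (m : ℤ) = 0 := by
      by_contra hne'
      exact hmin (co x w0 % (m : ℤ)).toNat (by omega) (by omega) _ hy (by rw [hyw]; omega)
    rw [hr] at hyw
    have hy1 : x * c ^ (-q) = 1 := by
      rcases sgn _ hy with h | h | h
      · exact co_ext _ 1 fun w => by rw [h w, co_one]
      · have := h w0
        omega
      · have := h w0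
        omega
    have : x = x * c ^ (-q) * c ^ q := by
      rw [mul_assoc, ← zpow_add, neg_add_cancel, zpow_zero, mul_one]
    rw [this, hy1, one_mul]
  have hpos : ∀ w, 0 < co c w := by
    rcases sgn c hc1 with h | h | h
    · have := h w0
      omega
    · exact h
    · have := h w0
      omega
  refine ⟨c, ?_, ?_, ?_⟩
  · ext x
    rw [MonoidHom.mem_ker, Subgroup.mem_zpowers_iff]
    constructor
    · exact hker x
    · rintro ⟨k, rfl⟩
      rw [map_zpow, hc1, one_zpow]
  · intro i hi
    have h4 : co (c ^ i) w0 = 0 := by rw [hi, co_one]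
    rw [co_zpow, hc2] at h4
    rcases mul_eq_zero.1 h4 with h | h
    · exact h
    · omega
  · intro σ w
    let c' : Multiplicative (InfinitePlace L → ℤ) := Multiplicative.ofAdd fun w => co c (σ • w)
    have hc' : ∀ w, co c' w = co c (σ • w) := fun w => rfl
    have hphi : phi ε c' = 1 := by
      rw [phi_apply]
      have e1 : ∏ w, ε w ^ (Multiplicative.toAdd c' w) = ∏ w, ε (σ⁻¹ • w) ^ (co c w) := by
        rw [← Equiv.prod_comp (MulAction.toPerm (σ : L ≃ₐ[K] L)) fun w => ε (σ⁻¹ • w) ^ (co c w)]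
        refine Finset.prod_congr rfl fun w _ => ?_
        show ε w ^ co c (σ • w) = ε (σ⁻¹ • σ • w) ^ co c (σ • w)
        rw [inv_smul_smul]
      rw [e1]
      have e2 : ∏ w, ε (σ⁻¹ • w) ^ (co c w) = sU σ⁻¹ (phi ε c) := by
        rw [phi_apply, map_prod]
        refine Finset.prod_congr rfl fun w _ => ?_
        rw [← h2, map_zpow]
      rw [e2, hc1, map_one]
    obtain ⟨k, hk⟩ := hker c' hphi
    have hsum : ∑ w, co c' w = ∑ w, co c w := by
      rw [← Equiv.sum_comp (MulAction.toPerm (σ : L ≃ₐ[K] L)) fun w => co c w]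
      rfl
    have hsum2 : ∑ w, co c' w = k * ∑ w, co c w := by
      rw [← hk, Finset.mul_sum]
      exact Finset.sum_congr rfl fun w _ => co_zpow c k w
    have hS : 0 < ∑ w, co c w := Finset.sum_pos (fun w _ => hpos w) ⟨w0, Finset.mem_univ _⟩
    have hk1 : k = 1 := by
      rw [hsum] at hsum2
      have : (k - 1) * ∑ w, co c w = 0 := by linarith
      rcases mul_eq_zero.1 this with h | h
      · omega
      · omega
    rw [hk1, zpow_one] at hk
    have := hc' w
    rw [← hk] at this
    exact this.symm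

end Pool.Agent.H69H
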