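import Pool.Agent.Lib.H69H.Defs
import Pool.Agent.Lib.H69H.U4
import Pool.Agent.Lib.CFT.B02

set_option autoImplicit false
set_option linter.unusedSectionVars false

namespace Pool.Agent.H69H

open NumberField IsDedekindDomain CFT

variable {K : Type} [Field K] [NumberField K] {L : Type} [Field L] [NumberField L] [Algebra K L]

/-- `UL L` is the group of units of the ring of integers. PROOF: `od w x = 0` for all `w` iff all valuations of `x` are `1` (`val_eq` in CFT/D0), and then
`x` and `x⁻¹` are integral (`IsDedekindDomain.HeightOneSpectrum.mem_integers_of_valuation_le_one`). -/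
theorem UL_eq (L : Type) [Field L] [NumberField L] : UL L = (Units.map (algebraMap (𝓞 L) L : 𝓞 L →* L)).range := by
  ext x
  constructor
  · intro hx
    have h1 : dvU L x = 1 := hx
    have h2 : dv (x : L) = 0 := by
      rw [dvU_apply] at h1
      exact h1
    obtain ⟨u, hu⟩ := unit_of_dv x.ne_zero h2
    exact ⟨u, Units.ext hu⟩
  · rintro ⟨u, rfl⟩
    show dvU L _ = 1
    rw [dvU_apply]
    exact dv_unit u

theorem UL_fg (L : Type) [Field L] [NumberField L] : (UL L).FG := by
  rw [UL_eq]
  have : Group.FG (𝓞 L)ˣ := Group.fg_iff_monoid_fg.2 inferInstance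
  rw [← Group.fg_iff_subgroup_fg]
  exact Group.fg_range _

/-- The units. -/
noncomputable def u5_equiv (L : Type) [Field L] [NumberField L] : (𝓞 L)ˣ ≃* UL L :=
  (MonoidHom.ofInjective (f := Units.map (algebraMap (𝓞 L) L : 𝓞 L →* L))
    (Units.map_injective (FaithfulSMul.algebraMap_injective (𝓞 L) L))).trans
    (MulEquiv.subgroupCongr (UL_eq L).symm)

theorem u5_finrank (L : Type) [Field L] [NumberField L] : Module.finrank ℤ (Additive (UL L)) = NumberField.Units.rank L := by
  rw [← NumberField.Units.finrank_eq]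
  exact (LinearEquiv.finrank_eq (AddEquiv.toIntLinearEquiv (MulEquiv.toAdditive (u5_equiv L)))).symm

/-- The linear map. -/
noncomputable def u5_f (ε : InfinitePlace L → Lˣ) (h : ∀ x, phi ε x ∈ UL L) : (InfinitePlace L → ℤ) →ₗ[ℤ] Additive (UL L) :=
  AddMonoidHom.toIntLinearMap
    { toFun := fun x => Additive.ofMul ⟨phi ε (Multiplicative.ofAdd x), h _⟩
      map_zero' := by
        rw [← ofMul_one]
        congr 1
        exact Subtype.ext (map_one (phi ε))
      map_add' := fun x y => by
        rw [← ofMul_mul]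
        congr 1
        exact Subtype.ext (map_mul (phi ε) (Multiplicative.ofAdd x) (Multiplicative.ofAdd y)) }

theorem u5_f_apply (ε : InfinitePlace L → Lˣ) (h : ∀ x, phi ε x ∈ UL L) (x : InfinitePlace L → ℤ) :
    u5_f ε h x = Additive.ofMul ⟨phi ε (Multiplicative.ofAdd x), h _⟩ := rfl

theorem u5_ker (ε : InfinitePlace L → Lˣ) (h : ∀ x, phi ε x ∈ UL L) (c : Multiplicative (InfinitePlace L → ℤ))
    (hc : (phi ε).ker = Subgroup.zpowers c) : Module.finrank ℤ (LinearMap.ker (u5_f ε h)) ≤ 1 := by
  have h1 : LinearMap.ker (u5_f ε h) ≤ Submodule.span ℤ {Multiplicative.toAdd c} := by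
    intro x hx
    rw [LinearMap.mem_ker, u5_f_apply] at hx
    have h2 : phi ε (Multiplicative.ofAdd x) = 1 := congrArg (fun z : Additive (UL L) => ((Additive.toMul z : UL L) : Lˣ)) hx
    have h3 : Multiplicative.ofAdd x ∈ (phi ε).ker := h2
    rw [hc] at h3
    obtain ⟨k, hk⟩ := Subgroup.mem_zpowers_iff.1 h3
    rw [Submodule.mem_span_singleton]
    exact ⟨k, hk⟩
  have h2 : Submodule.span ℤ {Multiplicative.toAdd c} ≤ LinearMap.ker (u5_f ε h) := by
    rw [Submodule.span_singleton_le_iff_mem, LinearMap.mem_ker, u5_f_apply]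
    have h3 : c ∈ (phi ε).ker := by
      rw [hc]
      exact Subgroup.mem_zpowers c
    rw [← ofMul_one]
    congr 1
    exact Subtype.ext h3
  rw [le_antisymm h1 h2]
  refine (finrank_span_le_card (R := ℤ) {Multiplicative.toAdd c}).trans ?_
  rw [Set.toFinset_singleton, Finset.card_singleton]

/-- PROOF. The rank of `W → ℤ` is `card W`, the kernel has rank `1` (`phi_ker`, U4; only `phi_ker_ne` and the sign property, U3, are used if more convenient: here
`h2` is among the hypotheses), so the range has rank `card W - 1 = Units.rank L =` the rank of the units (`NumberField.Units.finrank_eq`), and a subgroup of the same finite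
rank of a finitely generated commutative group has finite index (the quotient has rank `0`, so it is torsion and finitely generated: finite).
Mathlib: `LinearMap.finrank_range_add_finrank_ker`, `Submodule.finrank_quotient_add_finrank`, `Module.finrank_eq_zero_iff_isTorsion`, `CommGroup.finite_of_fg_torsion`
or G1 with a common exponent. -/
theorem phi_range (ε : InfinitePlace L → Lˣ) (h1 : ∀ w, ε w ∈ UL L) (h2 : ∀ (σ : L ≃ₐ[K] L) w, sU σ (ε w) = ε (σ • w))
    (h3 : ∀ w w' : InfinitePlace L, w' ≠ w → w' (ε w : L) < 1) :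
    (phi ε).range ≤ UL L ∧ (phi ε).range.relIndex (UL L) ≠ 0 := by
  have hmem : ∀ x, phi ε x ∈ UL L := fun x => by
    rw [phi_apply]
    exact Subgroup.prod_mem _ fun w _ => Subgroup.zpow_mem _ (h1 w) _
  refine ⟨?_, ?_⟩
  · rintro _ ⟨x, rfl⟩
    exact hmem x
  obtain ⟨c, hc, -, -⟩ := phi_ker (K := K) ε h1 h2 h3
  have hk := u5_ker ε hmem c hc
  have : Group.FG (UL L) := (Group.fg_iff_subgroup_fg _).2 (UL_fg L)
  have hfin : Module.Finite ℤ (Additive (UL L)) := by
    exact Module.Finite.equiv (AddEquiv.toIntLinearEquiv (MulEquiv.toAdditive (u5_equiv L)))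
  have e1 := Submodule.finrank_quotient_add_finrank (LinearMap.ker (u5_f ε hmem))
  rw [(u5_f ε hmem).quotKerEquivRange.finrank_eq, Module.finrank_fintype_fun_eq_card] at e1
  have e2 := Submodule.finrank_quotient_add_finrank (LinearMap.range (u5_f ε hmem))
  rw [u5_finrank, NumberField.Units.rank] at e2
  have e3 : 0 < Fintype.card (InfinitePlace L) := Fintype.card_pos
  have e4 : Module.finrank ℤ (Additive (UL L) ⧸ LinearMap.range (u5_f ε hmem)) = 0 := by omega
  rw [Module.finrank_eq_zero_iff_isTorsion] at e4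
  have htor : IsMulTorsion (UL L ⧸ (phi ε).range.subgroupOf (UL L)) := by
    intro g
    obtain ⟨u, rfl⟩ := QuotientGroup.mk_surjective g
    obtain ⟨a, ha⟩ := @e4 (Submodule.Quotient.mk (Additive.ofMul u))
    have ha0 : (a : ℤ) ≠ 0 := nonZeroDivisors.ne_zero a.2
    have h4 : (Submodule.Quotient.mk ((a : ℤ) • Additive.ofMul u) :
        Additive (UL L) ⧸ LinearMap.range (u5_f ε hmem)) = 0 := ha
    rw [Submodule.Quotient.mk_eq_zero] at h4
    obtain ⟨x, hx⟩ := h4
    rw [u5_f_apply] at hx
    have h5 : phi ε (Multiplicative.ofAdd x) = (u : Lˣ) ^ (a : ℤ) :=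
      congrArg (fun z : Additive (UL L) => ((Additive.toMul z : UL L) : Lˣ)) hx
    refine (isOfFinOrder_iff_zpow_eq_one (G := UL L ⧸ (phi ε).range.subgroupOf (UL L))).2 ⟨(a : ℤ), ha0, ?_⟩
    have h6 : ((u ^ (a : ℤ) : UL L) : UL L ⧸ (phi ε).range.subgroupOf (UL L)) = 1 := by
      rw [QuotientGroup.eq_one_iff, Subgroup.mem_subgroupOf]
      exact ⟨_, h5⟩
    exact h6
  have : Finite (UL L ⧸ (phi ε).range.subgroupOf (UL L)) := CommGroup.finite_of_fg_isMulTorsion _ htor
  exact Subgroup.index_ne_zero_of_finite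

end Pool.Agent.H69H
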