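import Pool.Agent.Lib.H69H.Defs
import Pool.Agent.Lib.H69H.G1
import Pool.Agent.Lib.H69H.T1
import Pool.Agent.Lib.H69H.U5
import Pool.Agent.Lib.H69H.D5
import Pool.Agent.Lib.H69H.D1
import Pool.Agent.Lib.CFT.B04

set_option autoImplicit false
set_option linter.unusedSectionVars false

namespace Pool.Agent.H69H

open NumberField IsDedekindDomain CFT

variable {K : Type} [Field K] [NumberField K] {L : Type} [Field L] [NumberField L] [Algebra K L]

theorem e1_mem_UL (x : Lˣ) : x ∈ UL L ↔ ∀ w : Pr L, od w (x : L) = 0 := by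
  unfold UL
  rw [MonoidHom.mem_ker, dvU_apply]
  constructor
  · intro h w
    have h1 : dv (x : L) = 0 := h
    rw [← dv_apply, h1]
    rfl
  · intro h
    have h1 : dv (x : L) = 0 := by
      ext w
      exact h w
    rw [h1]
    rfl

theorem e1_od_pow (w : Pr L) (x : Lˣ) (m : ℕ) : od w ((x ^ m : Lˣ) : L) = m * od w (x : L) := by
  induction m with
  | zero => rw [pow_zero, Units.val_one, od_one]; simp
  | succ m ih =>
    rw [pow_succ, Units.val_mul, od_mul w (x ^ m).ne_zero x.ne_zero, ih]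
    push_cast
    ring

theorem e1_princ (L : Type) [Field L] [NumberField L] : ∃ h : ℕ, h ≠ 0 ∧ ∀ w : Pr L, ∃ y : Lˣ, dv (y : L) = Finsupp.single w (h : ℤ) := by
  classical
  have : Finite (ClassGroup (𝓞 L)) := inferInstance
  refine ⟨Nat.card (ClassGroup (𝓞 L)), Nat.card_pos.ne', fun w => ?_⟩
  set h := Nat.card (ClassGroup (𝓞 L)) with hh
  let I : nonZeroDivisors (Ideal (𝓞 L)) := ⟨w.asIdeal, mem_nonZeroDivisors_of_ne_zero w.ne_bot⟩
  have h1 : ClassGroup.mk0 (I ^ h) = 1 := by
    rw [map_pow, hh]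
    exact pow_card_eq_one'
  have h2 : ((I ^ h : nonZeroDivisors (Ideal (𝓞 L))) : Ideal (𝓞 L)).IsPrincipal := ClassGroup.mk0_eq_one_iff (I ^ h).2 |>.1 h1
  obtain ⟨a, ha⟩ := h2
  have h3 : ((I ^ h : nonZeroDivisors (Ideal (𝓞 L))) : Ideal (𝓞 L)) = w.asIdeal ^ h := by
    rw [SubmonoidClass.coe_pow]
  rw [h3] at ha
  have ha0 : a ≠ 0 := by
    rintro rfl
    have h4 : w.asIdeal ^ h = ⊥ := by
      rw [ha]
      simp
    exact (pow_ne_zero h w.ne_bot) h4
  have ha1 : (algebraMap (𝓞 L) L a) ≠ 0 := by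
    intro h5
    exact ha0 ((FaithfulSMul.algebraMap_injective (𝓞 L) L) (by rw [h5, map_zero]))
  refine ⟨Units.mk0 _ ha1, ?_⟩
  rw [Units.val_mk0]
  refine idl_inj ?_ ?_ ?_
  · intro v
    rw [dv_apply]
    unfold od
    have h6 : v.valuation L (algebraMap (𝓞 L) L a) ≤ 1 := v.valuation_le_one a
    have h7 : v.valuation L (algebraMap (𝓞 L) L a) ≠ 0 := (Valuation.ne_zero_iff _).2 ha1
    have h8 := (WithZero.log_le_log h7 one_ne_zero).2 h6
    rw [WithZero.log_one] at h8
    omega
  · exact b04_single w (by positivity)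
  · rw [b04_idl_single, Int.toNat_natCast, ha]
    exact idl_dv ha0

variable [IsGalois K L] {σ : L ≃ₐ[K] L} (hσ : ∀ x, x ∈ Subgroup.zpowers σ) {S T : Finset (Pr K)} {V : Subgroup Lˣ} {N : ℕ}

/-- PROOF. `relIndex_ne_zero_of_fg` (G1) with `UL_fg` (U5) and `pow_mem_V` (T1). -/
theorem E0_index (hV : IsV σ S V) : (V ⊓ UL L).relIndex (UL L) ≠ 0 := by
  obtain ⟨m, hm, h⟩ := pow_mem_V hV
  refine relIndex_ne_zero_of_fg inf_le_right (UL_fg L) hm fun x hx => ?_
  exact Subgroup.mem_inf.2 ⟨h x fun w _ => (e1_mem_UL x).1 hx w, pow_mem hx m⟩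

/-- PROOF. `MT L T` is finitely generated (`MT_fg`, D5): by the lemma G1 it is enough to find `m ≠ 0` with `x ^ m ∈ (ET V T).map (dvU L)` for all `x ∈ MT L T`. Let `h` be the class number of `L`: for `D ∈ DTL L T` the divisor `h D` is principal, `h • D = dv y`
(the ideal class group is a finite group: Mathlib `ClassGroup`, `NumberField.classNumber`; for a prime ideal `w`, `w^h` is principal, generated by `y ∈ 𝓞 L`, and `dv y = h • single w 1`; it is enough to do it for the generators `single w 1`), `y` is a unit at the primes above `S`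
(`hT.disj`), so `y^m ∈ V` with the `m` of `pow_mem_V` (T1), and `y^m ∈ ET V T`, `dv (y^m) = (h m) D`. -/
theorem ET_index (hV : IsV σ S V) (hT : IsT σ S V N T) : ((ET V T).map (dvU L)).relIndex (MT L T) ≠ 0 := by
  classical
  obtain ⟨m, hm, hmV⟩ := pow_mem_V hV
  obtain ⟨h, hh, hpr⟩ := e1_princ L
  have hle : (ET V T).map (dvU L) ≤ MT L T := by
    rintro _ ⟨x, hx, rfl⟩
    exact (Subgroup.mem_inf.1 hx).2
  have hone : ∀ w : Pr L, below K w ∈ T →
      (Multiplicative.ofAdd (Finsupp.single w (1 : ℤ)) : Multiplicative (Dv L)) ^ (h * m) ∈ (ET V T).map (dvU L) := by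
    intro w hw
    obtain ⟨y, hy⟩ := hpr w
    have hod : ∀ w' : Pr L, w' ≠ w → od w' (y : L) = 0 := by
      intro w' hw'
      rw [← dv_apply, hy, Finsupp.single_apply, if_neg (fun h => hw' h.symm)]
    refine ⟨y ^ m, (mem_ET V T _).2 ⟨hmV y fun w' hw' => hod w' ?_, fun w' hw' => ?_⟩, ?_⟩
    · rintro rfl
      exact hT.disj _ hw hw'
    · rw [e1_od_pow, hod w', mul_zero]
      rintro rfl
      exact hw' hw
    · have h1 : dvU L (y ^ m) = (dvU L y) ^ m := map_pow _ _ _
      rw [h1, dvU_apply, hy, pow_mul]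
      congr 1
      rw [← ofAdd_nsmul]
      congr 1
      rw [Finsupp.smul_single, nsmul_eq_mul, mul_one]
  have hle2 : ∀ (E : Dv L), (∀ w, below K w ∉ T → E w = 0) →
      (Multiplicative.ofAdd E : Multiplicative (Dv L)) ^ (h * m) ∈ (ET V T).map (dvU L) := by
    intro E
    induction E using Finsupp.induction with
    | zero =>
      intro _
      rw [ofAdd_zero, one_pow]
      exact one_mem _
    | single_add w a f hwf ha ih =>
      intro hE
      have hw : below K w ∈ T := by
        by_contra hcon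
        have h1 := hE w hcon
        rw [Finsupp.add_apply, Finsupp.single_eq_same, Finsupp.notMem_support_iff.1 hwf, add_zero] at h1
        exact ha h1
      rw [ofAdd_add, mul_pow]
      refine mul_mem ?_ (ih ?_)
      · have h2 : (Multiplicative.ofAdd (Finsupp.single w a) : Multiplicative (Dv L)) =
            (Multiplicative.ofAdd (Finsupp.single w (1 : ℤ))) ^ a := by
          rw [← ofAdd_zsmul]
          congr 1
          rw [Finsupp.smul_single, smul_eq_mul, mul_one]
        rw [h2, ← zpow_natCast, ← zpow_mul, mul_comm a, zpow_mul, zpow_natCast]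
        exact zpow_mem (hone w hw) a
      · intro w' hw'
        have h1 := hE w' hw'
        rw [Finsupp.add_apply, Finsupp.single_apply, if_neg, zero_add] at h1
        · exact h1
        · rintro rfl
          exact hw' hw
  exact relIndex_ne_zero_of_fg hle (MT_fg T) (mul_ne_zero hh hm) fun x hx => hle2 _ hx

end Pool.Agent.H69H
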