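import Pool.Agent.Lib.H69H.Defs

set_option autoImplicit false
set_option linter.unusedSectionVars false

namespace Pool.Agent.H69H

open NumberField IsDedekindDomain CFT

variable {X : Type*} [CommGroup X]

/-- Transport of `tate` along a homomorphism. PROOF: use `relIndex_eq_map_mul_ker φ` (file A1) for
`B.map g ⊔ A ≤ B ⊓ A.comap f` (this inclusion needs `A ≤ B`, stability of `B` and `f (g x) = 1`; the hypothesis `hp`). The second factor is
`1` (Subgroup.relIndex_eq_one), because `B ⊓ φ.ker ≤ A ⊓ φ.ker`. The first factor: `(B.map g ⊔ A).map φ = (B.map φ).map g' ⊔ A.map φ`,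
and `(B ⊓ A.comap f).map φ = B.map φ ⊓ (A.map φ).comap f'`: if `b ∈ B` and `f' (φ b) = φ a`, `a ∈ A`, then `φ (f b) = φ a`, so `f b / a` is in
`B ⊓ φ.ker ≤ A`, and `f b ∈ A`. -/
theorem tate_map {Y : Type*} [CommGroup Y] (φ : X →* Y) {f g : X →* X} {f' g' : Y →* Y}
    (hf : ∀ x, φ (f x) = f' (φ x)) (hg : ∀ x, φ (g x) = g' (φ x)) (hp : IsPair f g) {A B : Subgroup X} (hAB : A ≤ B)
    (hA : IsStable f g A) (hB : IsStable f g B) (hk : B ⊓ φ.ker ≤ A) :
    tate f g A B = tate f' g' (A.map φ) (B.map φ) := by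
  unfold tate
  have hle : B.map g ⊔ A ≤ B ⊓ A.comap f := by
    refine sup_le (le_inf ?_ ?_) (le_inf hAB fun x hx => hA.left x hx)
    · rintro _ ⟨x, hx, rfl⟩
      exact hB.right x hx
    · rintro _ ⟨x, hx, rfl⟩
      show f (g x) ∈ A
      rw [hp.fg]
      exact A.one_mem
  rw [relIndex_eq_map_mul_ker φ hle]
  have h2 : ((B.map g ⊔ A) ⊓ φ.ker).relIndex (B ⊓ A.comap f ⊓ φ.ker) = 1 := by
    rw [Subgroup.relIndex_eq_one]
    rintro x ⟨⟨h1, _⟩, h3⟩
    exact ⟨Subgroup.mem_sup_right (hk ⟨h1, h3⟩), h3⟩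
  rw [h2, mul_one]
  congr 1
  · rw [Subgroup.map_sup, Subgroup.map_map, Subgroup.map_map]
    congr 2
    ext x
    exact hg x
  · ext y
    constructor
    · rintro ⟨x, ⟨h1, h3⟩, rfl⟩
      refine ⟨⟨x, h1, rfl⟩, ?_⟩
      show f' (φ x) ∈ A.map φ
      rw [← hf]
      exact ⟨f x, h3, rfl⟩
    · rintro ⟨⟨x, h1, rfl⟩, h3⟩
      refine ⟨x, ⟨h1, ?_⟩, rfl⟩
      have h3 : f' (φ x) ∈ A.map φ := h3
      rw [← hf] at h3
      obtain ⟨a, ha, h4⟩ := h3
      have h6 : f x * a⁻¹ ∈ φ.ker := by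
        rw [MonoidHom.mem_ker, map_mul, map_inv, h4, mul_inv_cancel]
      have h5 : f x * a⁻¹ ∈ A := hk ⟨B.mul_mem (hB.left x h1) (B.inv_mem (hAB ha)), h6⟩
      have := A.mul_mem h5 ha
      simpa using this

end Pool.Agent.H69H
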