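import Pool.Agent.Lib.H69H.Defs
import Pool.Agent.Lib.H69H.G3

set_option autoImplicit false
set_option linter.unusedSectionVars false

namespace Pool.Agent.H69H

open NumberField IsDedekindDomain CFT

variable {X : Type*} [CommGroup X]

/-- PROOF. On `B = zpowers c` the map `dif s` is trivial and `nrm n s` is `x ↦ x ^ n`. So `tate (dif s) (nrm n s) ⊥ B` is the index of the group
of n-th powers in `zpowers c`, that is `n` (`zpowers (c ^ n)`; c has infinite order; for example `Subgroup.relIndex` computed through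
`zmultiples`/`Int.index_zmultiples` and the isomorphism `ℤ ≅ zpowers c`, or by an explicit count: the classes of `c ^ i`, `0 ≤ i < n`), and
`tate (nrm n s) (dif s) ⊥ B` is the index of the trivial group in `{x ∈ zpowers c | x ^ n = 1}`, the trivial group: `1`. -/
theorem her_zpowers (s : X →* X) {n : ℕ} (hn0 : n ≠ 0) {c : X} (hc : s c = c) (hinf : ∀ i : ℤ, c ^ i = 1 → i = 0) :
    Her (dif s) (nrm n s) ⊥ (Subgroup.zpowers c) n := by
  have hfix : ∀ x ∈ Subgroup.zpowers c, s x = x := by
    rintro _ ⟨i, rfl⟩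
    show s (c ^ i) = c ^ i
    rw [map_zpow, hc]
  have e1 : Subgroup.zpowers c ⊓ (⊥ : Subgroup X).comap (dif s) = Subgroup.zpowers c := by
    refine inf_eq_left.2 fun x hx => ?_
    rw [Subgroup.mem_comap, Subgroup.mem_bot, dif_apply, hfix x hx, div_self']
  have hφ : Function.Injective (zpowersHom X c) := by
    rw [injective_iff_map_eq_one]
    intro i hi
    rw [zpowersHom_apply] at hi
    exact hinf _ hi
  have e2 : (Subgroup.zpowers c).map (nrm n s) ⊔ ⊥ =
      ((AddSubgroup.zmultiples (n : ℤ)).toSubgroup).map (zpowersHom X c) := by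
    rw [sup_bot_eq]
    ext x
    constructor
    · rintro ⟨y, hy, rfl⟩
      obtain ⟨i, rfl⟩ := hy
      refine ⟨Multiplicative.ofAdd (i * n), ⟨i, by simp [mul_comm]⟩, ?_⟩
      rw [zpowersHom_apply, toAdd_ofAdd, nrm_of_fixed s n (hfix _ ⟨i, rfl⟩)]
      show c ^ (i * (n : ℤ)) = (c ^ i) ^ n
      rw [zpow_mul, zpow_natCast]
    · rintro ⟨y, ⟨i, hi⟩, rfl⟩
      refine ⟨c ^ i, ⟨i, rfl⟩, ?_⟩
      have hi : i * (n : ℤ) = Multiplicative.toAdd y := by simpa using hi
      rw [zpowersHom_apply, ← hi, nrm_of_fixed s n (hfix _ ⟨i, rfl⟩), zpow_mul, zpow_natCast]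
  have e3 : Subgroup.zpowers c = (⊤ : Subgroup (Multiplicative ℤ)).map (zpowersHom X c) := by
    ext x
    constructor
    · rintro ⟨i, rfl⟩
      exact ⟨Multiplicative.ofAdd i, trivial, rfl⟩
    · rintro ⟨y, _, rfl⟩
      exact ⟨Multiplicative.toAdd y, rfl⟩
  have t1 : tate (dif s) (nrm n s) ⊥ (Subgroup.zpowers c) = n := by
    unfold tate
    rw [e1, e2, e3, Subgroup.relIndex_map_map_of_injective _ _ hφ, Subgroup.relIndex_top_right, AddSubgroup.index_toSubgroup,
      Int.index_zmultiples, Int.natAbs_natCast]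
  have t2 : tate (nrm n s) (dif s) ⊥ (Subgroup.zpowers c) = 1 := by
    unfold tate
    rw [Subgroup.relIndex_eq_one]
    rintro x ⟨hx, h2⟩
    have h2 : nrm n s x = 1 := h2
    rw [nrm_of_fixed s n (hfix x hx)] at h2
    obtain ⟨i, rfl⟩ := hx
    have h3 : c ^ (i * (n : ℤ)) = 1 := by
      rw [zpow_mul, zpow_natCast]
      exact h2
    have h4 := hinf _ h3
    have h5 : i = 0 := by
      rcases mul_eq_zero.1 h4 with h | h
      · exact h
      · exact absurd (by exact_mod_cast h) hn0
    subst h5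
    show c ^ (0 : ℤ) ∈ _
    rw [zpow_zero]
    exact Subgroup.one_mem _
  refine ⟨by rw [t1]; exact hn0, by rw [t2]; exact one_ne_zero, by rw [t1, t2]; simp⟩

end Pool.Agent.H69H
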