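import Pool.Agent.Lib.H69H.Defs
import Pool.Agent.Lib.H69H.G4

set_option autoImplicit false
set_option linter.unusedSectionVars false

namespace Pool.Agent.H69H

open NumberField IsDedekindDomain CFT

theorem g6_bound {X Y : Type*} [CommGroup X] [CommGroup Y] [Finite Y] (p : X →* Y) {P Q : Subgroup X} (h : Q ⊓ p.ker ≤ P) :
    P.relIndex Q ≤ Nat.card Y := by
  have h1 : (Q ⊓ p.ker).relIndex Q = Nat.card (Q.map p) := by
    rw [Subgroup.inf_relIndex_left, Subgroup.relIndex_ker]
  have h2 : (Q ⊓ p.ker).relIndex Q ≠ 0 := by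
    rw [h1]
    exact Nat.card_pos.ne'
  refine (Subgroup.relIndex_le_of_le_left h h2).trans ?_
  rw [h1]
  exact Nat.card_le_card_of_injective _ Subtype.val_injective

/-- `W` is a finite set with a permutation `s`, `s^n = 1`, whose orbits are the fibres of `q`; for `w, w'` in the same fibre the number of `i < n`
with `s^i w = w'` is `2` if `q w ∈ R` and `1` otherwise. CLAIM: the Herbrand quotient of the group `W → ℤ` exists and is at most `2 ^ R.card`.
PROOF. Existence: `exists_her` (A1) and `tate_fg` (G4) (`⊤` is finitely generated; `sW s` iterated `n` times is the identity). The quotient is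
`tate (dif) (nrm) / tate (nrm) (dif)`, the second is at least `1`, so it is at most `H := tate (dif (sW s)) (nrm n (sW s)) ⊥ ⊤`, which is
`(range nrm).relIndex (ker dif)`. BOUND of `H`: choose `c v ∈ W` with `q (c v) = v` (`hq`). The homomorphism `p : ker dif → (R → ZMod 2)`,
`x ↦ (x (c v) mod 2)`. Its kernel is contained in the range of `nrm`: `x ∈ ker dif` is constant on the fibres of `q` (`hc` gives transitivity: the number is
not `0`); let `y w = x w` if `w = c (q w)` and `q w ∉ R`, `y w = x w / 2` if `w = c (q w)` and `q w ∈ R`, and `0` otherwise. Then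
`(nrm y) w' = ∑_{i<n} y (s^{-i} w') = ∑_w y w * #{i < n | s^i w = w'} = y (c (q w')) * (2 or 1) = x w'`. So the index is at most the number
`2 ^ R.card` of elements of `R → ZMod 2` (for example `Subgroup.index_ker`, `Subgroup.relIndex_le_of_le_left`, `Nat.card_le_card_of_injective`). -/
theorem tate_perm {W V : Type*} [Fintype W] [DecidableEq W] [DecidableEq V] (q : W → V) (hq : Function.Surjective q)
    (s : W ≃ W) {n : ℕ} (hn0 : n ≠ 0) (hn : ∀ w, s^[n] w = w) (R : Finset V) (hs : ∀ w, q (s w) = q w)
    (hc : ∀ w w', q w = q w' → ((Finset.range n).filter fun i => s^[i] w = w').card = if q w ∈ R then 2 else 1) :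
    ∃ t : ℚ, Her (dif (sW s)) (nrm n (sW s)) ⊥ ⊤ t ∧ t ≤ 2 ^ R.card := by
  have hit : ∀ (i : ℕ) (x : Multiplicative (W → ℤ)) (w : W),
      Multiplicative.toAdd ((sW s)^[i] x) w = Multiplicative.toAdd x (s.symm^[i] w) := by
    intro i
    induction i with
    | zero => intro x w; rfl
    | succ i ih =>
      intro x w
      rw [Function.iterate_succ_apply', sW_apply, ih, Function.iterate_succ_apply]
  have hss : ∀ (i : ℕ) (w w' : W), s.symm^[i] w' = w ↔ s^[i] w = w' := by
    intro i w w'
    have h1 : Function.LeftInverse s.symm^[i] s^[i] := Function.LeftInverse.iterate s.symm_apply_apply i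
    have h2 : Function.LeftInverse s^[i] s.symm^[i] := Function.LeftInverse.iterate s.apply_symm_apply i
    constructor
    · rintro rfl
      exact h2 w'
    · rintro rfl
      exact h1 w
  have hnn : ∀ x : Multiplicative (W → ℤ), (sW s)^[n] x = x := by
    intro x
    apply Multiplicative.toAdd.injective
    funext w
    rw [hit, (hss n w w).2 (hn w)]
  haveI : AddGroup.FG (W → ℤ) := Module.Finite.iff_addGroup_fg.1 inferInstance
  have hfg : (⊤ : Subgroup (Multiplicative (W → ℤ))).FG := Group.fg_def.1 (AddGroup.fg_iff_mul_fg.1 inferInstance)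
  obtain ⟨t1, t2⟩ := tate_fg (sW s) hn0 hnn (A := ⊥) (B := ⊤) (fun x hx => by
    rw [Subgroup.mem_bot] at hx ⊢
    rw [hx, map_one]) (fun _ _ => trivial) bot_le hfg
  obtain ⟨t, ht⟩ := exists_her t1 t2
  refine ⟨t, ht, ?_⟩
  have hb : tate (dif (sW s)) (nrm n (sW s)) ⊥ ⊤ ≤ 2 ^ R.card := by
    unfold tate
    obtain ⟨c, hcq⟩ := hq.hasRightInverse
    let p : Multiplicative (W → ℤ) →* Multiplicative (R → ZMod 2) := AddMonoidHom.toMultiplicative
      { toFun := fun x v => ((x (c v) : ℤ) : ZMod 2)
        map_zero' := by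
          funext v
          simp
        map_add' := fun x y => by
          funext v
          simp }
    have hcard : Nat.card (Multiplicative (R → ZMod 2)) = 2 ^ R.card := by
      rw [show Nat.card (Multiplicative (R → ZMod 2)) = Nat.card (R → ZMod 2) from rfl, Nat.card_pi]
      simp
    refine (g6_bound p ?_).trans_eq hcard
    rintro x ⟨⟨_, h1⟩, h2⟩
    have h1 : dif (sW s) x = 1 := h1
    have h2 : p x = 1 := h2
    rw [dif_apply, div_eq_one] at h1
    have h3 : ∀ w, Multiplicative.toAdd x (s w) = Multiplicative.toAdd x w := by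
      intro w
      have h4 := sW_apply s x (s w)
      rw [h1, s.symm_apply_apply] at h4
      exact h4
    have h4 : ∀ (i : ℕ) (w : W), Multiplicative.toAdd x (s^[i] w) = Multiplicative.toAdd x w := by
      intro i
      induction i with
      | zero => intro w; rfl
      | succ i ih =>
        intro w
        rw [Function.iterate_succ_apply', h3, ih]
    have h5 : ∀ w w', q w = q w' → Multiplicative.toAdd x w = Multiplicative.toAdd x w' := by
      intro w w' hw
      have h6 := hc w w' hw
      have h7 : ((Finset.range n).filter fun i => s^[i] w = w').Nonempty := by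
        rw [← Finset.card_pos, h6]
        split_ifs <;> norm_num
      obtain ⟨i, hi⟩ := h7
      rw [← (Finset.mem_filter.1 hi).2, h4]
    have h6 : ∀ v ∈ R, ∃ k : ℤ, Multiplicative.toAdd x (c v) = 2 * k := by
      intro v hv
      have h7 : ((Multiplicative.toAdd x (c v) : ℤ) : ZMod 2) = 0 := congrFun (congrArg Multiplicative.toAdd h2) ⟨v, hv⟩
      rw [ZMod.intCast_zmod_eq_zero_iff_dvd] at h7
      exact h7
    have hqs : ∀ (i : ℕ) (w : W), q (s^[i] w) = q w := by
      intro i
      induction i with
      | zero => intro w; rfl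
      | succ i ih =>
        intro w
        rw [Function.iterate_succ_apply', hs, ih]
    refine Subgroup.mem_sup_left ⟨Multiplicative.ofAdd fun w => if w = c (q w) then
      (if q w ∈ R then Multiplicative.toAdd x w / 2 else Multiplicative.toAdd x w) else 0, trivial, ?_⟩
    apply Multiplicative.toAdd.injective
    funext w'
    rw [nrm_apply, toAdd_prod, Finset.sum_apply]
    have h8 : ∀ i ∈ Finset.range n, Multiplicative.toAdd ((sW s)^[i] (Multiplicative.ofAdd fun w => if w = c (q w) then
      (if q w ∈ R then Multiplicative.toAdd x w / 2 else Multiplicative.toAdd x w) else 0)) w' =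
        if s^[i] (c (q w')) = w' then (if q w' ∈ R then Multiplicative.toAdd x w' / 2 else Multiplicative.toAdd x w') else 0 := by
      intro i _
      rw [hit, toAdd_ofAdd]
      have h9 : q (s.symm^[i] w') = q w' := by
        have h10 := hqs i (s.symm^[i] w')
        rw [(hss i (s.symm^[i] w') w').1 rfl] at h10
        exact h10.symm
      show (if s.symm^[i] w' = c (q (s.symm^[i] w')) then
        (if q (s.symm^[i] w') ∈ R then Multiplicative.toAdd x (s.symm^[i] w') / 2 else Multiplicative.toAdd x (s.symm^[i] w')) else 0) = _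
      rw [h9, h5 _ _ h9]
      simp only [hss]
    rw [Finset.sum_congr rfl h8, ← Finset.sum_filter, Finset.sum_const, hc _ _ (hcq (q w')), hcq (q w')]
    split_ifs with h9
    · obtain ⟨k, hk⟩ := h6 _ h9
      rw [h5 _ _ (hcq (q w'))] at hk
      rw [hk]
      simp
    · simp
  have h1 : (1 : ℚ) ≤ tate (nrm n (sW s)) (dif (sW s)) ⊥ ⊤ := by
    exact_mod_cast Nat.one_le_iff_ne_zero.2 t2
  have h2 : (tate (dif (sW s)) (nrm n (sW s)) ⊥ ⊤ : ℚ) ≤ 2 ^ R.card := by exact_mod_cast hb
  have h3 := ht.eq
  have h4 := ht.pos
  nlinarith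

end Pool.Agent.H69H
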