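import Pool.Agent.Lib.H69H.Defs

set_option autoImplicit false
set_option linter.unusedSectionVars false

namespace Pool.Agent.H69H

open NumberField IsDedekindDomain CFT

theorem u1_mem {L : Type} [Field L] [NumberField L] {x : Lˣ} (h1 : IsIntegral ℤ (x : L)) (h2 : IsIntegral ℤ ((x⁻¹ : Lˣ) : L)) :
    x ∈ UL L := by
  have h3 : ∀ v : Pr L, od v (x : L) = 0 := by
    intro v
    have a1 : v.valuation L (x : L) ≤ 1 := v.valuation_le_one (⟨(x : L), h1⟩ : 𝓞 L)
    have a2 : v.valuation L ((x⁻¹ : Lˣ) : L) ≤ 1 := v.valuation_le_one (⟨((x⁻¹ : Lˣ) : L), h2⟩ : 𝓞 L)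
    have a3 : v.valuation L (x : L) * v.valuation L ((x⁻¹ : Lˣ) : L) = 1 := by
      rw [← map_mul, Units.mul_inv, map_one]
    have a4 : v.valuation L (x : L) = 1 := by
      refine le_antisymm a1 ?_
      rw [← a3]
      exact mul_le_of_le_one_right' a2
    unfold od
    rw [a4, WithZero.log_one, neg_zero]
  show dvU L x = 1
  rw [dvU_apply]
  have h4 : dv (x : L) = 0 := by
    ext v
    exact h3 v
  rw [h4, ofAdd_zero]

/-- PROOF. Choose a representative `o w` of each orbit of the Galois group on the infinite places (`Quotient.out` for `MulAction.orbitRel`) and a unit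
`u w0` of the ring of integers with `w' u < 1` for all `w' ≠ w0` (Mathlib `NumberField.Units.dirichletUnitTheorem.exists_unit`: `log (w' u) < 0`). Let
`ε w = ∏_{g : g • o w = w} g (u (o w))` (finite product over the filtered Finset of `L ≃ₐ[K] L`). It is a unit of the ring of integers
(`UL L = (dvU L).ker`: all `od` are `0`; a unit of `𝓞 L` has valuation one at all primes). EQUIVARIANCE: `σ (ε w) = ∏_{g : g • o w = w} (σ g) (u (o w)) = ε (σ • w)`,
as `o (σ • w) = o w` (bijection `g ↦ σ * g`). For `w' ≠ w`: `w' (g u) = (g⁻¹ • w') u < 1`, because `g⁻¹ • w' = o w` would give `w' = g • o w = w`; the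
product is not empty (`w` is in the orbit of `o w`), so `w' (ε w) < 1`. -/
theorem exists_eps (K L : Type) [Field K] [NumberField K] [Field L] [NumberField L] [Algebra K L] [IsGalois K L] :
    ∃ ε : InfinitePlace L → Lˣ, (∀ w, ε w ∈ UL L) ∧ (∀ (σ : L ≃ₐ[K] L) w, sU σ (ε w) = ε (σ • w)) ∧
      ∀ w w' : InfinitePlace L, w' ≠ w → w' (ε w : L) < 1 := by
  classical
  choose u hu using fun w : InfinitePlace L => NumberField.Units.dirichletUnitTheorem.exists_unit L w
  let r := MulAction.orbitRel (L ≃ₐ[K] L) (InfinitePlace L)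
  let o : InfinitePlace L → InfinitePlace L := fun w => (Quotient.mk r w).out
  have ho : ∀ (σ : L ≃ₐ[K] L) (w : InfinitePlace L), o (σ • w) = o w := by
    intro σ w
    have : (Quotient.mk r (σ • w)) = Quotient.mk r w := Quotient.sound ⟨σ, rfl⟩
    show (Quotient.mk r (σ • w)).out = (Quotient.mk r w).out
    rw [this]
  have hw : ∀ w : InfinitePlace L, ∃ g : L ≃ₐ[K] L, g • o w = w := by
    intro w
    have h1 : r w (o w) := Quotient.exact (Quotient.out_eq (Quotient.mk r w)).symm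
    obtain ⟨g, hg⟩ := h1
    exact ⟨g, hg⟩
  let U : InfinitePlace L → Lˣ := fun w => Units.map (algebraMap (𝓞 L) L : 𝓞 L →* L) (u w)
  have hU1 : ∀ w, IsIntegral ℤ ((U w : Lˣ) : L) := fun w => (u w : 𝓞 L).isIntegral_coe
  have hU2 : ∀ w, IsIntegral ℤ (((U w)⁻¹ : Lˣ) : L) := fun w => by
    have : ((U w)⁻¹ : Lˣ) = Units.map (algebraMap (𝓞 L) L : 𝓞 L →* L) (u w)⁻¹ := by
      rw [map_inv]
    rw [this]
    exact ((u w)⁻¹ : (𝓞 L)ˣ).1.isIntegral_coe
  let F : InfinitePlace L → Finset (L ≃ₐ[K] L) := fun w => Finset.univ.filter fun g => g • o w = w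
  let ε : InfinitePlace L → Lˣ := fun w => ∏ g ∈ F w, sU g (U (o w))
  refine ⟨ε, ?_, ?_, ?_⟩
  · intro w
    refine Subgroup.prod_mem _ fun g _ => u1_mem ?_ ?_
    · rw [sU_coe]
      exact (hU1 _).map ((g : L →+* L).toIntAlgHom)
    · rw [← map_inv, sU_coe]
      exact (hU2 _).map ((g : L →+* L).toIntAlgHom)
  · intro σ w
    show sU σ (∏ g ∈ F w, sU g (U (o w))) = ∏ g ∈ F (σ • w), sU g (U (o (σ • w)))
    rw [map_prod, ho]
    refine Finset.prod_nbij' (fun g => σ * g) (fun g => σ⁻¹ * g) ?_ ?_ ?_ ?_ ?_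
    · intro g hg
      rw [Finset.mem_filter] at hg ⊢
      refine ⟨Finset.mem_univ _, ?_⟩
      rw [ho, mul_smul, hg.2]
    · intro g hg
      rw [Finset.mem_filter] at hg ⊢
      refine ⟨Finset.mem_univ _, ?_⟩
      rw [ho] at hg
      rw [mul_smul, hg.2, inv_smul_smul]
    · intro g _
      exact inv_mul_cancel_left σ g
    · intro g _
      exact mul_inv_cancel_left σ g
    · intro g _
      ext
      rfl
  · intro w w' hne
    obtain ⟨g0, hg0⟩ := hw w
    have hlt : ∀ g ∈ F w, w' ((sU g (U (o w)) : Lˣ) : L) < 1 := by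
      intro g hg
      have hg' : g • o w = w := (Finset.mem_filter.1 hg).2
      have h1 : g⁻¹ • w' ≠ o w := by
        intro h2
        apply hne
        rw [← hg', ← h2, smul_inv_smul]
      have h3 := hu (o w) (g⁻¹ • w') h1
      have h4 : (g⁻¹ • w') ((U (o w) : Lˣ) : L) = w' ((sU g (U (o w)) : Lˣ) : L) := by
        rw [InfinitePlace.smul_apply]
        rfl
      have h5 : 0 < (g⁻¹ • w') ((U (o w) : Lˣ) : L) := InfinitePlace.pos_iff.2 (U (o w)).ne_zero
      rw [← h4]
      exact (Real.log_neg_iff h5).1 h3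
    have h0 : ∀ g : L ≃ₐ[K] L, 0 ≤ w' ((sU g (U (o w)) : Lˣ) : L) := fun g => apply_nonneg _ _
    have hmem : g0 ∈ F w := Finset.mem_filter.2 ⟨Finset.mem_univ _, hg0⟩
    have e : w' ((ε w : Lˣ) : L) = ∏ g ∈ F w, w' ((sU g (U (o w)) : Lˣ) : L) := by
      show w' ((∏ g ∈ F w, sU g (U (o w)) : Lˣ) : L) = _
      rw [Units.coe_prod, map_prod]
    rw [e, ← Finset.mul_prod_erase _ _ hmem]
    have h6 : ∏ g ∈ (F w).erase g0, w' ((sU g (U (o w)) : Lˣ) : L) ≤ 1 :=
      Finset.prod_le_one (fun g _ => h0 g) fun g hg => (hlt g (Finset.mem_of_mem_erase hg)).le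
    calc _ ≤ w' ((sU g0 (U (o w)) : Lˣ) : L) * 1 := mul_le_mul_of_nonneg_left h6 (h0 g0)
      _ < 1 := by rw [mul_one]; exact hlt g0 hmem

end Pool.Agent.H69H
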