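import Pool.Agent.Lib.H69H.Defs

set_option autoImplicit false
set_option linter.unusedSectionVars false

namespace Pool.Agent.H69H

open NumberField IsDedekindDomain CFT

variable {K : Type} [Field K] [NumberField K] {L : Type} [Field L] [NumberField L] [Algebra K L]

/-- PROOF. `i ↦ σ^i` is a bijection from `range n`, `n = finrank K L = card G`, to `G = Gal(L/K)` (σ is a generator: `hσ`; `orderOf σ = Nat.card G`), and
`(fun w => σ • w)^[i] w = σ^i • w`, so the number is `#{g ∈ G | g • w = w'}`, which is the order of the stabilizer of `w` (`w'` is in the orbit of `w`: Mathlib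
`InfinitePlace.exists_smul_eq_of_comap_eq` or `mem_orbit_iff`; the set is a coset). The order of the stabilizer is `2` if `w` is ramified and `1` otherwise (Mathlib `InfinitePlace.card_stabilizer`,
`InfinitePlace.isUnramifiedIn_comap`). -/
theorem infPlace_count [IsGalois K L] (σ : L ≃ₐ[K] L) (hσ : ∀ x, x ∈ Subgroup.zpowers σ) (w w' : InfinitePlace L)
    (h : w.comap (algebraMap K L) = w'.comap (algebraMap K L)) [DecidableEq (InfinitePlace L)] [DecidableEq (InfinitePlace K)] :
    ((Finset.range (Module.finrank K L)).filter fun i => (fun w => σ • w)^[i] w = w').card =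
      if w.comap (algebraMap K L) ∈ RamInf K L then 2 else 1 := by
  classical
  obtain ⟨g₀, hg₀⟩ := InfinitePlace.exists_smul_eq_of_comap_eq h
  have hn : orderOf σ = Module.finrank K L := by
    rw [orderOf_eq_card_of_forall_mem_zpowers hσ, IsGalois.card_aut_eq_finrank]
  have hit : ∀ i : ℕ, (fun w => σ • w)^[i] w = σ ^ i • w := by
    intro i
    induction i with
    | zero => rw [Function.iterate_zero, id_eq, pow_zero, one_smul]
    | succ i ih => rw [Function.iterate_succ_apply', ih, pow_succ', mul_smul]
  have h1 : ((Finset.range (Module.finrank K L)).filter fun i => (fun w => σ • w)^[i] w = w').card =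
      (Finset.univ.filter fun g : L ≃ₐ[K] L => g • w = w).card := by
    refine Finset.card_bij (fun i _ => g₀⁻¹ * σ ^ i) ?_ ?_ ?_
    · intro i hi
      have h2 := (Finset.mem_filter.1 hi).2
      rw [hit] at h2
      refine Finset.mem_filter.2 ⟨Finset.mem_univ _, ?_⟩
      rw [mul_smul, h2, ← hg₀, inv_smul_smul]
    · intro i hi j hj hij
      have h2 : σ ^ i = σ ^ j := mul_left_cancel hij
      have hi' := Finset.mem_range.1 (Finset.mem_filter.1 hi).1
      have hj' := Finset.mem_range.1 (Finset.mem_filter.1 hj).1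
      rw [← hn] at hi' hj'
      exact pow_injOn_Iio_orderOf hi' hj' h2
    · intro g hg
      have h2 := (Finset.mem_filter.1 hg).2
      have h3 : g₀ * g ∈ Subgroup.zpowers σ := hσ _
      rw [(isOfFinOrder_of_finite σ).mem_zpowers_iff_mem_range_orderOf] at h3
      obtain ⟨i, hi, h4⟩ := Finset.mem_image.1 h3
      have h4' : σ ^ i = g₀ * g := h4
      refine ⟨i, Finset.mem_filter.2 ⟨?_, ?_⟩, ?_⟩
      · rw [← hn]
        exact hi
      · rw [hit, h4', mul_smul, h2, hg₀]
      · rw [h4', inv_mul_cancel_left]
  have h5 : (Finset.univ.filter fun g : L ≃ₐ[K] L => g • w = w).card = Nat.card (MulAction.stabilizer (L ≃ₐ[K] L) w) := by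
    rw [Nat.card_eq_fintype_card, Fintype.card_subtype]
    rfl
  rw [h1, h5]
  unfold RamInf
  have h6 : w.comap (algebraMap K L) ∈ Finset.univ.filter (fun v : InfinitePlace K => ¬ v.IsUnramifiedIn L) ↔
      ¬ InfinitePlace.IsUnramified K w := by
    rw [Finset.mem_filter, InfinitePlace.isUnramifiedIn_comap]
    exact ⟨fun h => h.2, fun h => ⟨Finset.mem_univ _, h⟩⟩
  by_cases h7 : InfinitePlace.IsUnramified K w
  · rw [if_neg (fun h8 => h6.1 h8 h7)]
    exact InfinitePlace.isUnramified_iff_card_stabilizer_eq_one.1 h7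
  · rw [if_pos (h6.2 h7)]
    exact InfinitePlace.not_isUnramified_iff_card_stabilizer_eq_two.1 h7

end Pool.Agent.H69H
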