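import Pool.Agent.Lib.H69H.Defs
import Pool.Agent.Lib.H69H.G2
import Pool.Agent.Lib.H69H.G5
import Pool.Agent.Lib.H69H.G6
import Pool.Agent.Lib.H69H.U1
import Pool.Agent.Lib.H69H.U4
import Pool.Agent.Lib.H69H.U5
import Pool.Agent.Lib.H69H.U6
import Pool.Agent.Lib.H69H.C1

set_option autoImplicit false
set_option linter.unusedSectionVars false

namespace Pool.Agent.H69H

open NumberField IsDedekindDomain CFT

variable {K : Type} [Field K] [NumberField K] {L : Type} [Field L] [NumberField L] [Algebra K L]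

theorem u7_dif {X Y : Type*} [CommGroup X] [CommGroup Y] (φ : X →* Y) {s : X →* X} {s' : Y →* Y}
    (h : ∀ x, φ (s x) = s' (φ x)) (x : X) : φ (dif s x) = dif s' (φ x) := by
  rw [dif_apply, dif_apply, map_div, h]

theorem u7_iter {X Y : Type*} [CommGroup X] [CommGroup Y] (φ : X →* Y) {s : X →* X} {s' : Y →* Y}
    (h : ∀ x, φ (s x) = s' (φ x)) (i : ℕ) (x : X) : φ (s^[i] x) = s'^[i] (φ x) := by
  induction i with
  | zero => rfl
  | succ i ih => rw [Function.iterate_succ_apply', Function.iterate_succ_apply', h, ih]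

theorem u7_nrm {X Y : Type*} [CommGroup X] [CommGroup Y] (φ : X →* Y) {s : X →* X} {s' : Y →* Y}
    (h : ∀ x, φ (s x) = s' (φ x)) (n : ℕ) (x : X) : φ (nrm n s x) = nrm n s' (φ x) := by
  rw [nrm_apply, nrm_apply, map_prod]
  exact Finset.prod_congr rfl fun i _ => u7_iter φ h i x

theorem u7_smul_iter (σ : L ≃ₐ[K] L) (i : ℕ) (w : InfinitePlace L) : (fun w => σ • w)^[i] w = σ ^ i • w := by
  induction i with
  | zero => simp
  | succ i ih => rw [Function.iterate_succ_apply', ih, pow_succ', mul_smul]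

theorem u7_sW_iter {W : Type*} (p : W ≃ W) (i : ℕ) (x : Multiplicative (W → ℤ)) (w : W) :
    Multiplicative.toAdd ((sW p)^[i] x) w = Multiplicative.toAdd x (p.symm^[i] w) := by
  induction i generalizing w with
  | zero => rfl
  | succ i ih =>
    rw [Function.iterate_succ_apply', sW_apply, ih, ← Function.iterate_succ_apply]

/-- PROOF. `ε` from `exists_eps` (U1), `φ = phi ε`, `s = sW (MulAction.toPerm σ)` on `M = Multiplicative (InfinitePlace L → ℤ)`; `φ (s x) = sU σ (φ x)` (reindex the product), so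
`φ` commutes with `dif` and `nrm`. `tate_perm` (G6), with `q w = w.comap (algebraMap K L)` (surjective: `InfinitePlace.comap_surjective`), `R = RamInf K L`, `hc` = `infPlace_count` (U6): `Her ⊥ ⊤ t0`, `t0 ≤ 2 ^ r`.
Kernel of `φ`: `zpowers c`, `s c = c` (`phi_ker`, U4), so `Her ⊥ (ker φ) n` (`her_zpowers`, G5), and `Her (ker φ) ⊤ (t0 / n)` (`her_high`, A1). By `tate_map` (G2, `A = ker φ`, `B = ⊤`, both `tate f g` and `tate g f`):
`Her ⊥ (range φ) (t0 / n)` for `sU σ`. `range φ` has finite index in `UL L` (`phi_range`, U5), so `Her (range φ) (UL L) 1` (`her_finite`) and `her_mid` give `Her ⊥ (UL L) (t0 / n * 1)`.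
`UL L` is stable under `sU σ` (the divisor of `σ x`: D1 `dvU_sU`, or through `UL_eq`); `isPair_dif_nrm`, `isStable_of` (G3), `sU_iter` (C1). -/
theorem her_units [IsGalois K L] (σ : L ≃ₐ[K] L) (hσ : ∀ x, x ∈ Subgroup.zpowers σ) :
    ∃ t : ℚ, Her (dif (sU σ)) (nrm (Module.finrank K L) (sU σ)) ⊥ (UL L) t ∧
      t ≤ 2 ^ (RamInf K L).card / Module.finrank K L := by
  classical
  obtain ⟨ε, e1, e2, e3⟩ := exists_eps K L
  set n := Module.finrank K L with hn
  have hn0 : n ≠ 0 := Module.finrank_pos.ne'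
  have hσn : σ ^ n = 1 := by
    rw [hn, ← IsGalois.card_aut_eq_finrank, pow_card_eq_one']
  let p : InfinitePlace L ≃ InfinitePlace L := MulAction.toPerm σ
  have hp : ∀ w, p w = σ • w := fun w => rfl
  have hps : ∀ w, p.symm w = σ⁻¹ • w := fun w => rfl
  let s := sW p
  let φ := phi ε
  have hφ : ∀ x, φ (s x) = sU σ (φ x) := by
    intro x
    show phi ε (sW p x) = sU σ (phi ε x)
    rw [phi_apply, phi_apply, map_prod]
    rw [← Equiv.prod_comp p]
    refine Finset.prod_congr rfl fun w _ => ?_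
    rw [sW_apply, Equiv.symm_apply_apply, map_zpow, e2, hp]
  have hpn : ∀ w, p^[n] w = w := by
    intro w
    have := u7_smul_iter σ n w
    rw [hσn, one_smul] at this
    exact this
  have hpsn : ∀ w, p.symm^[n] w = w := by
    intro w
    have := u7_smul_iter σ⁻¹ n w
    rw [inv_pow, hσn, inv_one, one_smul] at this
    exact this
  have hsn : ∀ x, s^[n] x = x := by
    intro x
    apply Multiplicative.toAdd.injective
    funext w
    show Multiplicative.toAdd ((sW p)^[n] x) w = _
    rw [u7_sW_iter, hpsn]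
  obtain ⟨t0, ht0, ht1⟩ := tate_perm (fun w : InfinitePlace L => w.comap (algebraMap K L)) InfinitePlace.comap_surjective
    p hn0 hpn (RamInf K L) (fun w => by
      show (σ • w).comap (algebraMap K L) = w.comap (algebraMap K L)
      rw [InfinitePlace.comap_smul]
      congr 1
      ext z
      exact σ.symm.commutes z) (fun w w' h => infPlace_count σ hσ w w' h)
  obtain ⟨c, c1, c2, c3⟩ := phi_ker ε e1 e2 e3
  have hsc : s c = c := by
    apply Multiplicative.toAdd.injective
    funext w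
    show Multiplicative.toAdd (sW p c) w = _
    rw [sW_apply, hps]
    exact c3 σ⁻¹ w
  have hP : IsPair (dif s) (nrm n s) := isPair_dif_nrm s hsn
  have hP' : IsPair (dif (sU σ)) (nrm n (sU σ)) := isPair_dif_nrm (sU σ) fun x => sU_iter σ x
  have sbot : IsStable (dif s) (nrm n s) ⊥ := isStable_of s n fun x hx => by
    rw [Subgroup.mem_bot] at hx ⊢
    rw [hx, map_one]
  have stop : IsStable (dif s) (nrm n s) ⊤ := isStable_of s n fun x _ => Subgroup.mem_top _
  have sker : IsStable (dif s) (nrm n s) φ.ker := isStable_of s n fun x hx => by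
    rw [MonoidHom.mem_ker] at hx ⊢
    rw [hφ, hx, map_one]
  have hz : Her (dif s) (nrm n s) ⊥ φ.ker n := by
    have := her_zpowers s hn0 hsc c2
    rw [← c1] at this
    exact this
  have hh := her_high hP sbot sker stop bot_le le_top ht0 hz
  have hrange : (⊤ : Subgroup _).map φ = φ.range := by
    rw [MonoidHom.range_eq_map]
  have hkm : φ.ker.map φ = ⊥ := by
    rw [eq_bot_iff]
    rintro _ ⟨x, hx, rfl⟩
    exact hx
  have m1 := tate_map φ (f' := dif (sU σ)) (g' := nrm n (sU σ)) (fun x => u7_dif φ hφ x) (fun x => u7_nrm φ hφ n x) hP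
    (A := φ.ker) (B := ⊤) le_top sker stop inf_le_right
  have m2 := tate_map φ (f' := nrm n (sU σ)) (g' := dif (sU σ)) (fun x => u7_nrm φ hφ n x) (fun x => u7_dif φ hφ x) hP.symm
    (A := φ.ker) (B := ⊤) le_top sker.symm stop.symm inf_le_right
  rw [hrange, hkm] at m1 m2
  have hr : Her (dif (sU σ)) (nrm n (sU σ)) ⊥ φ.range (t0 / n) := by
    refine ⟨?_, ?_, ?_⟩
    · rw [← m1]
      exact hh.left
    · rw [← m2]
      exact hh.right
    · rw [← m1, ← m2]
      exact hh.eq
  obtain ⟨r1, r2⟩ := phi_range ε e1 e2 e3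
  have tbot : IsStable (dif (sU σ)) (nrm n (sU σ)) ⊥ := isStable_of _ n fun x hx => by
    rw [Subgroup.mem_bot] at hx ⊢
    rw [hx, map_one]
  have trange : IsStable (dif (sU σ)) (nrm n (sU σ)) φ.range := isStable_of _ n fun x hx => by
    obtain ⟨y, rfl⟩ := hx
    exact ⟨s y, hφ y⟩
  have tUL : IsStable (dif (sU σ)) (nrm n (sU σ)) (UL L) := isStable_of _ n fun x hx => by
    rw [UL_eq] at hx
    obtain ⟨u, rfl⟩ := hx
    have i1 : IsIntegral ℤ ((Units.map (algebraMap (𝓞 L) L : 𝓞 L →* L) u : Lˣ) : L) := (u : 𝓞 L).isIntegral_coe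
    have i2 : IsIntegral ℤ (((Units.map (algebraMap (𝓞 L) L : 𝓞 L →* L) u)⁻¹ : Lˣ) : L) := by
      rw [← map_inv]
      exact ((u⁻¹ : (𝓞 L)ˣ) : 𝓞 L).isIntegral_coe
    refine u1_mem ?_ ?_
    · rw [sU_coe]
      exact i1.map ((σ : L →+* L).toIntAlgHom)
    · rw [← map_inv, sU_coe]
      exact i2.map ((σ : L →+* L).toIntAlgHom)
  have hf := her_finite hP' trange tUL r1 r2
  have hfin := her_mid hP' tbot trange tUL bot_le r1 hr hf
  refine ⟨t0 / n * 1, hfin, ?_⟩
  rw [mul_one]
  have : (0 : ℚ) < n := by exact_mod_cast Nat.pos_of_ne_zero hn0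
  gcongr

end Pool.Agent.H69H
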