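import Pool.Agent.Lib.H69H.Defs
import Pool.Agent.Lib.H69H.G2
import Pool.Agent.Lib.H69H.G3
import Pool.Agent.Lib.H69H.U7
import Pool.Agent.Lib.H69H.D6
import Pool.Agent.Lib.H69H.E1
import Pool.Agent.Lib.H69H.C1
import Pool.Agent.Lib.H69H.D1

set_option autoImplicit false
set_option linter.unusedSectionVars false

namespace Pool.Agent.H69H

open NumberField IsDedekindDomain CFT

variable {K : Type} [Field K] [NumberField K] {L : Type} [Field L] [NumberField L] [Algebra K L]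

theorem MT_stable (σ : L ≃ₐ[K] L) (T : Finset (Pr K)) : ∀ D ∈ MT L T, sM σ D ∈ MT L T := by
  intro D hD w hw
  refine hD _ ?_
  show below K (gp σ⁻¹ w) ∉ T
  rw [below_gp]
  exact hw

theorem UL_stable (σ : L ≃ₐ[K] L) : ∀ x ∈ UL L, sU σ x ∈ UL L := by
  intro x hx
  have h : dvU L x = 1 := hx
  show dvU L (sU σ x) = 1
  rw [dvU_sU, h, map_one]

theorem ET_stable {σ : L ≃ₐ[K] L} {S T : Finset (Pr K)} {V : Subgroup Lˣ} (hV : IsV σ S V) :
    ∀ x ∈ ET V T, sU σ x ∈ ET V T := by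
  intro x hx
  refine ⟨hV.stable x hx.1, ?_⟩
  have h : dvU L (sU σ x) ∈ MT L T := by
    rw [dvU_sU]
    exact MT_stable σ T _ hx.2
  exact h

variable [IsGalois K L] {σ : L ≃ₐ[K] L} (hσ : ∀ x, x ∈ Subgroup.zpowers σ) {S T : Finset (Pr K)} {V : Subgroup Lˣ} {N : ℕ}

include hσ in
/-- The Herbrand quotient of `ET V T`. -/
theorem her_ET (hS : ∀ v, v ∉ S → Unr K L v) (hV : IsV σ S V) (hT : IsT σ S V N T) :
    ∃ t : ℚ, Her (dif (sU σ)) (nrm (Module.finrank K L) (sU σ)) ⊥ (ET V T) t ∧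
      t ≤ 2 ^ (RamInf K L).card / Module.finrank K L * ((DTL L T).map (Nd K L)).relIndex (DTK T) := by
  have hU : ∀ v ∈ T, Unr K L v := fun v hv => hS v (hT.disj v hv)
  obtain ⟨t, ht, htle⟩ := her_units σ hσ
  obtain ⟨t', ht', htle', _⟩ := her_MT σ hσ T hU
  have hp : IsPair (dif (sU σ)) (nrm (Module.finrank K L) (sU σ)) := isPair_dif_nrm _ (sU_iter σ)
  have hpM : IsPair (dif (sM σ)) (nrm (Module.finrank K L) (sM σ)) := isPair_dif_nrm _ (sM_iter σ)
  have sB : IsStable (dif (sU σ)) (nrm (Module.finrank K L) (sU σ)) (⊥ : Subgroup Lˣ) :=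
    isStable_of _ _ (fun x hx => by
      rw [Subgroup.mem_bot] at hx ⊢
      rw [hx, map_one])
  have sBM : IsStable (dif (sM σ)) (nrm (Module.finrank K L) (sM σ)) (⊥ : Subgroup (Multiplicative (Dv L))) :=
    isStable_of _ _ (fun x hx => by
      rw [Subgroup.mem_bot] at hx ⊢
      rw [hx, map_one])
  have sUL := isStable_of (sU σ) (Module.finrank K L) (UL_stable σ)
  have sE0 := isStable_of (sU σ) (Module.finrank K L) (A := V ⊓ UL L) (fun x hx => ⟨hV.stable x hx.1, UL_stable σ x hx.2⟩)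
  have sET := isStable_of (sU σ) (Module.finrank K L) (ET_stable (T := T) hV)
  have sMT := isStable_of (sM σ) (Module.finrank K L) (MT_stable σ T)
  have sIm := isStable_of (sM σ) (Module.finrank K L) (A := (ET V T).map (dvU L)) (by
    rintro _ ⟨x, hx, rfl⟩
    exact ⟨sU σ x, ET_stable hV x hx, dvU_sU σ x⟩)
  have hE0U : V ⊓ UL L ≤ UL L := inf_le_right
  have hE0T : V ⊓ UL L ≤ ET V T := by
    intro x hx
    refine ⟨hx.1, ?_⟩
    have h : dvU L x = 1 := hx.2
    show dvU L x ∈ MT L T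
    rw [h]
    exact one_mem _
  have hImT : (ET V T).map (dvU L) ≤ MT L T := by
    rintro _ ⟨x, hx, rfl⟩
    exact hx.2
  have hker : ET V T ⊓ (dvU L).ker ≤ V ⊓ UL L := fun x hx => ⟨hx.1.1, hx.2⟩
  have h1 : Her (dif (sU σ)) (nrm (Module.finrank K L) (sU σ)) ⊥ (V ⊓ UL L) (t / 1) :=
    her_low hp sB sE0 sUL bot_le hE0U ht (her_finite hp sE0 sUL hE0U (E0_index hV))
  have h2 : Her (dif (sM σ)) (nrm (Module.finrank K L) (sM σ)) ⊥ ((ET V T).map (dvU L)) (t' / 1) :=
    her_low hpM sBM sIm sMT bot_le hImT ht' (her_finite hpM sIm sMT hImT (ET_index hV hT))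
  have hbot : (V ⊓ UL L).map (dvU L) = ⊥ := by
    rw [eq_bot_iff]
    rintro _ ⟨x, hx, rfl⟩
    exact hx.2
  have ef : ∀ x, dvU L (dif (sU σ) x) = dif (sM σ) (dvU L x) := fun x => by
    rw [dif_apply, dif_apply, map_div, dvU_sU]
  have hit : ∀ (i : ℕ) (x : Lˣ), dvU L ((sU σ)^[i] x) = (sM σ)^[i] (dvU L x) := by
    intro i
    induction i with
    | zero => intro x; rfl
    | succ i ih =>
      intro x
      rw [Function.iterate_succ_apply, Function.iterate_succ_apply, ih, dvU_sU]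
  have eg : ∀ x, dvU L (nrm (Module.finrank K L) (sU σ) x) = nrm (Module.finrank K L) (sM σ) (dvU L x) := fun x => by
    rw [nrm_apply, nrm_apply, map_prod]
    exact Finset.prod_congr rfl fun i _ => hit i x
  have h3 : Her (dif (sU σ)) (nrm (Module.finrank K L) (sU σ)) (V ⊓ UL L) (ET V T) (t' / 1) := by
    have a1 := tate_map (dvU L) ef eg hp hE0T sE0 sET hker
    have a2 := tate_map (dvU L) eg ef hp.symm hE0T sE0.symm sET.symm hker
    rw [hbot] at a1 a2
    exact ⟨by rw [a1]; exact h2.left, by rw [a2]; exact h2.right, by rw [a1, a2]; exact h2.eq⟩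
  have h4 := her_mid hp sB sE0 sET bot_le hE0T h1 h3
  refine ⟨_, h4, ?_⟩
  rw [div_one, div_one]
  exact mul_le_mul htle htle' ht'.pos.le (by positivity)

end Pool.Agent.H69H
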