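import Pool.Agent.Lib.H69H.Defs
import Pool.Agent.Lib.H69H.C1
import Pool.Agent.Lib.H69H.D1
import Pool.Agent.Lib.H69H.D2

set_option autoImplicit false
set_option linter.unusedSectionVars false

namespace Pool.Agent.H69H

open NumberField IsDedekindDomain CFT

variable {K : Type} [Field K] [NumberField K] {L : Type} [Field L] [NumberField L] [Algebra K L]

/-- The stabilizer of the function `od _ y` outside `T`. -/
def e3_st (T : Finset (Pr K)) (y : L) : Subgroup (L ≃ₐ[K] L) where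
  carrier := {g | ∀ w : Pr L, below K w ∉ T → od (gp g w) y = od w y}
  one_mem' := fun w _ => by rw [gp_one]
  mul_mem' := fun {g h} h1 h2 w hw => by
    rw [gp_mul, h1 _ (by rw [below_gp]; exact hw), h2 w hw]
  inv_mem' := fun {g} h1 w hw => by
    have := h1 (gp g⁻¹ w) (by rw [below_gp]; exact hw)
    rw [gp_gp_inv] at this
    exact this.symm

variable [IsGalois K L] {σ : L ≃ₐ[K] L} (hσ : ∀ x, x ∈ Subgroup.zpowers σ) {S T : Finset (Pr K)} {V : Subgroup Lˣ} {N : ℕ}

include hσ in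
theorem e3_const {y : Lˣ} (h : ∀ w : Pr L, below K w ∉ T → od w ((dif (sU σ) y : Lˣ) : L) = 0)
    {w w' : Pr L} (hw : below K w ∉ T) (hww : below K w = below K w') : od w' (y : L) = od w (y : L) := by
  have h1 : σ ∈ e3_st T (y : L) := by
    rw [← inv_mem_iff]
    intro w hw
    have h2 : ((dif (sU σ) y : Lˣ) : L) = σ (y : L) * ((y : L))⁻¹ := by
      rw [dif_apply, Units.val_div_eq_div_val, sU_coe, div_eq_mul_inv]
    have h3 := h w hw
    rw [h2, od_mul w ((map_ne_zero σ).2 y.ne_zero) (inv_ne_zero y.ne_zero), od_inv] at h3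
    have h4 := od_gp σ (gp σ⁻¹ w) (y : L)
    rw [gp_gp_inv] at h4
    rw [← h4]
    omega
  obtain ⟨τ, rfl⟩ := exists_gp w w' hww
  exact (Subgroup.zpowers_le.2 h1) (hσ τ) w hw

include hσ in
theorem e3_main (hS : ∀ v, v ∉ S → Unr K L v) (hV : IsV σ S V) (hT : IsT σ S V N T) {x : Lˣ} (hx : x ∈ ET V T)
    (hx1 : nrm (Module.finrank K L) (sU σ) x = 1) : ∃ y ∈ ET V T, dif (sU σ) y = x := by
  obtain ⟨y, hy⟩ := hilbert90 σ hσ x hx1
  obtain ⟨κ, y1, hy1, hy2⟩ := hV.crit y (by rw [← hy]; exact hx.1)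
  have hfix : ∀ κ : Kˣ, dif (sU σ) (kU K L κ) = 1 := fun κ => (dif_eq_one σ hσ _).2 ⟨κ, rfl⟩
  have hd1 : dif (sU σ) y1 = x := by
    rw [hy, hy2, map_mul, hfix, one_mul]
  have hconst : ∀ {w w' : Pr L}, below K w ∉ T → below K w = below K w' → od w' (y1 : L) = od w (y1 : L) := by
    intro w w' hw hww
    refine e3_const hσ (T := T) (fun w hw => ?_) hw hww
    rw [hd1]
    exact ((mem_ET V T x).1 hx).2 w hw
  -- the divisor `D`
  classical
  choose ab hab using fun v : Pr K => below_surj L v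
  obtain ⟨D, hD⟩ : ∃ D : Dv K, ∀ v, D v = if v ∈ T then 0 else od (ab v) (y1 : L) := by
    have hfin : (Function.support fun v : Pr K => if v ∈ T then 0 else od (ab v) (y1 : L)).Finite := by
      refine Set.Finite.subset ((od_fin (y1 : L)).image (below K)) fun v hv => ?_
      rw [Function.mem_support] at hv
      refine ⟨ab v, ?_, hab v⟩
      by_contra h0
      apply hv
      have h0' : od (ab v) (y1 : L) = 0 := by
        by_contra h1
        exact h0 h1
      rw [h0', ite_self]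
    exact ⟨Finsupp.ofSupportFinite _ hfin, fun v => rfl⟩
  obtain ⟨E, hE, κ', hκ', hP⟩ := hT.a D
  obtain ⟨u, hu⟩ : ∃ u : Kˣ, (u : K) = κ' := ⟨Units.mk0 _ hκ'.ne, rfl⟩
  have huV : kU K L u ∈ V := hT.ray u (by rw [hu]; exact hκ')
  refine ⟨y1 * (kU K L u)⁻¹, ?_, ?_⟩
  · have hV2 : y1 * (kU K L u)⁻¹ ∈ V := mul_mem hy1 (inv_mem huV)
    rw [mem_ET]
    refine ⟨hV2, fun w hw => ?_⟩
    by_cases hwS : below K w ∈ S
    · exact hV.unit _ hV2 w hwS
    · have h1 := hP (below K w) hwS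
      rw [Finsupp.sub_apply, hE _ hw, sub_zero, hD, if_neg hw, hconst (w := w) (w' := ab (below K w)) hw (hab _).symm] at h1
      rw [Units.val_mul, Units.val_inv_eq_inv_val, od_mul w y1.ne_zero (inv_ne_zero (kU K L u).ne_zero), od_inv, kU_coe, hu,
        od_algebraMap, hS _ hwS w rfl, ← h1]
      push_cast
      ring
  · rw [map_mul, map_inv, hfix, inv_one, mul_one, hd1]

include hσ in
/-- `H^(-1)` of `ET V T` is trivial. -/
theorem tate_ET (hS : ∀ v, v ∉ S → Unr K L v) (hV : IsV σ S V) (hT : IsT σ S V N T) :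
    tate (nrm (Module.finrank K L) (sU σ)) (dif (sU σ)) ⊥ (ET V T) = 1 := by
  unfold tate
  rw [Subgroup.relIndex_eq_one, sup_bot_eq]
  rintro x ⟨hx1, hx2⟩
  obtain ⟨y, hy, h⟩ := e3_main hσ hS hV hT hx1 hx2
  exact ⟨y, hy, h⟩

end Pool.Agent.H69H
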