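import Pool.Agent.Lib.H69H.Defs
import Pool.Agent.Lib.H69H.C1

set_option autoImplicit false
set_option linter.unusedSectionVars false

namespace Pool.Agent.H69H

open NumberField IsDedekindDomain CFT

theorem p1_prod {G : Type*} [Fintype G] (f : G → ℂ) (ι : G → G) (h1 : ∀ g, ι (ι g) = g) (h2 : ∀ g, ι g ≠ g)
    (h3 : ∀ g, f g ≠ 0) (h4 : ∀ g, f (ι g) = (starRingEnd ℂ) (f g)) : ∃ r : ℝ, 0 < r ∧ ∏ g, f g = (r : ℂ) := by
  classical
  let e := Fintype.equivFin G
  let A := Finset.univ.filter fun g : G => e g < e (ι g)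
  have hB : (Finset.univ.filter fun g : G => ¬ e g < e (ι g)) = A.image ι := by
    ext g
    simp only [A, Finset.mem_filter, Finset.mem_univ, true_and, Finset.mem_image]
    constructor
    · intro h
      refine ⟨ι g, ?_, h1 g⟩
      rw [h1]
      refine lt_of_le_of_ne (not_lt.1 h) fun he => h2 g (e.injective he)
    · rintro ⟨k, hk, rfl⟩
      rw [h1]
      exact not_lt.2 hk.le
  refine ⟨∏ g ∈ A, Complex.normSq (f g), Finset.prod_pos fun g _ => Complex.normSq_pos.2 (h3 g), ?_⟩
  rw [← Finset.prod_filter_mul_prod_filter_not Finset.univ (fun g : G => e g < e (ι g)), hB,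
    Finset.prod_image fun a _ b _ h => by rw [← h1 a, h, h1], ← Finset.prod_mul_distrib, Complex.ofReal_prod]
  refine Finset.prod_congr rfl fun g _ => ?_
  rw [h4, Complex.mul_conj]

variable {K : Type} [Field K] [NumberField K] {L : Type} [Field L] [NumberField L] [Algebra K L]

/-- PROOF. Let `φ : K → ℝ` with place `v` ramified in `L`. Extend `φ` (into `ℂ`) to `ψ : L → ℂ` (`InfinitePlace.comap_mk_lift` or `IsAlgClosed.lift`, Mathlib `ComplexEmbedding.lift`), `w = mk ψ`, `w.comap = v`, `w` is ramified, so there is `τ ∈ Gal(L/K)` with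
`ψ ∘ τ = conj ∘ ψ` (Mathlib `InfinitePlace.exists_isConj_of_isRamified`; `ComplexEmbedding.IsConj`), `τ ≠ 1` (w is complex), `τ^2 = 1`. `φ (norm y) = ∏_{g ∈ G} ψ (g y)` (`Algebra.norm_eq_prod_automorphisms`). The involution `g ↦ τ * g` of `G` has no fixed
point and `ψ (τ g y) = conj (ψ (g y))`, so the product is a product of `|ψ (g y)|^2 > 0` over the pairs. In Lean: for example `Finset.prod_involution`-like argument, or: `∏_{g ∈ G} ψ (g y)`, choose a set of representatives of the cosets of `{1, τ}` in `G`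
(`G ≃ (G ⧸ H) × H`, Mathlib `Subgroup.groupEquivQuotientProdSubgroup`), the product over each coset is `z * conj z`, `z ≠ 0`. -/
theorem posR_norm [IsGalois K L] (y : Lˣ) : PosR L (Algebra.norm K (y : L)) := by
  intro φ hφ
  have h1 : ¬ (InfinitePlace.mk ((algebraMap ℝ ℂ).comp φ)).IsUnramifiedIn L := by
    classical
    have h2 := hφ
    unfold RamInf at h2
    rw [Finset.mem_filter] at h2
    exact h2.2
  unfold InfinitePlace.IsUnramifiedIn at h1
  push Not at h1
  obtain ⟨w, hw, hram⟩ := h1
  have hram : w.IsRamified K := hram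
  have h3 : ∀ x : K, w.embedding (algebraMap K L x) = ((φ x : ℝ) : ℂ) := by
    intro x
    have h4 : InfinitePlace.mk (w.embedding.comp (algebraMap K L)) = InfinitePlace.mk ((algebraMap ℝ ℂ).comp φ) := by
      rw [← hw, ← InfinitePlace.comap_mk, InfinitePlace.mk_embedding]
    rw [InfinitePlace.mk_eq_iff] at h4
    rcases h4 with h4 | h4
    · exact DFunLike.congr_fun h4 x
    · have h5 := DFunLike.congr_fun h4 x
      have h6 : (starRingEnd ℂ) (w.embedding (algebraMap K L x)) = ((φ x : ℝ) : ℂ) := h5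
      rw [← Complex.conj_conj (w.embedding (algebraMap K L x)), h6, Complex.conj_ofReal]
  have hram' : (InfinitePlace.mk w.embedding).IsRamified K := by
    rw [InfinitePlace.mk_embedding]
    exact hram
  obtain ⟨τ, hτ⟩ := InfinitePlace.exists_isConj_of_isRamified hram'
  have hτ' : ∀ x : L, w.embedding (τ x) = (starRingEnd ℂ) (w.embedding x) := by
    intro x
    have h4 := DFunLike.congr_fun hτ x
    exact h4.symm
  have hτ1 : τ ≠ 1 := by
    rintro rfl
    have h4 := hram.isComplex
    rw [InfinitePlace.isComplex_iff] at h4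
    apply h4
    rw [NumberField.ComplexEmbedding.isReal_iff]
    ext x
    exact (hτ' x).symm
  have hτ2 : τ * τ = 1 := by
    ext x
    apply w.embedding.injective
    show w.embedding (τ (τ x)) = w.embedding x
    rw [hτ', hτ', Complex.conj_conj]
  have h5 : ((φ (Algebra.norm K (y : L)) : ℝ) : ℂ) = ∏ g : L ≃ₐ[K] L, w.embedding (g (y : L)) := by
    rw [← h3, Algebra.norm_eq_prod_automorphisms, map_prod]
  obtain ⟨r, hr, h6⟩ := p1_prod (fun g : L ≃ₐ[K] L => w.embedding (g (y : L))) (fun g => τ * g)
    (fun g => by rw [← mul_assoc, hτ2, one_mul]) (fun g h => hτ1 (by simpa using h))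
    (fun g => by
      show w.embedding (g (y : L)) ≠ 0
      rw [Ne, map_eq_zero, map_eq_zero]
      exact y.ne_zero) (fun g => hτ' _)
  rw [h6] at h5
  have h7 : φ (Algebra.norm K (y : L)) = r := by exact_mod_cast h5
  rw [h7]
  exact hr

end Pool.Agent.H69H
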