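import Pool.Agent.Lib.H69H.Defs
import Pool.Agent.Lib.H69H.C1

set_option autoImplicit false
set_option linter.unusedSectionVars false

namespace Pool.Agent.H69H

open NumberField IsDedekindDomain CFT

variable {K : Type} [Field K] [NumberField K] {L : Type} [Field L] [NumberField L] [Algebra K L]

/-- PROOF. `B := ET V T ⊓ (dif (sU σ)).ker` is the group of the `kU κ` in `ET V T` (`dif_eq_one`, C1). For each `v ∈ RamInf K L` there is exactly one `φ_v : K →+* ℝ` with `mk φ_v = v` (ramified places are real, Mathlib `InfinitePlace.IsRamified.isReal`, `InfinitePlace.IsReal`,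
`InfinitePlace.embedding_of_isReal`). The homomorphism `sgn : B → (RamInf K L → ℤˣ)` (signs of `φ_v κ`), or equivalently work with the subgroups, has kernel `PP V T` and is surjective: the elements `κ_v` of `hT.c` are sent to the vectors with one entry `-1`, which generate. So the index of `PP V T` in `B` is
`2 ^ (RamInf K L).card`. -/
theorem PP_relIndex [IsGalois K L] {σ : L ≃ₐ[K] L} (hσ : ∀ x, x ∈ Subgroup.zpowers σ) {S T : Finset (Pr K)} {V : Subgroup Lˣ} {N : ℕ}
    (hT : IsT σ S V N T) : (PP V T).relIndex (ET V T ⊓ (dif (sU σ)).ker) = 2 ^ (RamInf K L).card := by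
  classical
  have hreal : ∀ v : {v // v ∈ RamInf K L}, ∃ φ : K →+* ℝ, InfinitePlace.mk ((algebraMap ℝ ℂ).comp φ) = v.1 := by
    rintro ⟨v, hv⟩
    have h1 : ¬ v.IsUnramifiedIn L := by
      have h2 := hv
      unfold RamInf at h2
      rw [Finset.mem_filter] at h2
      exact h2.2
    unfold InfinitePlace.IsUnramifiedIn at h1
    push Not at h1
    obtain ⟨w, hw, hram⟩ := h1
    have hram : w.IsRamified K := hram
    have hr : v.IsReal := by
      rw [← hw]
      exact hram.isReal
    refine ⟨v.embedding_of_isReal hr, ?_⟩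
    have h3 : (algebraMap ℝ ℂ).comp (v.embedding_of_isReal hr) = v.embedding := by
      ext x
      exact InfinitePlace.embedding_of_isReal_apply hr x
    rw [h3, InfinitePlace.mk_embedding]
  choose Φ hΦ using hreal
  have huniq : ∀ φ ψ : K →+* ℝ, InfinitePlace.mk ((algebraMap ℝ ℂ).comp φ) = InfinitePlace.mk ((algebraMap ℝ ℂ).comp ψ) → φ = ψ := by
    intro φ ψ h
    rw [InfinitePlace.mk_eq_iff] at h
    ext x
    rcases h with h | h
    · exact Complex.ofReal_injective (DFunLike.congr_fun h x)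
    · have h1 : (starRingEnd ℂ) ((φ x : ℝ) : ℂ) = ((ψ x : ℝ) : ℂ) := DFunLike.congr_fun h x
      rw [Complex.conj_ofReal] at h1
      exact Complex.ofReal_injective h1
  let s : Kˣ →* ({v // v ∈ RamInf K L} → SignTypeˣ) := Pi.monoidHom fun v =>
    (Units.map (signHom : ℝ →*₀ SignType).toMonoidHom).comp (Units.map (Φ v : K →* ℝ))
  have hs : ∀ (κ : Kˣ) (v : {v // v ∈ RamInf K L}), ((s κ v : SignTypeˣ) : SignType) = SignType.sign (Φ v (κ : K)) := fun κ v => rfl
  have hs1 : ∀ (κ : Kˣ) (v : {v // v ∈ RamInf K L}), s κ v = 1 ↔ 0 < Φ v (κ : K) := by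
    intro κ v
    rw [← Units.val_inj, hs, Units.val_one, sign_eq_one_iff]
  have hsn : ∀ (κ : Kˣ) (v : {v // v ∈ RamInf K L}), s κ v = -1 ↔ Φ v (κ : K) < 0 := by
    intro κ v
    rw [← Units.val_inj, hs, Units.val_neg, Units.val_one, sign_eq_neg_one_iff]
  have hpos : ∀ κ : Kˣ, PosR L (κ : K) ↔ κ ∈ s.ker := by
    intro κ
    rw [MonoidHom.mem_ker]
    constructor
    · intro h
      funext v
      rw [Pi.one_apply, hs1]
      exact h (Φ v) (by rw [hΦ]; exact v.2)
    · intro h φ hφ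
      have h1 : φ = Φ ⟨_, hφ⟩ := huniq _ _ (hΦ ⟨_, hφ⟩).symm
      rw [h1, ← hs1, h]
      rfl
  have hinj : Function.Injective (kU K L) := by
    intro a b h
    apply Units.ext
    have h1 := congrArg Units.val h
    rw [kU_coe, kU_coe] at h1
    exact (algebraMap K L).injective h1
  have e1 : ET V T ⊓ (dif (sU σ)).ker = ((ET V T).comap (kU K L)).map (kU K L) := by
    ext x
    constructor
    · rintro ⟨h1, h2⟩
      obtain ⟨κ, rfl⟩ := (dif_eq_one σ hσ x).1 h2
      exact ⟨κ, h1, rfl⟩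
    · rintro ⟨κ, h1, rfl⟩
      exact ⟨h1, (dif_eq_one σ hσ _).2 ⟨κ, rfl⟩⟩
  have e2 : PP V T = ((ET V T).comap (kU K L) ⊓ s.ker).map (kU K L) := by
    ext x
    constructor
    · rintro ⟨h1, κ, rfl, h2⟩
      exact ⟨κ, ⟨h1, (hpos κ).1 h2⟩, rfl⟩
    · rintro ⟨κ, ⟨h1, h2⟩, rfl⟩
      exact ⟨h1, κ, rfl, (hpos κ).2 h2⟩
  rw [e1, e2, Subgroup.relIndex_map_map_of_injective _ _ hinj, Subgroup.inf_relIndex_left, Subgroup.relIndex_ker]
  have e3 : ((ET V T).comap (kU K L)).map s = ⊤ := by
    rw [eq_top_iff]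
    intro x _
    rw [← Finset.univ_prod_mulSingle x]
    refine Subgroup.prod_mem _ fun v _ => ?_
    have h1 : x v = 1 ∨ x v = -1 := by
      generalize x v = z
      revert z
      decide
    rcases h1 with h1 | h1
    · rw [h1, Pi.mulSingle_one]
      exact Subgroup.one_mem _
    · obtain ⟨κ, h2, h3⟩ := hT.c v.1 v.2
      refine ⟨κ, h2, ?_⟩
      funext u
      by_cases huv : u = v
      · subst huv
        rw [h1, Pi.mulSingle_eq_same, hsn]
        exact (h3 (Φ u)).1 (hΦ u)
      · rw [Pi.mulSingle_eq_of_ne huv, hs1]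
        refine (h3 (Φ u)).2 (by rw [hΦ]; exact u.2) ?_
        rw [hΦ]
        exact fun h => huv (Subtype.ext h)
  rw [e3]
  have e4 : Nat.card (⊤ : Subgroup ({v // v ∈ RamInf K L} → SignTypeˣ)) = Nat.card ({v // v ∈ RamInf K L} → SignTypeˣ) :=
    Nat.card_congr Subgroup.topEquiv.toEquiv
  rw [e4, Nat.card_eq_fintype_card, Fintype.card_fun, Fintype.card_coe]
  rfl

end Pool.Agent.H69H
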