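import Pool.Agent.Lib.H69H.Defs
import Pool.Agent.Lib.H69H.C1
import Pool.Agent.Lib.H69H.P1
import Pool.Agent.Lib.H69H.P3
import Pool.Agent.Lib.H69H.G3
import Pool.Agent.Lib.H69H.D1

set_option autoImplicit false
set_option linter.unusedSectionVars false

namespace Pool.Agent.H69H

open NumberField IsDedekindDomain CFT

variable {K : Type} [Field K] [NumberField K] {L : Type} [Field L] [NumberField L] [Algebra K L]

variable [IsGalois K L] {σ : L ≃ₐ[K] L} (hσ : ∀ x, x ∈ Subgroup.zpowers σ) {S T : Finset (Pr K)} {V : Subgroup Lˣ} {N : ℕ}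

include hσ in
/-- PROOF. The inclusion: `nrm x = kU (norm x)` (C1), `ET V T` is stable (`hV.stable`, `dvU_sU`, `below_gp`), positivity: `posR_norm` (P1). `tate (dif) (nrm) ⊥ (ET V T) = (map nrm).relIndex (ET V T ⊓ ker dif)` is the product of the two indices (`Subgroup.relIndex_mul_relIndex`), the second is `PP_relIndex` (P3). -/
theorem PP_index (hV : IsV σ S V) (hT : IsT σ S V N T) :
    (ET V T).map (nrm (Module.finrank K L) (sU σ)) ≤ PP V T ∧
    ((ET V T).map (nrm (Module.finrank K L) (sU σ))).relIndex (PP V T) * 2 ^ (RamInf K L).card =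
      tate (dif (sU σ)) (nrm (Module.finrank K L) (sU σ)) ⊥ (ET V T) := by
  have hst : ∀ x ∈ ET V T, sU σ x ∈ ET V T := by
    rintro x ⟨h1, h2⟩
    refine ⟨hV.stable x h1, fun w hw => ?_⟩
    show od w (σ (x : L)) = 0
    rw [← gp_gp_inv σ w, od_gp]
    refine h2 _ ?_
    rw [below_gp]
    exact hw
  have h1 : (ET V T).map (nrm (Module.finrank K L) (sU σ)) ≤ PP V T := by
    rintro _ ⟨x, hx, rfl⟩
    refine ⟨(isStable_of (sU σ) _ hst).right x hx, _, nrm_eq σ hσ x, ?_⟩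
    exact posR_norm x
  refine ⟨h1, ?_⟩
  rw [← PP_relIndex hσ hT]
  have h2 : PP V T ≤ ET V T ⊓ (dif (sU σ)).ker := by
    rintro x ⟨h3, κ, rfl, _⟩
    exact ⟨h3, (dif_eq_one σ hσ _).2 ⟨κ, rfl⟩⟩
  rw [Subgroup.relIndex_mul_relIndex _ _ _ h1 h2]
  unfold tate
  rw [sup_bot_eq]
  rfl

end Pool.Agent.H69H
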