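import Pool.Agent.Lib.H69H.Defs
import Pool.Agent.Lib.H69H.C1
import Pool.Agent.Lib.H69H.D2
import Pool.Agent.Lib.H69H.D4
import Pool.Agent.Lib.H69H.P1
import Pool.Agent.Lib.CFT.B09

set_option autoImplicit false
set_option linter.unusedSectionVars false

namespace Pool.Agent.H69H

open NumberField IsDedekindDomain CFT

variable {K : Type} [Field K] [NumberField K] {L : Type} [Field L] [NumberField L] [Algebra K L]

/-- The norm at `v` depends only on the primes above `v`. -/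
theorem e5_Nd_congr (D E : Dv L) (v : Pr K) (h : ∀ w : Pr L, below K w = v → D w = E w) : Nd K L D v = Nd K L E v := by
  rw [CFT.Nd_apply, CFT.Nd_apply]
  refine Finset.sum_congr rfl fun w hw => ?_
  rw [h w ((CFT.mem_abv v w).1 hw)]

/-- An element of `K` whose image is a unit above `v`. -/
theorem e5_od (κ : K) (v : Pr K) (h : ∀ w : Pr L, below K w = v → od w (algebraMap K L κ) = 0) : od v κ = 0 := by
  obtain ⟨w, rfl⟩ := below_surj L v
  have := h w rfl
  rw [od_algebraMap] at this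
  exact (mul_eq_zero.1 this).resolve_left (ram_ne w)

theorem e5_nrm_mem {σ : L ≃ₐ[K] L} {V : Subgroup Lˣ} (hV : ∀ x ∈ V, sU σ x ∈ V) (n : ℕ) {y : Lˣ} (hy : y ∈ V) :
    nrm n (sU σ) y ∈ V := by
  rw [nrm_apply]
  refine prod_mem fun i hi => ?_
  clear hi
  induction i with
  | zero => exact hy
  | succ i ih =>
    rw [Function.iterate_succ_apply']
    exact hV _ ih

variable [IsGalois K L] {σ : L ≃ₐ[K] L} (hσ : ∀ x, x ∈ Subgroup.zpowers σ) {S T : Finset (Pr K)} {V : Subgroup Lˣ} {N : ℕ}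

include hσ in
theorem inter_le_QQ (hV : IsV σ S V) (hT : IsT σ S V N T) :
    (Pray S N ⊔ (Nd K L).range) ⊓ DTK T ≤ QQ (L := L) V T := by
  rintro D ⟨hD, hDT⟩
  obtain ⟨P, ⟨x, hx, hP⟩, F, ⟨D', rfl⟩, hPF⟩ := AddSubgroup.mem_sup.1 hD
  obtain ⟨E, hE, y, hy, hDy⟩ := hT.b D'
  obtain ⟨u, hu⟩ : ∃ u : Kˣ, (u : K) = x := ⟨Units.mk0 _ hx.ne, rfl⟩
  obtain ⟨κ, hκ⟩ : ∃ κ : Kˣ, κ = u * Units.map (Algebra.norm K : L →* K) y := ⟨_, rfl⟩
  have hκ' : (κ : K) = x * Algebra.norm K (y : L) := by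
    rw [hκ, Units.val_mul, hu]
    rfl
  have hκV : kU K L κ ∈ V := by
    rw [hκ, map_mul, ← nrm_eq σ hσ]
    exact mul_mem (hT.ray u (by rw [hu]; exact hx)) (e5_nrm_mem hV.stable _ hy)
  have hyn : Algebra.norm K (y : L) ≠ 0 := by
    have := (Units.map (Algebra.norm K : L →* K) y).ne_zero
    exact this
  have h1 : ∀ v, v ∉ S → D v = od v (κ : K) + Nd K L E v := by
    intro v hv
    have e1 : Nd K L D' v = Nd K L (E + dv (y : L)) v := by
      refine e5_Nd_congr _ _ _ fun w hw => ?_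
      rw [hDy w (by rw [hw]; exact hv)]
      rfl
    have e2 : Nd K L (E + dv (y : L)) v = Nd K L E v + od v (Algebra.norm K (y : L)) := by
      rw [map_add, Nd_dv, Finsupp.add_apply, dv_apply]
    rw [← hPF, Finsupp.add_apply, hP v hv, e1, e2, hκ', od_mul v hx.ne hyn]
    ring
  have hNE : ∀ v, v ∉ T → Nd K L E v = 0 := by
    intro v hv
    have : Nd K L E v = Nd K L (0 : Dv L) v := e5_Nd_congr _ _ _ fun w hw => by
      rw [hE w (by rw [hw]; exact hv)]
      rfl
    rw [this, map_zero]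
    rfl
  have hκ0 : ∀ v, v ∉ T → od v (κ : K) = 0 := by
    intro v hv
    by_cases hvS : v ∈ S
    · refine e5_od (L := L) _ _ fun w hw => ?_
      exact hV.unit _ hκV w (by rw [hw]; exact hvS)
    · have := h1 v hvS
      rw [hDT v hv, hNE v hv, add_zero] at this
      exact this.symm
  refine ⟨κ, ?_, ?_, E, hE, ?_⟩
  · rw [mem_ET]
    refine ⟨hκV, fun w hw => ?_⟩
    rw [kU_coe, od_algebraMap, hκ0 _ hw, mul_zero]
  · intro φ hφ
    rw [hκ', map_mul]
    exact mul_pos (hx.pos φ) (posR_norm y φ hφ)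
  · ext v
    rw [Finsupp.add_apply, dv_apply]
    by_cases hv : v ∈ S
    · have hvT : v ∉ T := fun h => hT.disj v h hv
      rw [hDT v hvT, hκ0 v hvT, hNE v hvT, add_zero]
    · exact h1 v hv

end Pool.Agent.H69H
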