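import Pool.Agent.Lib.H69H.Defs
import Pool.Agent.Lib.H69H.C1
import Pool.Agent.Lib.H69H.D2
import Pool.Agent.Lib.H69H.D4

set_option autoImplicit false
set_option linter.unusedSectionVars false

namespace Pool.Agent.H69H

open NumberField IsDedekindDomain CFT

variable {K : Type} [Field K] [NumberField K] {L : Type} [Field L] [NumberField L] [Algebra K L]

theorem e6_Nd (T : Finset (Pr K)) (E : Dv L) (hE : E ∈ DTL L T) (v : Pr K) (hv : v ∉ T) : Nd K L E v = 0 := by
  unfold Nd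
  rw [Finsupp.liftAddHom_apply, Finsupp.sum, Finsupp.finsetSum_apply]
  refine Finset.sum_eq_zero fun w hw => ?_
  show (Finsupp.single (below K w) (((w.asIdeal.inertiaDeg (𝓞 K) : ℕ) : ℤ) * E w)) v = 0
  rw [Finsupp.single_eq_of_ne]
  rintro rfl
  exact (Finsupp.mem_support_iff.1 hw) (hE w hv)

variable [IsGalois K L] {σ : L ≃ₐ[K] L} (hσ : ∀ x, x ∈ Subgroup.zpowers σ) {S T : Finset (Pr K)} {V : Subgroup Lˣ} {N : ℕ}

include hσ in
/-- PROOF. `(DTL L T).map Nd ≤ QQ ≤ DTK T` (`κ` is supported on `T`: `od_algebraMap`, `e ≠ 0`, `below_surj`), so the left side is `((DTL L T).map Nd).relIndex QQ * QQ.relIndex (DTK T)`. The first factor is at most the index of `(ET V T).map nrm` in `PP V T`: the map `PP V T → QQ / (DTL L T).map Nd`, `kU κ ↦ dv κ`, is onto and `nrm y ↦ Nd (dv y)`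
(`nrm_eq`, C1, `Nd_dv`, D4) is trivial. (In Lean: an injection from representatives, or a homomorphism `PP V T →* Multiplicative (Dv K)`; `kU` is injective, or work in `Kˣ` with the comap of `PP V T` under `kU`.) -/
theorem QQ_index (hV : IsV σ S V) (hT : IsT σ S V N T)
    (h0 : ((ET V T).map (nrm (Module.finrank K L) (sU σ))).relIndex (PP V T) ≠ 0) :
    ((DTL L T).map (Nd K L)).relIndex (DTK T) ≤ (QQ (L := L) V T).relIndex (DTK T) *
      ((ET V T).map (nrm (Module.finrank K L) (sU σ))).relIndex (PP V T) := by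
  have hinj : Function.Injective (kU K L) := by
    intro a b h
    apply Units.ext
    have h1 := congrArg Units.val h
    rw [kU_coe, kU_coe] at h1
    exact (algebraMap K L).injective h1
  have hle1 : (DTL L T).map (Nd K L) ≤ QQ (L := L) V T := by
    rintro _ ⟨E, hE, rfl⟩
    refine ⟨1, by rw [map_one]; exact one_mem _, fun φ _ => by simp, E, hE, ?_⟩
    rw [Units.val_one, dv_one, zero_add]
  have hle2 : QQ (L := L) V T ≤ DTK T := by
    rintro _ ⟨κ, h1, _, E, hE, rfl⟩ v hv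
    rw [Finsupp.add_apply, e6_Nd T E hE v hv, add_zero, dv_apply]
    obtain ⟨w, rfl⟩ := below_surj L v
    have h2 := h1.2 w hv
    have h3 : od w (algebraMap K L (κ : K)) = 0 := h2
    rw [od_algebraMap] at h3
    exact (mul_eq_zero.1 h3).resolve_left (ram_ne w)
  rw [← AddSubgroup.relIndex_mul_relIndex _ _ _ hle1 hle2, mul_comm]
  refine Nat.mul_le_mul_left _ ?_
  have e1 : ((ET V T).map (nrm (Module.finrank K L) (sU σ))).relIndex (PP V T) =
      (((ET V T).map (nrm (Module.finrank K L) (sU σ))).comap (kU K L)).relIndex ((PP V T).comap (kU K L)) := by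
    rw [Subgroup.relIndex_comap, Subgroup.map_comap_eq, inf_eq_right.2]
    rintro _ ⟨_, κ, rfl, _⟩
    exact ⟨κ, rfl⟩
  have e2 : AddSubgroup.toSubgroup (QQ (L := L) V T) =
      ((PP V T).comap (kU K L)).map (dvU K) ⊔ AddSubgroup.toSubgroup ((DTL L T).map (Nd K L)) := by
    ext D
    rw [Subgroup.mem_sup]
    constructor
    · rintro ⟨κ, h1, h2, E, hE, h3⟩
      refine ⟨dvU K κ, ⟨κ, ⟨h1, κ, rfl, h2⟩, rfl⟩, Multiplicative.ofAdd (Nd K L E), ⟨E, hE, rfl⟩, ?_⟩
      exact h3.symm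
    · rintro ⟨_, ⟨κ, h1, rfl⟩, _, ⟨E, hE, rfl⟩, rfl⟩
      obtain ⟨h1, μ, h2, h3⟩ := h1
      rw [hinj h2] at h1 ⊢
      exact ⟨μ, h1, h3, E, hE, rfl⟩
  rw [← AddSubgroup.relIndex_toSubgroup, e2, Subgroup.relIndex_sup_right, ← Subgroup.relIndex_comap, e1]
  refine Subgroup.relIndex_le_of_le_left ?_ (by rw [← e1]; exact h0)
  rintro κ ⟨y, hy, h1⟩
  rw [nrm_eq σ hσ] at h1
  have h2 := hinj h1
  refine ⟨dv (y : L), fun w hw => hy.2 w hw, ?_⟩
  rw [← h2]
  exact Nd_dv y

end Pool.Agent.H69H
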