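import Pool.Agent.Lib.H69H.Defs
import Pool.Agent.Lib.CFT.B14

set_option autoImplicit false
set_option linter.unusedSectionVars false

namespace Pool.Agent.H69H

open NumberField IsDedekindDomain CFT

variable {K : Type} [Field K] [NumberField K] {L : Type} [Field L] [NumberField L] [Algebra K L]

/-- Elements near `1` at `S`, negative at `v` and positive at the other real places. -/
theorem exists_sign (S : Finset (Pr K)) (N : ℕ) (v : InfinitePlace K) :
    ∃ κ : Kˣ, (∀ u ∈ S, u.valuation K ((κ : K) - 1) < WithZero.exp (-(N : ℤ))) ∧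
      ∀ φ : K →+* ℝ, (InfinitePlace.mk ((algebraMap ℝ ℂ).comp φ) = v → φ (κ : K) < 0) ∧
        (InfinitePlace.mk ((algebraMap ℝ ℂ).comp φ) ≠ v → 0 < φ (κ : K)) := by
  classical
  obtain ⟨x, hx, h1, h2⟩ := CFT.approx S N (fun _ => (1 : K))
    (fun φ => if InfinitePlace.mk ((algebraMap ℝ ℂ).comp φ) = v then (-1 : ℝ) else 1) (fun φ => by
      split_ifs <;> norm_num)
  refine ⟨Units.mk0 x hx, h1, fun φ => ⟨fun h => ?_, fun h => ?_⟩⟩
  · have := h2 φ
    rw [if_pos h] at this
    rw [Units.val_mk0]
    linarith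
  · have := h2 φ
    rw [if_neg h] at this
    rw [Units.val_mk0]
    linarith

end Pool.Agent.H69H
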