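import Pool.Agent.Lib.H69H.Defs
import Pool.Agent.Lib.CFT.ZF

set_option autoImplicit false

namespace Pool.Agent.H69H

open NumberField IsDedekindDomain CFT

/-- Finiteness of the ray class group (helper33, CFT/ZF.lean). -/
theorem Pray_index {K : Type} [Field K] [NumberField K] (S : Finset (Pr K)) (N : ℕ) : (Pray S N).index ≠ 0 :=
  (CFTZ.pray_fin S N).index_ne_zero

end Pool.Agent.H69H
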