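import Pool.Agent.Lib.H69H.Defs
import Pool.Agent.Lib.H69H.P2
import Pool.Agent.Lib.H69H.D2
import Pool.Agent.Lib.H69H.D5
import Pool.Agent.Lib.H69H.Z1

set_option autoImplicit false
set_option linter.unusedSectionVars false

namespace Pool.Agent.H69H

open NumberField IsDedekindDomain CFT

variable {K : Type} [Field K] [NumberField K] {L : Type} [Field L] [NumberField L] [Algebra K L]

theorem t2_rep {A : Type*} [AddCommGroup A] (H : AddSubgroup A) (h : H.index ≠ 0) : ∃ F : Finset A, ∀ D, ∃ E ∈ F, D - E ∈ H := by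
  classical
  have hfi : H.FiniteIndex := ⟨h⟩
  have hf : Finite (A ⧸ H) := AddSubgroup.finite_quotient_of_finiteIndex
  have := Fintype.ofFinite (A ⧸ H)
  refine ⟨Finset.univ.image fun q : A ⧸ H => q.out, fun D => ⟨_, Finset.mem_image.2 ⟨(D : A ⧸ H), Finset.mem_univ _, rfl⟩, ?_⟩⟩
  rw [sub_eq_neg_add]
  exact QuotientAddGroup.eq.1 (QuotientAddGroup.out_eq' _)

theorem t2_near (w : Pr L) (N : ℕ) (x : K) (h : (below K w).valuation K (x - 1) < WithZero.exp (-(N : ℤ))) :
    w.valuation L (algebraMap K L x - 1) < WithZero.exp (-(N : ℤ)) := by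
  have h1 : algebraMap K L x - 1 = algebraMap K L (x - 1) := by rw [map_sub, map_one]
  rw [h1]
  generalize x - 1 = z at h
  by_cases hz : z = 0
  · subst hz
    rw [map_zero, map_zero]
    exact WithZero.zero_lt_coe _
  · have hz' : algebraMap K L z ≠ 0 := by
      rw [Ne, map_eq_zero]
      exact hz
    rw [val_eq _ hz, WithZero.exp_lt_exp] at h
    rw [val_eq _ hz', WithZero.exp_lt_exp, od_algebraMap]
    have h2 : (1 : ℤ) ≤ (w.asIdeal.ramificationIdx (𝓞 K) : ℤ) := by
      have h3 := ram_ne (K := K) w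
      have h4 : (0 : ℤ) ≤ (w.asIdeal.ramificationIdx (𝓞 K) : ℤ) := Int.natCast_nonneg _
      omega
    have h3 : (0 : ℤ) ≤ N := Int.natCast_nonneg _
    nlinarith

/-- PROOF. Let `N0` be the number of `hV.ray`. `N := N0`: if `Ray S N κ` (or only the congruences) then for `w` above `v ∈ S`: `w.valuation (κ - 1) = v.valuation (κ - 1) ^ e`, `e ≥ 1` (`HeightOneSpectrum.valuation_liesOver`), `< exp (-N)`: so `kU κ ∈ V`. Let `SL` be the set of the primes above `S` (`fib_fin`).
`Pray_index` (Z1) for `K, S, N`: finitely many `D_i` (representatives: a finite quotient has finitely many classes; `AddSubgroup.index ≠ 0` gives a finite quotient) such that each `D` is `D_i +` an element of `Pray S N`. `Pray_index` for `L, SL, N`: finitely many `D'_j` with `D = D'_j + P`, `P ∈ Pray SL N`, i.e.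
`P w = od w y` for `w ∉ SL`, `Ray SL N y`, so `y ∈ V` by `hV.ray`. For each `v ∈ RamInf K L` (a real place) take `κ_v` of `exists_sign S N v` (P2, no hypothesis on v). `T :=` the set of the primes `v ∉ S` which are in the support of some `D_i`, or below a prime in the support of some `D'_j`, or in the support of some `dv κ_v`.
(a) `D - D_i ∈ Pray S N`; replace `D_i` by `E` = its part outside `S`, which is in `DTK T`: the difference is supported in `S`, so it is in `Pray S N` (with `x = 1`). (b) the same: `E` = the part of `D'_j` above the complement of `S`. (c) `κ_v` is a unit at `S` (congruent to `1`), so `kU κ_v ∈ ET V T` (`od_algebraMap`, D2). -/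
theorem exists_T [IsGalois K L] {σ : L ≃ₐ[K] L} {S : Finset (Pr K)} {V : Subgroup Lˣ} (hV : IsV σ S V) :
    ∃ N T, IsT σ S V N T := by
  classical
  obtain ⟨N, hN⟩ := hV.ray
  have hfin : {w : Pr L | below K w ∈ S}.Finite := by
    refine (S.finite_toSet.biUnion fun v _ => fib_fin (L := L) K v).subset fun w hw => ?_
    exact Set.mem_biUnion (x := below K w) hw rfl
  have hSL : ∀ w : Pr L, w ∈ hfin.toFinset ↔ below K w ∈ S := fun w => hfin.mem_toFinset
  obtain ⟨F, hF⟩ := t2_rep (Pray S N) (Pray_index S N)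
  obtain ⟨F', hF'⟩ := t2_rep (Pray hfin.toFinset N) (Pray_index hfin.toFinset N)
  choose k hk1 hk2 using exists_sign S N
  refine ⟨N, (F.biUnion (fun D => D.support) ∪ F'.biUnion (fun D => D.support.image (below K)) ∪
    Finset.univ.biUnion (fun v => (dv (k v : K)).support)) \ S, ?_, ?_, ?_, ?_, ?_⟩
  · intro v hv
    exact (Finset.mem_sdiff.1 hv).2
  · intro κ hκ
    refine hN _ fun w hw => ?_
    exact t2_near w N _ (hκ.cong _ hw)
  · intro D
    obtain ⟨D0, h1, h2⟩ := hF D
    refine ⟨D0.filter (fun v => v ∉ S), ?_, ?_⟩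
    · intro v hv
      rw [Finsupp.filter_apply]
      split_ifs with hvS
      · rfl
      · by_contra h3
        apply hv
        rw [Finset.mem_sdiff, Finset.mem_union, Finset.mem_union, Finset.mem_biUnion]
        exact ⟨Or.inl (Or.inl ⟨D0, h1, Finsupp.mem_support_iff.2 h3⟩), hvS⟩
    · have h3 : D - D0.filter (fun v => v ∉ S) = (D - D0) + (D0 - D0.filter (fun v => v ∉ S)) := by abel
      rw [h3]
      refine (Pray S N).add_mem h2 ⟨1, ray_one S N, fun v hv => ?_⟩
      rw [Finsupp.sub_apply, Finsupp.filter_apply, if_pos hv, sub_self, od_one]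
  · intro D
    obtain ⟨D0, h1, y, hy, h2⟩ := hF' D
    refine ⟨D0.filter (fun w => below K w ∉ S), ?_, Units.mk0 y hy.ne, ?_, ?_⟩
    · intro w hw
      rw [Finsupp.filter_apply]
      split_ifs with hvS
      · rfl
      · by_contra h3
        apply hw
        rw [Finset.mem_sdiff, Finset.mem_union, Finset.mem_union, Finset.mem_biUnion, Finset.mem_biUnion]
        exact ⟨Or.inl (Or.inr ⟨D0, h1, Finset.mem_image.2 ⟨w, Finsupp.mem_support_iff.2 h3, rfl⟩⟩), hvS⟩
    · refine hN _ fun w hw => ?_
      exact hy.cong w ((hSL w).2 hw)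
    · intro w hw
      have h3 := h2 w (fun h => hw ((hSL w).1 h))
      rw [Finsupp.sub_apply] at h3
      rw [Finsupp.filter_apply, if_pos hw, Units.val_mk0, ← h3]
      ring
  · intro v _
    refine ⟨k v, ⟨hN _ fun w hw => t2_near w N _ (hk1 v _ hw), fun w hw => ?_⟩, fun φ => ⟨(hk2 v φ).1, fun _ h => (hk2 v φ).2 h⟩⟩
    show od w (algebraMap K L (k v : K)) = 0
    rw [od_algebraMap]
    by_cases hwS : below K w ∈ S
    · have h1 := hk1 v _ hwS
      have h2 : (below K w).valuation K (k v : K) = 1 := by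
        have h3 : (k v : K) = 1 + ((k v : K) - 1) := by ring
        rw [h3]
        exact Valuation.map_one_add_of_lt _ (h1.trans_le (exp_le_one N))
      unfold od
      rw [h2, WithZero.log_one, neg_zero, mul_zero]
    · have h1 : dv (k v : K) (below K w) = 0 := by
        by_contra h3
        apply hw
        rw [Finset.mem_sdiff, Finset.mem_union]
        exact ⟨Or.inr (Finset.mem_biUnion.2 ⟨v, Finset.mem_univ _, Finsupp.mem_support_iff.2 h3⟩), hwS⟩
      rw [dv_apply] at h1
      rw [h1, mul_zero]

end Pool.Agent.H69H
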