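import Pool.Agent.Lib.H69H.V1b

set_option autoImplicit false
set_option linter.unusedSectionVars false

/-! Existence of the group `V`. -/

namespace Pool.Agent.H69H

open NumberField IsDedekindDomain CFT WithZero

variable {K : Type} [Field K] [NumberField K] {L : Type} [Field L] [NumberField L] [Algebra K L]

theorem sU_mul (g h : L ≃ₐ[K] L) (x : Lˣ) : sU (g * h) x = sU g (sU h x) := by
  ext
  rfl

theorem sU_one (x : Lˣ) : sU (1 : L ≃ₐ[K] L) x = x := by
  ext
  rfl

variable [IsGalois K L] {S : Finset (Pr K)} {c d k : ℤ}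

/-- The set of the `g` with `g y ∈ y V`. -/
def trH {V : Subgroup Lˣ} (hV : ∀ (g : L ≃ₐ[K] L), ∀ x ∈ V, sU g x ∈ V) (y : Lˣ) : Subgroup (L ≃ₐ[K] L) where
  carrier := {g | ∃ u ∈ V, sU g y = y * u}
  one_mem' := ⟨1, one_mem _, by rw [sU_one, mul_one]⟩
  mul_mem' := by
    rintro g h ⟨u, hu, h1⟩ ⟨u', hu', h2⟩
    exact ⟨u * sU g u', mul_mem hu (hV g _ hu'), by rw [sU_mul, h2, map_mul, h1, mul_assoc]⟩
  inv_mem' := by
    rintro g ⟨u, hu, h1⟩
    refine ⟨(sU g⁻¹ u)⁻¹, inv_mem (hV _ _ hu), ?_⟩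
    have h2 := congrArg (sU g⁻¹) h1
    rw [← sU_mul, inv_mul_cancel, sU_one, map_mul] at h2
    rw [eq_mul_inv_iff_mul_eq]
    exact h2.symm

/-- The set of the `h` such that the coordinates `h g` and `g` of `μ` are near for all `g`. -/
def coH (S : Finset (Pr K)) (k : ℤ) (μ : L) : Subgroup (L ≃ₐ[K] L) where
  carrier := {h | ∀ v ∈ S, ∀ g, v.valuation K (co (h * g) μ - co g μ) ≤ exp (-k)}
  one_mem' := fun v _ g => by
    rw [one_mul, sub_self, map_zero]
    exact zero_le
  mul_mem' := fun {h h'} h1 h2 v hv g => by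
    have e : co (h * h' * g) μ - co g μ = (co (h * (h' * g)) μ - co (h' * g) μ) + (co (h' * g) μ - co g μ) := by
      rw [mul_assoc]
      ring
    rw [e]
    exact Valuation.map_add_le _ (h1 v hv _) (h2 v hv _)
  inv_mem' := fun {h} h1 v hv g => by
    have e : co (h⁻¹ * g) μ - co g μ = -(co (h * (h⁻¹ * g)) μ - co (h⁻¹ * g) μ) := by
      rw [mul_inv_cancel_left]
      ring
    rw [e, Valuation.map_neg]
    exact h1 v hv _

theorem exists_V_aux (σ : L ≃ₐ[K] L) (hσ : ∀ x, x ∈ Subgroup.zpowers σ) (hS : S.Nonempty) :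
    ∃ V : Subgroup Lˣ, IsV σ S V := by
  classical
  obtain ⟨c, d, h⟩ := exists_cst L S
  obtain ⟨c2, hc2, hval⟩ := Mk_val_le L S
  obtain ⟨b, hb0, hb⟩ := exists_bound S fun v => v.valuation K ((Module.finrank K L : K)⁻¹)
  obtain ⟨t, ht0, ht⟩ := exists_bound S fun v => v.valuation K (Algebra.trace K L (IsGalois.normalBasis K L 1))
  have hc0 := h.c0
  have hd0 := h.d0
  obtain ⟨k, hkdef⟩ : ∃ k : ℤ, k = 2 * c + d + c2 + b + t + 1 := ⟨_, rfl⟩
  have hk : 2 * c + d + 1 ≤ k := by omega
  have hk' : 2 * c + d + 1 ≤ k - b := by omega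
  obtain ⟨v0, hv0⟩ := hS
  obtain ⟨w0, hw0⟩ := below_surj L v0
  have hlt : ∀ x ∈ Mk L S (k - b), ∀ w : Pr L, below K w ∈ S → w.valuation L x < 1 := by
    intro x hx w hw
    refine (hval _ (by omega) x hx w hw).trans_lt ?_
    rw [← exp_zero, exp_lt_exp]
    omega
  have hlek : Mk L S k ≤ Mk L S (k - b) := Mk_mono (by omega)
  refine ⟨Vk h hk, fun x hx => Vk_stable h hk σ hx, ?_, ?_, ?_⟩
  · intro x hx w hw
    have h1 := hlt _ (hlek hx) w hw
    have h2 : w.valuation L (x : L) = 1 := by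
      have e : (x : L) = 1 + ((x : L) - 1) := by ring
      rw [e]
      exact Valuation.map_one_add_of_lt _ h1
    unfold od
    rw [h2, log_one, neg_zero]
  · intro y hy
    -- step A
    have hA : ∀ g : L ≃ₐ[K] L, ∃ u ∈ Vk h hk, sU g y = y * u := by
      have h1 : σ ∈ trH (V := Vk h hk) (fun g x hx => Vk_stable h hk g hx) y :=
        ⟨dif (sU σ) y, hy, by rw [dif_apply, mul_div_cancel]⟩
      intro g
      exact (Subgroup.zpowers_le.2 h1) (hσ g)
    choose u hu huy using hA
    have hn0 : (Module.finrank K L : K) ≠ 0 := by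
      exact_mod_cast (Module.finrank_pos (R := K) (M := L)).ne'
    -- step B
    obtain ⟨ν, hν⟩ : ∃ ν : L, ν = (Module.finrank K L : K)⁻¹ • ∑ g : L ≃ₐ[K] L, ((u g : L) - 1) := ⟨_, rfl⟩
    have hνk : ν ∈ Mk L S (k - b) := by
      rw [hν]
      have h1 : ∑ g : L ≃ₐ[K] L, ((u g : L) - 1) ∈ Mk L S k := sum_mem fun g _ => hu g
      have h2 := smul_mem_Mk (i := -b) (c := (Module.finrank K L : K)⁻¹) (fun v hv => by
        rw [neg_neg]
        exact hb v hv) h1
      have e : -b + k = k - b := by ring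
      rwa [e] at h2
    have hcard : (Finset.univ : Finset (L ≃ₐ[K] L)).card = Module.finrank K L := by
      rw [Finset.card_univ, Fintype.card_eq_nat_card, IsGalois.card_aut_eq_finrank]
    have hB : algebraMap K L ((Module.finrank K L : K)⁻¹ * Algebra.trace K L (y : L)) = (y : L) * (1 + ν) := by
      have e1 : ∑ g : L ≃ₐ[K] L, g (y : L) = (y : L) * ((Module.finrank K L : L) + ∑ g : L ≃ₐ[K] L, ((u g : L) - 1)) := by
        rw [Finset.sum_sub_distrib, Finset.sum_const, hcard, nsmul_eq_mul, mul_one, add_sub_cancel, Finset.mul_sum]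
        refine Finset.sum_congr rfl fun g _ => ?_
        have := congrArg (fun z : Lˣ => (z : L)) (huy g)
        exact this
      rw [map_mul, trace_eq_sum_automorphisms, e1, hν, Algebra.smul_def]
      have e2 : algebraMap K L (Module.finrank K L : K)⁻¹ * (Module.finrank K L : L) = 1 := by
        have : (Module.finrank K L : L) = algebraMap K L (Module.finrank K L : K) := by
          rw [map_natCast]
        rw [this, ← map_mul, inv_mul_cancel₀ hn0, map_one]
      linear_combination (y : L) * e2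
    have hν1 : (1 : L) + ν ≠ 0 := by
      intro h0
      have h1 := hlt ν hνk w0 (by rw [hw0]; exact hv0)
      have h2 : ν = -1 := by linear_combination h0
      rw [h2, Valuation.map_neg, map_one] at h1
      exact lt_irrefl _ h1
    have hα : (Module.finrank K L : K)⁻¹ * Algebra.trace K L (y : L) ≠ 0 := by
      intro h0
      rw [h0, map_zero] at hB
      exact mul_ne_zero y.ne_zero hν1 hB.symm
    obtain ⟨α, hαdef⟩ : ∃ α : Kˣ, (α : K) = (Module.finrank K L : K)⁻¹ * Algebra.trace K L (y : L) := ⟨Units.mk0 _ hα, rfl⟩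
    rw [← hαdef] at hB
    obtain ⟨y', hy'⟩ : ∃ y' : Lˣ, y' = y * (kU K L α)⁻¹ := ⟨_, rfl⟩
    have hy'V : y' ∈ Vk h hk' := by
      rw [← inv_mem_iff]
      rw [mem_Vk]
      have : ((y'⁻¹ : Lˣ) : L) = 1 + ν := by
        rw [hy', mul_inv_rev, inv_inv, Units.val_mul, kU_coe, hB, mul_comm (y : L), mul_assoc, Units.mul_inv, mul_one]
      rw [this, add_sub_cancel_left]
      exact hνk
    obtain ⟨μ, hμ⟩ : ∃ μ : L, μ = (y' : L) - 1 := ⟨_, rfl⟩
    have hμk : μ ∈ Mk L S (k - b) := by
      rw [hμ]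
      exact hy'V
    -- step C
    have hC : σ μ - μ ∈ Mk L S k := by
      have e1 : sU σ y' = dif (sU σ) y * y' := by
        rw [hy', map_mul, map_inv]
        have : sU σ (kU K L α) = kU K L α := by
          ext
          rw [sU_coe, kU_coe, AlgEquiv.commutes]
        rw [this, dif_apply, ← mul_assoc, div_mul_cancel]
      have e2 : σ (y' : L) = ((dif (sU σ) y : Lˣ) : L) * (y' : L) := by
        have := congrArg (fun z : Lˣ => (z : L)) e1
        exact this
      have e3 : σ μ - μ = (((dif (sU σ) y : Lˣ) : L) - 1) + (((dif (sU σ) y : Lˣ) : L) - 1) * μ := by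
        rw [hμ, map_sub, map_one, e2]
        ring
      rw [e3]
      refine add_mem hy (Mk_mono ?_ (h.mul _ _ _ _ hy hμk))
      omega
    -- step D
    have hD : ∀ g, ∀ v ∈ S, v.valuation K (co g μ - co 1 μ) ≤ exp (-k) := by
      have h1 : σ⁻¹ ∈ coH S k μ := fun v hv g => by
        have := hC v hv g
        rwa [map_sub, co_gal] at this
      have h2 : σ ∈ coH S k μ := inv_mem_iff.1 h1
      intro g v hv
      have := (Subgroup.zpowers_le.2 h2) (hσ g) v hv 1
      rwa [mul_one] at this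
    -- step E
    obtain ⟨κ0, hκ0⟩ : ∃ κ0 : K, κ0 = co 1 μ * Algebra.trace K L (IsGalois.normalBasis K L 1) := ⟨_, rfl⟩
    have htr : ∑ g : L ≃ₐ[K] L, IsGalois.normalBasis K L g = algebraMap K L (Algebra.trace K L (IsGalois.normalBasis K L 1)) := by
      rw [trace_eq_sum_automorphisms]
      exact Finset.sum_congr rfl fun g _ => IsGalois.normalBasis_apply g
    have hμ' : μ - algebraMap K L κ0 ∈ Mk L S k := by
      have e : μ - algebraMap K L κ0 = ∑ g : L ≃ₐ[K] L, (co g μ - co 1 μ) • IsGalois.normalBasis K L g := by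
        rw [hκ0, map_mul, ← htr, ← Algebra.smul_def, Finset.smul_sum]
        conv_lhs => rw [← sum_co (K := K) μ]
        rw [← Finset.sum_sub_distrib]
        refine Finset.sum_congr rfl fun g _ => ?_
        rw [sub_smul, sum_co]
      intro v hv g
      rw [e, map_sum, Finset.sum_eq_single g]
      · rw [map_smul, co_basis, if_pos rfl, smul_eq_mul, mul_one]
        exact hD g v hv
      · intro g' _ hg'
        rw [map_smul, co_basis, if_neg hg', smul_zero]
      · intro hg
        exact absurd (Finset.mem_univ g) hg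
    -- step F
    have hκ1 : ∀ v ∈ S, v.valuation K (1 + κ0) = 1 := by
      intro v hv
      refine Valuation.map_one_add_of_lt _ ?_
      rw [hκ0, map_mul]
      refine (mul_le_mul' (hμk v hv 1) (ht v hv)).trans_lt ?_
      rw [← exp_add, ← exp_zero, exp_lt_exp]
      omega
    have hκne : 1 + κ0 ≠ 0 := by
      intro h0
      have := hκ1 v0 hv0
      rw [h0, map_zero] at this
      exact zero_ne_one this
    obtain ⟨β, hβ⟩ : ∃ β : Kˣ, (β : K) = 1 + κ0 := ⟨Units.mk0 _ hκne, rfl⟩
    refine ⟨α * β, y' * (kU K L β)⁻¹, ?_, ?_⟩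
    · rw [mem_Vk]
      have e : ((y' * (kU K L β)⁻¹ : Lˣ) : L) - 1 = (β : K)⁻¹ • (μ - algebraMap K L κ0) := by
        rw [Units.val_mul, Units.val_inv_eq_inv_val, kU_coe, hμ, Algebra.smul_def, map_inv₀]
        have h1 : algebraMap K L (β : K) ≠ 0 := (map_ne_zero _).2 β.ne_zero
        field_simp
        rw [hβ, map_add, map_one]
        ring
      rw [e]
      have := smul_mem_Mk (i := 0) (c := (β : K)⁻¹) (fun v hv => by
        rw [map_inv₀, hβ, hκ1 v hv, inv_one, neg_zero, exp_zero]) hμ'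
      rwa [zero_add] at this
    · rw [hy', map_mul]
      have : kU K L α * kU K L β * (y * (kU K L α)⁻¹ * (kU K L β)⁻¹) =
          y * (kU K L α * (kU K L α)⁻¹) * (kU K L β * (kU K L β)⁻¹) := by
        simp only [mul_left_comm, mul_assoc]
      rw [this, mul_inv_cancel, mul_inv_cancel, mul_one, mul_one]
  · obtain ⟨N, hN⟩ := Mk_of_val L S k
    exact ⟨N, fun y hy => hN _ hy⟩

/-- The group `V` exists. -/
theorem exists_V (σ : L ≃ₐ[K] L) (hσ : ∀ x, x ∈ Subgroup.zpowers σ) (S : Finset (Pr K)) :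
    ∃ V : Subgroup Lˣ, IsV σ S V := by
  rcases S.eq_empty_or_nonempty with rfl | hS
  · refine ⟨⊤, fun _ _ => trivial, fun _ _ w hw => ?_, fun y _ => ⟨1, y, trivial, ?_⟩, 0, fun _ _ => trivial⟩
    · exact absurd hw (Finset.notMem_empty _)
    · rw [map_one, one_mul]
  · exact exists_V_aux σ hσ hS

end Pool.Agent.H69H
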