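import Pool.Agent.Lib.H69H.Defs
import Pool.Agent.Lib.H69H.E2
import Pool.Agent.Lib.H69H.E3
import Pool.Agent.Lib.H69H.E4
import Pool.Agent.Lib.H69H.E5
import Pool.Agent.Lib.H69H.E6
import Pool.Agent.Lib.H69H.T2
import Pool.Agent.Lib.H69H.V1
import Pool.Agent.Lib.H69H.Z1

set_option autoImplicit false
set_option linter.unusedSectionVars false

/-! The first inequality. -/

namespace Pool.Agent.H69H

open NumberField IsDedekindDomain CFT

variable {K : Type} [Field K] [NumberField K] {L : Type} [Field L] [NumberField L] [Algebra K L]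

theorem final_arith {D0 a r I n : ℕ} {t : ℚ} (hn : 0 < n) (hD0 : D0 ≠ 0) (h1 : D0 ≤ I * a)
    (h2 : ((a * 2 ^ r : ℕ) : ℚ) = t) (h3 : t ≤ 2 ^ r / n * D0) : n ≤ I := by
  have hD : (0 : ℚ) < D0 := by exact_mod_cast Nat.pos_of_ne_zero hD0
  have hn' : (0 : ℚ) < n := by exact_mod_cast hn
  have h2r : (0 : ℚ) < 2 ^ r := by positivity
  have h4 : (a : ℚ) ≤ D0 / n := by
    have : (a : ℚ) * 2 ^ r ≤ 2 ^ r / n * D0 := by
      rw [← h2] at h3
      push_cast at h3
      exact h3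
    have e : (2 : ℚ) ^ r / n * D0 = D0 / n * 2 ^ r := by ring
    rw [e] at this
    exact le_of_mul_le_mul_right this h2r
  have h5 : (D0 : ℚ) ≤ I * (D0 / n) := by
    have : (D0 : ℚ) ≤ I * a := by exact_mod_cast h1
    exact this.trans (mul_le_mul_of_nonneg_left h4 (by positivity))
  have h6 : (n : ℚ) ≤ I := by
    have e : (I : ℚ) * (D0 / n) = I * D0 / n := by ring
    rw [e, le_div_iff₀ hn', mul_comm (D0 : ℚ)] at h5
    exact le_of_mul_le_mul_right h5 hD
  exact_mod_cast h6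

theorem QQ_relIndex_le [IsGalois K L] {σ : L ≃ₐ[K] L} (hσ : ∀ x, x ∈ Subgroup.zpowers σ) {S T : Finset (Pr K)} {V : Subgroup Lˣ}
    {N : ℕ} (hV : IsV σ S V) (hT : IsT σ S V N T) :
    (QQ (L := L) V T).relIndex (DTK T) ≤ (Pray S N ⊔ (Nd K L).range).index := by
  -- the index of `P`
  set P := Pray S N ⊔ (Nd K L).range with hPdef
  have hP0 : P.index ≠ 0 := by
    intro h0
    have := AddSubgroup.index_dvd_of_le (show Pray S N ≤ P from le_sup_left)
    rw [h0, zero_dvd_iff] at this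
    exact Pray_index S N this
  have htop : P ⊔ DTK T = ⊤ := by
    rw [eq_top_iff]
    intro D _
    obtain ⟨E, hE, hD⟩ := hT.a D
    have e : D = (D - E) + E := by abel
    rw [e]
    exact AddSubgroup.add_mem_sup (le_sup_left (a := Pray S N) hD) hE
  have h1 : P.relIndex (DTK T) = P.index := by
    rw [← AddSubgroup.relIndex_sup_right, sup_comm, htop, AddSubgroup.relIndex_top_right]
  have h2 : (P ⊓ DTK T).relIndex (DTK T) = P.index := by
    rw [AddSubgroup.inf_relIndex_right, h1]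
  rw [← h2]
  exact AddSubgroup.relIndex_le_of_le_left (inter_le_QQ hσ hV hT) (by rw [h2]; exact hP0)

theorem first_ineq' [IsGalois K L] (σ : L ≃ₐ[K] L) (hσ : ∀ x, x ∈ Subgroup.zpowers σ) (S : Finset (Pr K))
    (hS : ∀ v, v ∉ S → Unr K L v) :
    ∃ N : ℕ, Module.finrank K L ≤ (Pray S N ⊔ (Nd K L).range).index := by
  obtain ⟨V, hV⟩ := exists_V σ hσ S
  obtain ⟨N, T, hT⟩ := exists_T hV
  refine ⟨N, ?_⟩
  have hU : ∀ v ∈ T, Unr K L v := fun v hv => hS v (hT.disj v hv)
  obtain ⟨t, hE, ht⟩ := her_ET hσ hS hV hT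
  have hm1 := tate_ET hσ hS hV hT
  obtain ⟨hP1, hP2⟩ := PP_index hσ hV hT
  have hE0 := hE.left
  have hE1 := hE.eq
  rw [hm1, Nat.cast_one, mul_one, ← hP2] at hE1
  have ha : ((ET V T).map (nrm (Module.finrank K L) (sU σ))).relIndex (PP V T) ≠ 0 := by
    intro h0
    rw [← hP2, h0, zero_mul] at hE0
    exact hE0 rfl
  have hQ := QQ_index hσ hV hT ha
  obtain ⟨_, _, _, hD0⟩ := her_MT σ hσ T hU
  have hn : 0 < Module.finrank K L := Module.finrank_pos
  have hI := final_arith hn hD0 hQ hE1 ht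
  exact hI.trans (QQ_relIndex_le hσ hV hT)

/-- THE FIRST INEQUALITY. -/
theorem first_ineq [IsGalois K L] (hc : IsCyclic (L ≃ₐ[K] L)) (S : Finset (Pr K)) (hS : ∀ v : Pr K, ¬ Unr K L v → v ∈ S) :
    ∃ N : ℕ, Module.finrank K L ≤ (Pray S N ⊔ (Nd K L).range).index := by
  obtain ⟨σ, hσ⟩ := hc.exists_generator
  exact first_ineq' σ hσ S fun v hv => by
    by_contra h
    exact hv (hS v h)

end Pool.Agent.H69H
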