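import Pool.Agent.Lib.H69H.F1

set_option autoImplicit false
set_option linter.unusedSectionVars false

/-! The Hasse norm theorem for cyclic extensions (elements in a ray), as a by-product of the two inequalities. -/

namespace Pool.Agent.H69H

open NumberField IsDedekindDomain CFT

variable {K : Type} [Field K] [NumberField K] {L : Type} [Field L] [NumberField L] [Algebra K L]

theorem DTK_mono {T T' : Finset (Pr K)} (h : T ⊆ T') : DTK T ≤ DTK T' := fun _ hD v hv => hD v fun h1 => hv (h h1)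

theorem DTL_mono {T T' : Finset (Pr K)} (h : T ⊆ T') : DTL L T ≤ DTL L T' := fun _ hD w hw => hD w fun h1 => hw (h h1)

theorem ET_mono (V : Subgroup Lˣ) {T T' : Finset (Pr K)} (h : T ⊆ T') : ET V T ≤ ET V T' := fun _ hx =>
  ⟨hx.1, fun w hw => hx.2 w fun h1 => hw (h h1)⟩

theorem IsT.mono {σ : L ≃ₐ[K] L} {S : Finset (Pr K)} {V : Subgroup Lˣ} {N : ℕ} {T T' : Finset (Pr K)} (hT : IsT σ S V N T)
    (h : T ⊆ T') (hd : ∀ v ∈ T', v ∉ S) : IsT σ S V N T' where
  disj := hd
  ray := hT.ray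
  a D := by
    obtain ⟨E, hE, h1⟩ := hT.a D
    exact ⟨E, DTK_mono h hE, h1⟩
  b D := by
    obtain ⟨E, hE, h1⟩ := hT.b D
    exact ⟨E, DTL_mono h hE, h1⟩
  c v hv := by
    obtain ⟨κ, hκ, h1⟩ := hT.c v hv
    exact ⟨κ, ET_mono V h hκ, h1⟩

/-- The conorm, multiplicative notation. -/
noncomputable def conM (K L : Type) [Field K] [NumberField K] [Field L] [NumberField L] [Algebra K L] :
    Multiplicative (Dv K) →* Multiplicative (Dv L) := AddMonoidHom.toMultiplicative (con K L)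

theorem conM_inj : Function.Injective (conM K L) := by
  intro D E h
  exact congrArg Multiplicative.ofAdd (con_injective (congrArg Multiplicative.toAdd h))

/-- The elements of `PP` whose divisor is the norm of a divisor supported above `T`. -/
noncomputable def ZZ (σ : L ≃ₐ[K] L) (V : Subgroup Lˣ) (T : Finset (Pr K)) : Subgroup Lˣ :=
  PP V T ⊓ ((MT L T).map (nrm (Module.finrank K L) (sM σ))).comap (dvU L)

variable [IsGalois K L] {σ : L ≃ₐ[K] L} (hσ : ∀ x, x ∈ Subgroup.zpowers σ) {S T : Finset (Pr K)} {V : Subgroup Lˣ} {N : ℕ}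

include hσ in
theorem hn_map_Nd : (AddSubgroup.toSubgroup ((DTL L T).map (Nd K L))).map (conM K L) =
    (MT L T).map (nrm (Module.finrank K L) (sM σ)) := by
  ext D
  constructor
  · rintro ⟨_, ⟨E, hE, rfl⟩, rfl⟩
    exact ⟨Multiplicative.ofAdd E, hE, congrArg Multiplicative.ofAdd (con_Nd σ hσ E).symm⟩
  · rintro ⟨E, hE, rfl⟩
    exact ⟨Multiplicative.ofAdd (Nd K L (Multiplicative.toAdd E)), ⟨Multiplicative.toAdd E, hE, rfl⟩,
      congrArg Multiplicative.ofAdd (con_Nd σ hσ (Multiplicative.toAdd E))⟩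

include hσ in
theorem hn_map_QQ : (AddSubgroup.toSubgroup (QQ (L := L) V T)).map (conM K L) =
    (PP V T).map (dvU L) ⊔ (MT L T).map (nrm (Module.finrank K L) (sM σ)) := by
  ext D
  constructor
  · rintro ⟨_, ⟨κ, h1, h2, E, hE, rfl⟩, rfl⟩
    refine Subgroup.mem_sup.2 ⟨dvU L (kU K L κ), ⟨kU K L κ, ⟨h1, κ, rfl, h2⟩, rfl⟩,
      nrm (Module.finrank K L) (sM σ) (Multiplicative.ofAdd E), ⟨Multiplicative.ofAdd E, hE, rfl⟩, ?_⟩
    apply Multiplicative.toAdd.injective
    rw [toAdd_mul, ← con_Nd σ hσ]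
    show dv ((kU K L κ : Lˣ) : L) + con K L (Nd K L E) = con K L (dv (κ : K) + Nd K L E)
    rw [kU_coe, map_add, con_dv]
  · intro hD
    obtain ⟨_, ⟨_, ⟨h1, κ, rfl, h2⟩, rfl⟩, _, ⟨E, hE, rfl⟩, rfl⟩ := Subgroup.mem_sup.1 hD
    refine ⟨Multiplicative.ofAdd (dv (κ : K) + Nd K L (Multiplicative.toAdd E)), ⟨κ, h1, h2, Multiplicative.toAdd E, hE, rfl⟩, ?_⟩
    apply Multiplicative.toAdd.injective
    rw [toAdd_mul]
    have e := con_Nd σ hσ (Multiplicative.toAdd E)
    rw [ofAdd_toAdd] at e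
    rw [← e]
    show con K L (dv (κ : K) + Nd K L (Multiplicative.toAdd E)) = dv ((kU K L κ : Lˣ) : L) + con K L (Nd K L (Multiplicative.toAdd E))
    rw [kU_coe, map_add, con_dv]

include hσ in
theorem hn_index : ((DTL L T).map (Nd K L)).relIndex (QQ (L := L) V T) = (ZZ σ V T).relIndex (PP V T) := by
  rw [← AddSubgroup.relIndex_toSubgroup, ← Subgroup.relIndex_map_map_of_injective _ _ (conM_inj (K := K) (L := L)), hn_map_Nd hσ, hn_map_QQ hσ,
    Subgroup.relIndex_sup_right, ← Subgroup.relIndex_comap]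
  unfold ZZ
  rw [Subgroup.inf_relIndex_left]

theorem hn_le : (DTL L T).map (Nd K L) ≤ QQ (L := L) V T := by
  rintro _ ⟨E, hE, rfl⟩
  refine ⟨1, by rw [map_one]; exact one_mem _, fun φ _ => by simp, E, hE, ?_⟩
  rw [Units.val_one, dv_one, zero_add]

theorem hn_QQ_le : QQ (L := L) V T ≤ DTK T := by
  rintro _ ⟨κ, h1, _, E, hE, rfl⟩ v hv
  rw [Finsupp.add_apply, dv_apply]
  have a : od v (κ : K) = 0 := by
    refine e5_od (L := L) _ _ fun w hw => ?_
    exact ((mem_ET V T _).1 h1).2 w (by rw [hw]; exact hv)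
  have b : Nd K L E v = 0 := by
    have : Nd K L E v = Nd K L (0 : Dv L) v := e5_Nd_congr _ _ _ fun w hw => by
      rw [hE w (by rw [hw]; exact hv)]
      rfl
    rw [this, map_zero]
    rfl
  rw [a, b, add_zero]

include hσ in
theorem hn_NE_le (hV : IsV σ S V) (hT : IsT σ S V N T) :
    (ET V T).map (nrm (Module.finrank K L) (sU σ)) ≤ ZZ σ V T := by
  refine le_inf (PP_index hσ hV hT).1 ?_
  rintro _ ⟨x, hx, rfl⟩
  refine ⟨dvU L x, hx.2, ?_⟩
  have hit : ∀ (i : ℕ) (x : Lˣ), dvU L ((sU σ)^[i] x) = (sM σ)^[i] (dvU L x) := by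
    intro i
    induction i with
    | zero => intro x; rfl
    | succ i ih =>
      intro x
      rw [Function.iterate_succ_apply, Function.iterate_succ_apply, ih, dvU_sU]
  rw [nrm_apply, nrm_apply, map_prod]
  exact Finset.prod_congr rfl fun i _ => (hit i x).symm

theorem hn_arith {D0 a a' z r I n : ℕ} {t : ℚ} (hn : 0 < n) (hD0 : D0 ≠ 0) (h1 : D0 = z * I) (hI : I ≤ n)
    (ha : a = a' * z) (h2 : ((a * 2 ^ r : ℕ) : ℚ) = t) (h3 : t ≤ 2 ^ r / n * D0) (h4 : a ≠ 0) : a' = 1 := by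
  have hn' : (0 : ℚ) < n := by exact_mod_cast hn
  have h2r : (0 : ℚ) < 2 ^ r := by positivity
  have h5 : (a : ℚ) * n ≤ D0 := by
    have h6 : (a : ℚ) * 2 ^ r ≤ 2 ^ r / n * D0 := by
      rw [← h2] at h3
      push_cast at h3
      exact h3
    have e : (2 : ℚ) ^ r / n * D0 = D0 / n * 2 ^ r := by ring
    rw [e] at h6
    have h7 := le_of_mul_le_mul_right h6 h2r
    rwa [le_div_iff₀ hn'] at h7
  have h8 : a * n ≤ D0 := by exact_mod_cast h5
  have hz : z ≠ 0 := by
    rintro rfl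
    rw [zero_mul] at h1
    exact hD0 h1
  have h9 : a' * z * n ≤ z * n := by
    rw [← ha]
    exact h8.trans (h1 ▸ Nat.mul_le_mul_left z hI)
  have h10 : a' * (z * n) ≤ 1 * (z * n) := by
    rw [one_mul, ← mul_assoc]
    exact h9
  have h11 := Nat.le_of_mul_le_mul_right h10 (Nat.mul_pos (Nat.pos_of_ne_zero hz) hn)
  have h12 : a' ≠ 0 := by
    rintro rfl
    rw [zero_mul] at ha
    exact h4 ha
  omega

include hσ in
theorem hn_ZZ_le (hS : ∀ v, v ∉ S → Unr K L v) (hV : IsV σ S V) (hT : IsT σ S V N T)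
    (h2 : (Pray S N ⊔ (Nd K L).range).index ≤ Module.finrank K L) :
    ZZ σ V T ≤ (ET V T).map (nrm (Module.finrank K L) (sU σ)) := by
  have hU : ∀ v ∈ T, Unr K L v := fun v hv => hS v (hT.disj v hv)
  obtain ⟨t, hE, ht⟩ := her_ET hσ hS hV hT
  have hm1 := tate_ET hσ hS hV hT
  obtain ⟨hP1, hP2⟩ := PP_index hσ hV hT
  have hE0 := hE.left
  have hE1 := hE.eq
  rw [hm1, Nat.cast_one, mul_one, ← hP2] at hE1
  have ha : ((ET V T).map (nrm (Module.finrank K L) (sU σ))).relIndex (PP V T) ≠ 0 := by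
    intro h0
    rw [← hP2, h0, zero_mul] at hE0
    exact hE0 rfl
  obtain ⟨_, _, _, hD0⟩ := her_MT σ hσ T hU
  have hn : 0 < Module.finrank K L := Module.finrank_pos
  have hI : (QQ (L := L) V T).relIndex (DTK T) ≤ Module.finrank K L := by
    refine le_trans ?_ h2
    exact QQ_relIndex_le hσ hV hT
  have e1 := AddSubgroup.relIndex_mul_relIndex _ _ _ (hn_le (K := K) (L := L) (V := V) (T := T)) hn_QQ_le
  rw [hn_index hσ] at e1
  have hZP : ZZ σ V T ≤ PP V T := inf_le_left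
  have e2 := Subgroup.relIndex_mul_relIndex _ _ _ (hn_NE_le hσ hV hT) hZP
  have := hn_arith hn hD0 e1.symm hI e2.symm hE1 ht ha
  exact Subgroup.relIndex_eq_one.1 this

/-- THE HASSE NORM THEOREM for cyclic extensions (elements in a ray), from the second inequality `h2`. -/
theorem hasse_of (hc : IsCyclic (L ≃ₐ[K] L)) (S : Finset (Pr K)) (hS : ∀ v : Pr K, ¬ Unr K L v → v ∈ S)
    (h2 : ∀ N : ℕ, (Pray S N ⊔ (Nd K L).range).index ≤ Module.finrank K L) :
    ∃ N : ℕ, ∀ x : K, Ray S N x → (∀ w : Pr L, below K w ∉ S → (w.asIdeal.inertiaDeg (𝓞 K) : ℤ) ∣ od (below K w) x) →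
      ∃ y : L, y ≠ 0 ∧ Algebra.norm K y = x := by
  classical
  obtain ⟨σ, hσ⟩ := hc.exists_generator
  obtain ⟨V, hV⟩ := exists_V σ hσ S
  obtain ⟨N, T, hT⟩ := exists_T hV
  refine ⟨N, fun x hx hdiv => ?_⟩
  have hS' : ∀ v, v ∉ S → Unr K L v := fun v hv => by
    by_contra h
    exact hv (hS v h)
  obtain ⟨T', hT'⟩ : ∃ T' : Finset (Pr K), T' = T ∪ (dv x).support.filter (fun v => v ∉ S) := ⟨_, rfl⟩
  have hTT : T ⊆ T' := by
    rw [hT']
    exact Finset.subset_union_left
  have hd : ∀ v ∈ T', v ∉ S := by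
    intro v hv
    rw [hT', Finset.mem_union, Finset.mem_filter] at hv
    rcases hv with hv | hv
    · exact hT.disj v hv
    · exact hv.2
  have hTm := hT.mono hTT hd
  obtain ⟨u, hu⟩ : ∃ u : Kˣ, (u : K) = x := ⟨Units.mk0 _ hx.ne, rfl⟩
  have huV : kU K L u ∈ V := hT.ray u (by rw [hu]; exact hx)
  have hod : ∀ v, v ∉ T' → od v x = 0 := by
    intro v hv
    by_cases hvS : v ∈ S
    · refine e5_od (L := L) _ _ fun w hw => ?_
      have := hV.unit _ huV w (by rw [hw]; exact hvS)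
      rwa [kU_coe, hu] at this
    · by_contra h0
      apply hv
      rw [hT', Finset.mem_union, Finset.mem_filter]
      exact Or.inr ⟨Finsupp.mem_support_iff.2 h0, hvS⟩
  have huT : kU K L u ∈ ET V T' := by
    rw [mem_ET]
    refine ⟨huV, fun w hw => ?_⟩
    rw [kU_coe, od_algebraMap, hu, hod _ hw, mul_zero]
  have hZ : kU K L u ∈ ZZ σ V T' := by
    refine ⟨⟨huT, u, rfl, fun φ _ => by rw [hu]; exact hx.pos φ⟩, ?_⟩
    have h3 : dvU L (kU K L u) ∈ (AddSubgroup.toSubgroup ((DTL L T').map (Nd K L))).map (conM K L) := by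
      refine ⟨Multiplicative.ofAdd (dv x), ?_, ?_⟩
      · show dv x ∈ (DTL L T').map (Nd K L)
        choose ab hab using fun v : Pr K => below_surj L v
        have e : dv x = ∑ v ∈ (dv x).support, Finsupp.single v (od v x) := (Finsupp.sum_single (dv x)).symm
        rw [e]
        refine sum_mem fun v hv => ?_
        have hvT : v ∈ T' := by
          by_contra h0
          exact (Finsupp.mem_support_iff.1 hv) (hod v h0)
        have hvS := hd v hvT
        obtain ⟨m, hm⟩ := hdiv (ab v) (by rw [hab]; exact hvS)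
        rw [hab] at hm
        refine ⟨Finsupp.single (ab v) m, fun w hw => ?_, ?_⟩
        · refine Finsupp.single_eq_of_ne ?_
          rintro rfl
          rw [hab] at hw
          exact hw hvT
        · rw [CFT.Nd_single, hab, hm]
      · apply Multiplicative.toAdd.injective
        show con K L (dv x) = dv ((kU K L u : Lˣ) : L)
        rw [con_dv, kU_coe, hu]
    rw [hn_map_Nd hσ] at h3
    exact h3
  obtain ⟨y, hy, hyx⟩ := hn_ZZ_le hσ hS' hV hTm (h2 N) hZ
  refine ⟨(y : L), y.ne_zero, ?_⟩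
  rw [nrm_eq σ hσ] at hyx
  have h4 := congrArg (fun z : Lˣ => (z : L)) hyx
  have h5 : algebraMap K L (Algebra.norm K (y : L)) = algebraMap K L (u : K) := h4
  rw [(algebraMap K L).injective h5, hu]

end Pool.Agent.H69H
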