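import Mathlib

set_option autoImplicit false

/-! Herbrand quotients as subgroup indices (for the first inequality of class field theory). -/

namespace Pool.Agent.H69H

variable {X : Type*} [CommGroup X]

/-- Two endomorphisms of a commutative group with `f g = g f = 1`. In the applications
`f x = σ x / x` and `g x = x * σ x * ... * σ ^ (n - 1) x`. -/
structure IsPair (f g : X →* X) : Prop where
  fg : ∀ x, f (g x) = 1
  gf : ∀ x, g (f x) = 1

/-- `A` is mapped into itself by `f` and `g`. -/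
structure IsStable (f g : X →* X) (A : Subgroup X) : Prop where
  left : ∀ x ∈ A, f x ∈ A
  right : ∀ x ∈ A, g x ∈ A

/-- The order of `ker f / im g` on the quotient `B / A` (`0` if infinite). -/
noncomputable def tate (f g : X →* X) (A B : Subgroup X) : ℕ :=
  (B.map g ⊔ A).relIndex (B ⊓ A.comap f)

/-- The Herbrand quotient of `B / A` is defined and equals `q`. -/
structure Her (f g : X →* X) (A B : Subgroup X) (q : ℚ) : Prop where
  left : tate f g A B ≠ 0
  right : tate g f A B ≠ 0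
  eq : (tate f g A B : ℚ) = q * tate g f A B

theorem IsPair.symm {f g : X →* X} (h : IsPair f g) : IsPair g f := ⟨h.gf, h.fg⟩

theorem IsStable.symm {f g : X →* X} {A : Subgroup X} (h : IsStable f g A) : IsStable g f A :=
  ⟨h.right, h.left⟩

theorem Her.pos {f g : X →* X} {A B : Subgroup X} {q : ℚ} (h : Her f g A B q) : 0 < q := by
  have h1 : (0 : ℚ) < tate f g A B := by exact_mod_cast Nat.pos_of_ne_zero h.left
  have h2 : (0 : ℚ) < tate g f A B := by exact_mod_cast Nat.pos_of_ne_zero h.right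
  rw [h.eq] at h1
  exact pos_of_mul_pos_left h1 h2.le

theorem exists_her {f g : X →* X} {A B : Subgroup X} (h1 : tate f g A B ≠ 0)
    (h2 : tate g f A B ≠ 0) : ∃ q, Her f g A B q :=
  ⟨tate f g A B / tate g f A B, h1, h2, by field_simp⟩

/-- Index formula for a homomorphism. -/
theorem relIndex_eq_map_mul_ker {Y : Type*} [CommGroup Y] (φ : X →* Y) {P Q : Subgroup X}
    (h : P ≤ Q) :
    P.relIndex Q = (P.map φ).relIndex (Q.map φ) * (P ⊓ φ.ker).relIndex (Q ⊓ φ.ker) := by
  have e1 : P ⊔ Q ⊓ φ.ker = Q ⊓ (P ⊔ φ.ker) := by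
    rw [inf_comm Q, inf_comm Q]
    exact sup_inf_assoc_of_le φ.ker h |>.symm
  have e2 : P ⊔ Q ⊓ φ.ker ≤ Q := sup_le h inf_le_left
  have e3 : (P ⊔ φ.ker) ⊔ Q = Q ⊔ φ.ker := by
    rw [sup_assoc, sup_comm φ.ker, ← sup_assoc, sup_eq_right.2 h]
  rw [Subgroup.relIndex_map_map, ← Subgroup.relIndex_mul_relIndex P (P ⊔ Q ⊓ φ.ker) Q le_sup_left e2,
    Subgroup.relIndex_sup_left, e1, Subgroup.inf_relIndex_left, ← e3, Subgroup.relIndex_sup_left,
    mul_comm, ← Subgroup.inf_relIndex_right P]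
  congr 2
  rw [← inf_assoc, inf_eq_left.2 h]

section six

variable {f g : X →* X} {A B C : Subgroup X}

/-- `X`: the index `[B ∩ (f C A) : f B A]`. -/
noncomputable def nX (f : X →* X) (A B C : Subgroup X) : ℕ :=
  (B.map f ⊔ A).relIndex (B ⊓ (C.map f ⊔ A))

/-- `Y`: the index `[C ∩ f⁻¹ A : g C (B ∩ f⁻¹ A)]`. -/
noncomputable def nY (f g : X →* X) (A B C : Subgroup X) : ℕ :=
  (C.map g ⊔ (B ⊓ A.comap f)).relIndex (C ⊓ A.comap f)

/-- `Z`: the index `[B ∩ f⁻¹ A : B ∩ (g C A)]`. -/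
noncomputable def nZ (f g : X →* X) (A B C : Subgroup X) : ℕ :=
  (B ⊓ (C.map g ⊔ A)).relIndex (B ⊓ A.comap f)

theorem tate_low (hp : IsPair f g) (hA : IsStable f g A) (hB : IsStable f g B)
    (hC : IsStable f g C) (hAB : A ≤ B) (hBC : B ≤ C) :
    tate f g A B = nX g A B C * nZ f g A B C := by
  unfold tate nX nZ
  refine (Subgroup.relIndex_mul_relIndex _ _ _ ?_ ?_).symm
  · refine le_inf (sup_le ?_ hAB) (sup_le_sup_right (Subgroup.map_mono hBC) _)
    rintro _ ⟨x, hx, rfl⟩
    exact hB.right x hx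
  · refine le_inf inf_le_left (inf_le_right.trans (sup_le ?_ ?_))
    · rintro _ ⟨x, hx, rfl⟩
      show f (g x) ∈ A
      rw [hp.fg]
      exact A.one_mem
    · intro x hx
      exact hA.left x hx

theorem tate_mid (hp : IsPair f g) (hA : IsStable f g A) (hB : IsStable f g B)
    (hC : IsStable f g C) (hAB : A ≤ B) (hBC : B ≤ C) :
    tate f g A C = nZ f g A B C * nY f g A B C := by
  unfold tate nZ nY
  have hgA : C.map g ≤ A.comap f := by
    rintro _ ⟨x, hx, rfl⟩
    show f (g x) ∈ A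
    rw [hp.fg]
    exact A.one_mem
  have hAA : A ≤ A.comap f := fun x hx => hA.left x hx
  have hgC : C.map g ≤ C := by
    rintro _ ⟨x, hx, rfl⟩
    exact hC.right x hx
  rw [← Subgroup.relIndex_mul_relIndex (C.map g ⊔ A) (C.map g ⊔ (B ⊓ A.comap f))
    (C ⊓ A.comap f) (sup_le_sup_left (le_inf hAB hAA) _)
    (sup_le (le_inf hgC hgA) (inf_le_inf_right _ hBC))]
  congr 1
  have e : C.map g ⊔ (B ⊓ A.comap f) = (C.map g ⊔ A) ⊔ (B ⊓ A.comap f) := by
    rw [sup_assoc, sup_eq_right.2 (le_inf hAB hAA)]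
  rw [e, Subgroup.relIndex_sup_left, ← Subgroup.inf_relIndex_right]
  congr 1
  rw [← inf_assoc, inf_comm _ B, inf_assoc, inf_eq_left.2 (sup_le hgA hAA)]

theorem tate_high (hp : IsPair f g) (hA : IsStable f g A) (hB : IsStable f g B)
    (hC : IsStable f g C) (hAB : A ≤ B) (hBC : B ≤ C) :
    tate f g B C = nX f A B C * nY f g A B C := by
  unfold tate nX nY
  have hgA : C.map g ≤ A.comap f := by
    rintro _ ⟨x, hx, rfl⟩
    show f (g x) ∈ A
    rw [hp.fg]
    exact A.one_mem
  have hAA : A ≤ A.comap f := fun x hx => hA.left x hx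
  have hBB : B ≤ B.comap f := fun x hx => hB.left x hx
  have hgC : C.map g ≤ C := by
    rintro _ ⟨x, hx, rfl⟩
    exact hC.right x hx
  have hle : C.map g ⊔ B ≤ C ⊓ B.comap f :=
    sup_le (le_inf hgC (hgA.trans (Subgroup.comap_mono hAB))) (le_inf hBC hBB)
  rw [relIndex_eq_map_mul_ker ((QuotientGroup.mk' A).comp f) hle]
  have hker : ((QuotientGroup.mk' A).comp f).ker = A.comap f := by
    ext x
    simp [MonoidHom.mem_ker]
  rw [hker]
  congr 1
  · rw [← Subgroup.map_map, ← Subgroup.map_map, Subgroup.relIndex_map_map, QuotientGroup.ker_mk']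
    congr 1
    · rw [Subgroup.map_sup]
      have : (C.map g).map f = ⊥ := by
        rw [eq_bot_iff]
        rintro _ ⟨_, ⟨x, hx, rfl⟩, rfl⟩
        exact hp.fg x
      rw [this, bot_sup_eq]
    · ext y
      constructor
      · intro hy
        obtain ⟨z, ⟨x, ⟨hx1, hx2⟩, rfl⟩, a, ha, rfl⟩ := Subgroup.mem_sup.1 hy
        exact ⟨B.mul_mem hx2 (hAB ha),
          Subgroup.mem_sup.2 ⟨f x, ⟨x, hx1, rfl⟩, a, ha, rfl⟩⟩
      · rintro ⟨h1, h2⟩
        obtain ⟨z, ⟨x, hx1, rfl⟩, a, ha, rfl⟩ := Subgroup.mem_sup.1 h2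
        refine Subgroup.mem_sup.2 ⟨f x, ⟨x, ⟨hx1, ?_⟩, rfl⟩, a, ha, rfl⟩
        show f x ∈ B
        have := B.mul_mem h1 (B.inv_mem (hAB ha))
        simpa using this
  · congr 1
    · rw [sup_inf_assoc_of_le B hgA]
    · rw [inf_assoc, inf_eq_right.2 (Subgroup.comap_mono hAB)]

/-- Herbrand's lemma: `q (C / A) = q (B / A) q (C / B)`. -/
theorem her_mid (hp : IsPair f g) (hA : IsStable f g A) (hB : IsStable f g B)
    (hC : IsStable f g C) (hAB : A ≤ B) (hBC : B ≤ C) {p q : ℚ} (h1 : Her f g A B p)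
    (h2 : Her f g B C q) : Her f g A C (p * q) := by
  obtain ⟨l1, r1, e1⟩ := h1
  obtain ⟨l2, r2, e2⟩ := h2
  rw [tate_low hp hA hB hC hAB hBC] at l1 e1
  rw [tate_low hp.symm hA.symm hB.symm hC.symm hAB hBC] at r1 e1
  rw [tate_high hp hA hB hC hAB hBC] at l2 e2
  rw [tate_high hp.symm hA.symm hB.symm hC.symm hAB hBC] at r2 e2
  have hm := tate_mid hp hA hB hC hAB hBC
  have hm' := tate_mid hp.symm hA.symm hB.symm hC.symm hAB hBC
  simp only [ne_eq, mul_eq_zero, not_or] at l1 r1 l2 r2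
  refine ⟨by rw [hm]; simp [l1, l2], by rw [hm']; simp [r1, r2], ?_⟩
  rw [hm, hm']
  push_cast at e1 e2 ⊢
  have a1 : (nX g A B C : ℚ) ≠ 0 := by exact_mod_cast l1.1
  have a2 : (nX f A B C : ℚ) ≠ 0 := by exact_mod_cast l2.1
  have key : (nX g A B C : ℚ) * nX f A B C * (nZ f g A B C * nY f g A B C) =
      (nX g A B C : ℚ) * nX f A B C * (p * q * (nZ g f A B C * nY g f A B C)) := by
    linear_combination (nX f A B C * nY f g A B C : ℚ) * e1 +
      p * nX f A B C * nZ g f A B C * e2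
  exact mul_left_cancel₀ (mul_ne_zero a1 a2) key

theorem her_low (hp : IsPair f g) (hA : IsStable f g A) (hB : IsStable f g B)
    (hC : IsStable f g C) (hAB : A ≤ B) (hBC : B ≤ C) {p q : ℚ} (h1 : Her f g A C p)
    (h2 : Her f g B C q) : Her f g A B (p / q) := by
  have hq := h2.pos
  have h1' := h1
  have h2' := h2
  obtain ⟨l1, r1, e1⟩ := h1'
  obtain ⟨l2, r2, e2⟩ := h2'
  rw [tate_mid hp hA hB hC hAB hBC] at l1
  rw [tate_mid hp.symm hA.symm hB.symm hC.symm hAB hBC] at r1
  rw [tate_high hp hA hB hC hAB hBC] at l2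
  rw [tate_high hp.symm hA.symm hB.symm hC.symm hAB hBC] at r2
  simp only [ne_eq, mul_eq_zero, not_or] at l1 r1 l2 r2
  obtain ⟨r, hr⟩ := exists_her (f := f) (g := g) (A := A) (B := B)
    (by rw [tate_low hp hA hB hC hAB hBC]; simp [l1, r2])
    (by rw [tate_low hp.symm hA.symm hB.symm hC.symm hAB hBC]; simp [r1, l2])
  have := her_mid hp hA hB hC hAB hBC hr h2
  have e : p = r * q := by
    have a := this.eq
    have b : (tate g f A C : ℚ) ≠ 0 := by exact_mod_cast h1.right
    rw [h1.eq] at a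
    exact mul_right_cancel₀ b a
  rw [e, mul_div_cancel_right₀ _ hq.ne']
  exact hr

theorem her_high (hp : IsPair f g) (hA : IsStable f g A) (hB : IsStable f g B)
    (hC : IsStable f g C) (hAB : A ≤ B) (hBC : B ≤ C) {p q : ℚ} (h1 : Her f g A C p)
    (h2 : Her f g A B q) : Her f g B C (p / q) := by
  have hq := h2.pos
  have h1' := h1
  have h2' := h2
  obtain ⟨l1, r1, e1⟩ := h1'
  obtain ⟨l2, r2, e2⟩ := h2'
  rw [tate_mid hp hA hB hC hAB hBC] at l1
  rw [tate_mid hp.symm hA.symm hB.symm hC.symm hAB hBC] at r1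
  rw [tate_low hp hA hB hC hAB hBC] at l2
  rw [tate_low hp.symm hA.symm hB.symm hC.symm hAB hBC] at r2
  simp only [ne_eq, mul_eq_zero, not_or] at l1 r1 l2 r2
  obtain ⟨r, hr⟩ := exists_her (f := f) (g := g) (A := B) (B := C)
    (by rw [tate_high hp hA hB hC hAB hBC]; simp [l1, r2])
    (by rw [tate_high hp.symm hA.symm hB.symm hC.symm hAB hBC]; simp [r1, l2])
  have := her_mid hp hA hB hC hAB hBC h2 hr
  have e : p = q * r := by
    have a := this.eq
    have b : (tate g f A C : ℚ) ≠ 0 := by exact_mod_cast h1.right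
    rw [h1.eq] at a
    exact mul_right_cancel₀ b a
  rw [e, mul_div_cancel_left₀ _ hq.ne']
  exact hr

end six

/-- Finite quotients have Herbrand quotient `1`. -/
theorem her_finite {f g : X →* X} (hp : IsPair f g) {A B : Subgroup X} (hA : IsStable f g A)
    (hB : IsStable f g B) (hAB : A ≤ B) (hfin : A.relIndex B ≠ 0) : Her f g A B 1 := by
  have main : ∀ f g : X →* X, IsPair f g → IsStable f g A → IsStable f g B →
      A.relIndex B = A.relIndex (B.map f ⊔ A) * (A.relIndex (B.map g ⊔ A) * tate f g A B) := by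
    intro f g hp hA hB
    have hAA : A ≤ A.comap f := fun x hx => hA.left x hx
    have hgA : B.map g ≤ A.comap f := by
      rintro _ ⟨x, hx, rfl⟩
      show f (g x) ∈ A
      rw [hp.fg]
      exact A.one_mem
    have hgB : B.map g ≤ B := by
      rintro _ ⟨x, hx, rfl⟩
      exact hB.right x hx
    have hker : ((QuotientGroup.mk' A).comp f).ker = A.comap f := by
      ext x
      simp [MonoidHom.mem_ker]
    have e := relIndex_eq_map_mul_ker ((QuotientGroup.mk' A).comp f) hAB
    rw [hker, inf_eq_left.2 hAA, ← Subgroup.map_map, ← Subgroup.map_map,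
      Subgroup.relIndex_map_map, QuotientGroup.ker_mk'] at e
    have e2 : A.map f ⊔ A = A := sup_eq_right.2 (by
      rintro _ ⟨x, hx, rfl⟩
      exact hA.left x hx)
    rw [e2] at e
    rw [e]
    congr 1
    exact (Subgroup.relIndex_mul_relIndex _ _ _ le_sup_right
      (sup_le (le_inf hgB hgA) (le_inf hAB hAA))).symm
  have m1 := main f g hp hA hB
  have m2 := main g f hp.symm hA.symm hB.symm
  have n1 := hfin
  rw [m1] at n1
  have n2 := hfin
  rw [m2] at n2
  simp only [ne_eq, mul_eq_zero, not_or] at n1 n2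
  refine ⟨n1.2.2, n2.2.2, ?_⟩
  have : A.relIndex (B.map f ⊔ A) * A.relIndex (B.map g ⊔ A) * tate f g A B =
      A.relIndex (B.map f ⊔ A) * A.relIndex (B.map g ⊔ A) * tate g f A B := by
    rw [mul_assoc, ← m1, m2]
    ring
  have := Nat.eq_of_mul_eq_mul_left (Nat.pos_of_ne_zero (mul_ne_zero n1.1 n1.2.1)) this
  rw [this, one_mul]

end Pool.Agent.H69H
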