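import Pool.Agent.Lib.CFT.D0
import Pool.Agent.Lib.H69H.A1

set_option autoImplicit false
set_option linter.unusedSectionVars false

/-! # H69H: the first inequality of class field theory. Definitions.

`dif s x = s x / x`, `nrm n s x = x * s x * ... * s^(n-1) x` on a commutative group `X` with an endomorphism `s`;
`tate (dif s) (nrm n s) A B` is the order of the Tate group `H^0` of `B / A`, `tate (nrm n s) (dif s) A B` the order of `H^(-1)`
(file A1). `sU σ` : the action of `σ` on `Lˣ`; `gp σ`: on the primes of `L`; `sM σ`: on the divisors of `L` (multiplicative notation);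
`dvU`: the divisor, as a homomorphism from `Lˣ`. `con`: the conorm `Dv K → Dv L`. `DTK T`, `DTL T`: divisors supported above `T`.
`UL`: the units of the ring of integers. `RamInf`: the ramified infinite places of `K`, `PosR x`: `x` is positive there.
`IsV S V`: the properties of the group `V` at the primes of `S`. `ET V T`: the elements of `V` supported above `T`. -/

namespace Pool.Agent.H69H

open NumberField IsDedekindDomain CFT
open scoped Pointwise

section gen

variable {X : Type*} [CommGroup X]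

/-- `x ↦ s x / x`. -/
def dif (s : X →* X) : X →* X := s / MonoidHom.id X

theorem dif_apply (s : X →* X) (x : X) : dif s x = s x / x := rfl

/-- `x ↦ x * s x * ... * s ^ (n - 1) x`. -/
def nrm (n : ℕ) (s : X →* X) : X →* X where
  toFun x := ∏ i ∈ Finset.range n, s^[i] x
  map_one' := by simp
  map_mul' x y := by simp [iterate_map_mul, Finset.prod_mul_distrib]

theorem nrm_apply (n : ℕ) (s : X →* X) (x : X) : nrm n s x = ∏ i ∈ Finset.range n, s^[i] x := rfl

end gen

variable {K : Type} [Field K] [NumberField K] {L : Type} [Field L] [NumberField L] [Algebra K L]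

/-- The action on `Lˣ`. -/
def sU (σ : L ≃ₐ[K] L) : Lˣ →* Lˣ := Units.map ((σ : L →+* L) : L →* L)

@[simp] theorem sU_coe (σ : L ≃ₐ[K] L) (x : Lˣ) : ((sU σ x : Lˣ) : L) = σ x := rfl

/-- The action on the primes. -/
def gp (σ : L ≃ₐ[K] L) (w : Pr L) : Pr L :=
  ⟨σ • w.asIdeal, inferInstance, by
    rw [Ne, ← Ideal.zero_eq_bot, smul_eq_zero_iff_eq, Ideal.zero_eq_bot]
    exact w.ne_bot⟩

theorem gp_asIdeal (σ : L ≃ₐ[K] L) (w : Pr L) : (gp σ w).asIdeal = σ • w.asIdeal := rfl

theorem gp_one (w : Pr L) : gp (1 : L ≃ₐ[K] L) w = w := by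
  ext1
  rw [gp_asIdeal, one_smul]

theorem gp_mul (σ τ : L ≃ₐ[K] L) (w : Pr L) : gp (σ * τ) w = gp σ (gp τ w) := by
  ext1
  rw [gp_asIdeal, gp_asIdeal, gp_asIdeal, mul_smul]

theorem gp_inv_gp (σ : L ≃ₐ[K] L) (w : Pr L) : gp σ⁻¹ (gp σ w) = w := by
  rw [← gp_mul, inv_mul_cancel, gp_one]

theorem gp_gp_inv (σ : L ≃ₐ[K] L) (w : Pr L) : gp σ (gp σ⁻¹ w) = w := by
  rw [← gp_mul, mul_inv_cancel, gp_one]

/-- The action on the primes, as an equivalence. -/
def gpE (σ : L ≃ₐ[K] L) : Pr L ≃ Pr L where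
  toFun := gp σ
  invFun := gp σ⁻¹
  left_inv := gp_inv_gp σ
  right_inv := gp_gp_inv σ

/-- The action on the divisors. -/
noncomputable def sD (σ : L ≃ₐ[K] L) : Dv L →+ Dv L :=
  (Finsupp.domCongr (gpE σ) : Dv L ≃+ Dv L).toAddMonoidHom

theorem sD_apply (σ : L ≃ₐ[K] L) (D : Dv L) (w : Pr L) : sD σ D w = D (gp σ⁻¹ w) := rfl

/-- The action on the divisors, multiplicative notation. -/
noncomputable def sM (σ : L ≃ₐ[K] L) : Multiplicative (Dv L) →* Multiplicative (Dv L) :=
  AddMonoidHom.toMultiplicative (sD σ)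

/-- The divisor as a homomorphism. -/
noncomputable def dvU (L : Type) [Field L] [NumberField L] : Lˣ →* Multiplicative (Dv L) where
  toFun x := Multiplicative.ofAdd (dv (x : L))
  map_one' := by
    rw [Units.val_one, dv_one, ofAdd_zero]
  map_mul' x y := by
    rw [Units.val_mul, dv_mul x.ne_zero y.ne_zero, ofAdd_add]

theorem dvU_apply (x : Lˣ) : dvU L x = Multiplicative.ofAdd (dv (x : L)) := rfl

theorem fib_fin (K : Type) [Field K] [NumberField K] [Algebra K L] (v : Pr K) : {w : Pr L | below K w = v}.Finite := by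
  have h : (v.asIdeal.primesOver (𝓞 L)).Finite := IsDedekindDomain.primesOver_finite v.asIdeal (𝓞 L)
  refine Set.Finite.of_finite_image (f := fun w : Pr L => w.asIdeal) (h.subset ?_)
    HeightOneSpectrum.asIdeal_injective.injOn
  rintro _ ⟨w, hw, rfl⟩
  refine ⟨w.isPrime, ⟨?_⟩⟩
  have : (below K w).asIdeal = v.asIdeal := by rw [hw]
  exact this.symm

/-- The conorm of a divisor of `K`. -/
noncomputable def con (K L : Type) [Field K] [NumberField K] [Field L] [NumberField L] [Algebra K L] : Dv K →+ Dv L where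
  toFun D := Finsupp.ofSupportFinite (fun w => (w.asIdeal.ramificationIdx (𝓞 K) : ℤ) * D (below K w)) (by
    refine ((D.support.finite_toSet).biUnion fun v _ => fib_fin (L := L) K v).subset fun w hw => ?_
    rw [Function.mem_support] at hw
    refine Set.mem_biUnion (x := below K w) ?_ rfl
    rw [Finset.mem_coe, Finsupp.mem_support_iff]
    exact right_ne_zero_of_mul hw)
  map_zero' := by
    ext w
    exact mul_zero _
  map_add' D E := by
    ext w
    exact mul_add _ _ _

theorem con_apply (D : Dv K) (w : Pr L) : con K L D w = (w.asIdeal.ramificationIdx (𝓞 K) : ℤ) * D (below K w) := rfl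

/-- The divisors of `K` supported on `T`. -/
noncomputable def DTK (T : Finset (Pr K)) : AddSubgroup (Dv K) where
  carrier := {D | ∀ v, v ∉ T → D v = 0}
  zero_mem' := fun _ _ => rfl
  add_mem' := fun {D E} h1 h2 v hv => by rw [Finsupp.add_apply, h1 v hv, h2 v hv, add_zero]
  neg_mem' := fun {D} h1 v hv => by rw [Finsupp.neg_apply, h1 v hv, neg_zero]

/-- The divisors of `L` supported above `T`. -/
noncomputable def DTL (L : Type) [Field L] [NumberField L] [Algebra K L] (T : Finset (Pr K)) : AddSubgroup (Dv L) where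
  carrier := {D | ∀ w, below K w ∉ T → D w = 0}
  zero_mem' := fun _ _ => rfl
  add_mem' := fun {D E} h1 h2 v hv => by rw [Finsupp.add_apply, h1 v hv, h2 v hv, add_zero]
  neg_mem' := fun {D} h1 v hv => by rw [Finsupp.neg_apply, h1 v hv, neg_zero]

/-- The group `DTL`, multiplicative notation. -/
noncomputable def MT (L : Type) [Field L] [NumberField L] [Algebra K L] (T : Finset (Pr K)) : Subgroup (Multiplicative (Dv L)) :=
  AddSubgroup.toSubgroup (DTL L T)

theorem mem_MT (T : Finset (Pr K)) (D : Multiplicative (Dv L)) :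
    D ∈ MT L T ↔ ∀ w, below K w ∉ T → Multiplicative.toAdd D w = 0 := Iff.rfl

/-- The units of the ring of integers. -/
noncomputable def UL (L : Type) [Field L] [NumberField L] : Subgroup Lˣ := (dvU L).ker

/-- The ramified infinite places of `K`. -/
noncomputable def RamInf (K L : Type) [Field K] [NumberField K] [Field L] [NumberField L] [Algebra K L] :
    Finset (InfinitePlace K) := by
  classical exact Finset.univ.filter fun v => ¬ v.IsUnramifiedIn L

/-- `x` is positive at the ramified infinite places. -/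
def PosR (L : Type) [Field L] [NumberField L] [Algebra K L] (x : K) : Prop :=
  ∀ φ : K →+* ℝ, InfinitePlace.mk ((algebraMap ℝ ℂ).comp φ) ∈ RamInf K L → 0 < φ x

/-- The embedding of `Kˣ` in `Lˣ`. -/
def kU (K L : Type) [Field K] [Field L] [Algebra K L] : Kˣ →* Lˣ := Units.map (algebraMap K L : K →* L)

@[simp] theorem kU_coe (κ : Kˣ) : ((kU K L κ : Lˣ) : L) = algebraMap K L (κ : K) := rfl

/-- The properties of the group `V` at the primes of `S`: stable; units at the primes of `S`; if `σ y / y` is in `V` then `y` is in `Kˣ V`;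
the elements sufficiently near to `1` at all primes above `S` are in `V`. -/
structure IsV (σ : L ≃ₐ[K] L) (S : Finset (Pr K)) (V : Subgroup Lˣ) : Prop where
  stable : ∀ x ∈ V, sU σ x ∈ V
  unit : ∀ x ∈ V, ∀ w : Pr L, below K w ∈ S → od w (x : L) = 0
  crit : ∀ y : Lˣ, dif (sU σ) y ∈ V → ∃ κ : Kˣ, ∃ x ∈ V, y = kU K L κ * x
  ray : ∃ N : ℕ, ∀ y : Lˣ, (∀ w : Pr L, below K w ∈ S → w.valuation L ((y : L) - 1) < WithZero.exp (-(N : ℤ))) → y ∈ V

/-- The elements of `V` supported above `T`. -/
noncomputable def ET (V : Subgroup Lˣ) (T : Finset (Pr K)) : Subgroup Lˣ := V ⊓ (MT L T).comap (dvU L)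

theorem mem_ET (V : Subgroup Lˣ) (T : Finset (Pr K)) (x : Lˣ) :
    x ∈ ET V T ↔ x ∈ V ∧ ∀ w, below K w ∉ T → od w (x : L) = 0 := Iff.rfl

/-- The properties of the finite set `T` of primes outside `S` (and of `N`): (ray) rays are in `V`; (a) `Dv K = DTK T + Pray S N`;
(b) every divisor of `L` is, outside `S`, the sum of an element of `DTL T` and of the divisor of an element of `V`; (c) for every ramified
infinite place `v` there is an element of `K` in `V`, supported on `T`, negative at `v` and positive at the other ramified infinite places. -/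
structure IsT (σ : L ≃ₐ[K] L) (S : Finset (Pr K)) (V : Subgroup Lˣ) (N : ℕ) (T : Finset (Pr K)) : Prop where
  disj : ∀ v ∈ T, v ∉ S
  ray : ∀ κ : Kˣ, Ray S N (κ : K) → kU K L κ ∈ V
  a : ∀ D : Dv K, ∃ E ∈ DTK T, D - E ∈ Pray S N
  b : ∀ D : Dv L, ∃ E ∈ DTL L T, ∃ y ∈ V, ∀ w, below K w ∉ S → D w = E w + od w (y : L)
  c : ∀ v ∈ RamInf K L, ∃ κ : Kˣ, kU K L κ ∈ ET V T ∧
    ∀ φ : K →+* ℝ, (InfinitePlace.mk ((algebraMap ℝ ℂ).comp φ) = v → φ (κ : K) < 0) ∧
      (InfinitePlace.mk ((algebraMap ℝ ℂ).comp φ) ∈ RamInf K L → InfinitePlace.mk ((algebraMap ℝ ℂ).comp φ) ≠ v → 0 < φ (κ : K))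

/-- The elements of `ET V T` which are in `K` and positive at the ramified infinite places. -/
def PP (V : Subgroup Lˣ) (T : Finset (Pr K)) : Subgroup Lˣ where
  carrier := {x | x ∈ ET V T ∧ ∃ κ : Kˣ, x = kU K L κ ∧ PosR L (κ : K)}
  one_mem' := ⟨one_mem _, 1, by simp, fun φ _ => by simp⟩
  mul_mem' := by
    rintro x y ⟨hx, κ, rfl, h1⟩ ⟨hy, μ, rfl, h2⟩
    exact ⟨mul_mem hx hy, κ * μ, by simp, fun φ hφ => by
      rw [Units.val_mul, map_mul]
      exact mul_pos (h1 φ hφ) (h2 φ hφ)⟩
  inv_mem' := by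
    rintro x ⟨hx, κ, rfl, h1⟩
    exact ⟨inv_mem hx, κ⁻¹, by simp, fun φ hφ => by
      rw [Units.val_inv_eq_inv_val, map_inv₀]
      exact inv_pos.2 (h1 φ hφ)⟩

/-- The divisors `dv κ + Nd E`, with `κ` as in `PP` and `E` supported above `T`. -/
def QQ (V : Subgroup Lˣ) (T : Finset (Pr K)) : AddSubgroup (Dv K) where
  carrier := {D | ∃ κ : Kˣ, kU K L κ ∈ ET V T ∧ PosR L (κ : K) ∧ ∃ E ∈ DTL L T, D = dv (κ : K) + Nd K L E}
  zero_mem' := ⟨1, by simp [one_mem], fun φ _ => by simp, 0, zero_mem _, by rw [Units.val_one, dv_one, map_zero, add_zero]⟩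
  add_mem' := by
    rintro D D' ⟨κ, h1, h2, E, h3, rfl⟩ ⟨κ', h1', h2', E', h3', rfl⟩
    refine ⟨κ * κ', by rw [map_mul]; exact mul_mem h1 h1', fun φ hφ => ?_, E + E', add_mem h3 h3', ?_⟩
    · rw [Units.val_mul, map_mul]
      exact mul_pos (h2 φ hφ) (h2' φ hφ)
    · rw [Units.val_mul, dv_mul κ.ne_zero κ'.ne_zero, map_add]
      abel
  neg_mem' := by
    rintro D ⟨κ, h1, h2, E, h3, rfl⟩
    refine ⟨κ⁻¹, by rw [map_inv]; exact inv_mem h1, fun φ hφ => ?_, -E, neg_mem h3, ?_⟩
    · rw [Units.val_inv_eq_inv_val, map_inv₀]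
      exact inv_pos.2 (h2 φ hφ)
    · rw [Units.val_inv_eq_inv_val, dv_inv, map_neg]
      abel

/-- The action of a permutation on integer valued functions. -/
def sW {W : Type*} (s : W ≃ W) : Multiplicative (W → ℤ) →* Multiplicative (W → ℤ) :=
  AddMonoidHom.toMultiplicative
    { toFun := fun x w => x (s.symm w)
      map_zero' := rfl
      map_add' := fun _ _ => rfl }

theorem sW_apply {W : Type*} (s : W ≃ W) (x : Multiplicative (W → ℤ)) (w : W) :
    Multiplicative.toAdd (sW s x) w = Multiplicative.toAdd x (s.symm w) := rfl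

/-- The homomorphism from functions on the infinite places to the units. -/
noncomputable def phi (ε : InfinitePlace L → Lˣ) : Multiplicative (InfinitePlace L → ℤ) →* Lˣ where
  toFun x := ∏ w, ε w ^ (Multiplicative.toAdd x w)
  map_one' := by simp
  map_mul' x y := by simp [zpow_add, Finset.prod_mul_distrib]

theorem phi_apply (ε : InfinitePlace L → Lˣ) (x : Multiplicative (InfinitePlace L → ℤ)) :
    phi ε x = ∏ w, ε w ^ (Multiplicative.toAdd x w) := rfl

end Pool.Agent.H69H
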