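import Pool.Agent.Lib.H69H.Defs
import Pool.Agent.Lib.H69H.C1
import Pool.Agent.Lib.H69H.D1
import Pool.Agent.Lib.H69H.D2

set_option autoImplicit false
set_option linter.unusedSectionVars false

/-! The lattice `Mk S k` (coordinates in the normal basis divisible by `π^k` at the primes of `S`). -/

namespace Pool.Agent.H69H

open NumberField IsDedekindDomain CFT WithZero

variable {K : Type} [Field K] [NumberField K] {L : Type} [Field L] [NumberField L] [Algebra K L]
variable [IsGalois K L]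

/-- Coordinates in the normal basis. -/
noncomputable def co (g : L ≃ₐ[K] L) : L →ₗ[K] K :=
  (Finsupp.lapply g).comp (IsGalois.normalBasis K L).repr.toLinearMap

theorem co_def (g : L ≃ₐ[K] L) (x : L) : co g x = (IsGalois.normalBasis K L).repr x g := rfl

theorem sum_co (x : L) : ∑ g : L ≃ₐ[K] L, co g x • IsGalois.normalBasis K L g = x :=
  (IsGalois.normalBasis K L).sum_repr x

open Classical in
theorem co_basis (g h : L ≃ₐ[K] L) : co g (IsGalois.normalBasis K L h) = if h = g then 1 else 0 := by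
  rw [co_def, Module.Basis.repr_self, Finsupp.single_apply]

theorem co_gal (σ g : L ≃ₐ[K] L) (x : L) : co g (σ x) = co (σ⁻¹ * g) x := by
  classical
  have h : (co g).comp (σ : L →ₐ[K] L).toLinearMap = co (σ⁻¹ * g) := by
    refine (IsGalois.normalBasis K L).ext fun h => ?_
    have e : (σ : L →ₐ[K] L).toLinearMap (IsGalois.normalBasis K L h) = IsGalois.normalBasis K L (σ * h) := by
      rw [IsGalois.normalBasis_apply h, IsGalois.normalBasis_apply (σ * h)]
      rfl
    rw [LinearMap.comp_apply, e, co_basis, co_basis]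
    simp only [eq_inv_mul_iff_mul_eq]
  exact DFunLike.congr_fun h x

/-- The lattice. -/
noncomputable def Mk (L : Type) [Field L] [NumberField L] [Algebra K L] [IsGalois K L] (S : Finset (Pr K)) (k : ℤ) :
    AddSubgroup L where
  carrier := {x | ∀ v ∈ S, ∀ g : L ≃ₐ[K] L, v.valuation K (co g x) ≤ exp (-k)}
  zero_mem' := fun v _ g => by rw [map_zero, map_zero]; exact zero_le
  add_mem' := fun {x y} hx hy v hv g => by
    rw [map_add]
    exact Valuation.map_add_le _ (hx v hv g) (hy v hv g)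
  neg_mem' := fun {x} hx v hv g => by
    rw [map_neg, Valuation.map_neg]
    exact hx v hv g

variable {S : Finset (Pr K)}

theorem mem_Mk {k : ℤ} {x : L} : x ∈ Mk L S k ↔ ∀ v ∈ S, ∀ g : L ≃ₐ[K] L, v.valuation K (co g x) ≤ exp (-k) := Iff.rfl

theorem Mk_mono {k k' : ℤ} (h : k ≤ k') : Mk L S k' ≤ Mk L S k := fun x hx v hv g =>
  (hx v hv g).trans (exp_le_exp.2 (by omega))

theorem exists_bound {ι : Type*} (s : Finset ι) (f : ι → ℤᵐ⁰) : ∃ j : ℤ, 0 ≤ j ∧ ∀ i ∈ s, f i ≤ exp j := by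
  classical
  refine ⟨∑ i ∈ s, |log (f i)|, Finset.sum_nonneg fun i _ => abs_nonneg _, fun i hi => ?_⟩
  by_cases h : f i = 0
  · rw [h]
    exact zero_le
  · rw [← log_le_iff_le_exp h]
    exact (le_abs_self _).trans (Finset.single_le_sum (f := fun i => |log (f i)|) (fun i _ => abs_nonneg _) hi)

theorem exists_mem_Mk (x : L) : ∃ d : ℤ, 0 ≤ d ∧ x ∈ Mk L S (-d) := by
  obtain ⟨j, hj0, hj⟩ := exists_bound (S ×ˢ (Finset.univ : Finset (L ≃ₐ[K] L))) fun p => p.1.valuation K (co p.2 x)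
  refine ⟨j, hj0, fun v hv g => ?_⟩
  rw [neg_neg]
  exact hj (v, g) (Finset.mem_product.2 ⟨hv, Finset.mem_univ _⟩)

theorem smul_mem_Mk {c : K} {i k : ℤ} (hc : ∀ v ∈ S, v.valuation K c ≤ exp (-i)) {x : L} (hx : x ∈ Mk L S k) :
    c • x ∈ Mk L S (i + k) := fun v hv g => by
  rw [map_smul, smul_eq_mul, map_mul, neg_add, exp_add]
  exact mul_le_mul' (hc v hv) (hx v hv g)

theorem gal_mem_Mk (σ : L ≃ₐ[K] L) {k : ℤ} {x : L} (hx : x ∈ Mk L S k) : σ x ∈ Mk L S k := fun v hv g => by
  rw [co_gal]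
  exact hx v hv _

theorem exists_mul (L : Type) [Field L] [NumberField L] [Algebra K L] [IsGalois K L] (S : Finset (Pr K)) :
    ∃ c : ℤ, 0 ≤ c ∧ ∀ i j : ℤ, ∀ x y : L, x ∈ Mk L S i → y ∈ Mk L S j → x * y ∈ Mk L S (i + j - c) := by
  classical
  choose d hd0 hd using fun p : (L ≃ₐ[K] L) × (L ≃ₐ[K] L) =>
    exists_mem_Mk (S := S) (IsGalois.normalBasis K L p.1 * IsGalois.normalBasis K L p.2)
  refine ⟨∑ p, d p, Finset.sum_nonneg fun p _ => hd0 p, fun i j x y hx hy => ?_⟩
  rw [← sum_co (K := K) x, ← sum_co (K := K) y, Finset.sum_mul_sum]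
  refine sum_mem fun g _ => sum_mem fun h _ => ?_
  rw [smul_mul_smul_comm]
  have h1 : IsGalois.normalBasis K L g * IsGalois.normalBasis K L h ∈ Mk L S (-∑ p, d p) :=
    Mk_mono (neg_le_neg (Finset.single_le_sum (f := d) (fun p _ => hd0 p) (Finset.mem_univ (g, h)))) (hd (g, h))
  have h2 : ∀ v ∈ S, v.valuation K (co g x * co h y) ≤ exp (-(i + j)) := fun v hv => by
    rw [map_mul, neg_add, exp_add]
    exact mul_le_mul' (hx v hv g) (hy v hv h)
  have := smul_mem_Mk h2 h1
  rwa [← sub_eq_add_neg] at this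

end Pool.Agent.H69H
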