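import Pool.Agent.Lib.H69H.V1a

set_option autoImplicit false
set_option linter.unusedSectionVars false

/-! The group `Vk`, and relation of the lattices with the valuations of `L`. -/

namespace Pool.Agent.H69H

open NumberField IsDedekindDomain CFT WithZero

variable {K : Type} [Field K] [NumberField K] {L : Type} [Field L] [NumberField L] [Algebra K L]
variable [IsGalois K L] {S : Finset (Pr K)}

/-- Constants: `c` for products, `d` for `1`. -/
structure Cst (L : Type) [Field L] [NumberField L] [Algebra K L] [IsGalois K L] (S : Finset (Pr K)) (c d : ℤ) : Prop where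
  c0 : 0 ≤ c
  d0 : 0 ≤ d
  mul : ∀ i j : ℤ, ∀ x y : L, x ∈ Mk L S i → y ∈ Mk L S j → x * y ∈ Mk L S (i + j - c)
  one : (1 : L) ∈ Mk L S (-d)

theorem exists_cst (L : Type) [Field L] [NumberField L] [Algebra K L] [IsGalois K L] (S : Finset (Pr K)) :
    ∃ c d : ℤ, Cst L S c d := by
  obtain ⟨c, hc0, hc⟩ := exists_mul L S
  obtain ⟨d, hd0, hd⟩ := exists_mem_Mk (S := S) (1 : L)
  exact ⟨c, d, hc0, hd0, hc, hd⟩

variable {c d k : ℤ}

theorem Cst.inv_aux (h : Cst L S c d) (hk : c + 1 ≤ k) {y : Lˣ} (hy : (y : L) - 1 ∈ Mk L S k) :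
    ∀ m : ℕ, ((y⁻¹ : Lˣ) : L) ∈ Mk L S (-d - m) → ((y⁻¹ : Lˣ) : L) ∈ Mk L S (-d) := by
  intro m
  induction m with
  | zero =>
    intro h1
    rwa [Nat.cast_zero, sub_zero] at h1
  | succ m ih =>
    intro h1
    refine ih ?_
    have e : ((y⁻¹ : Lˣ) : L) = 1 - ((y : L) - 1) * ((y⁻¹ : Lˣ) : L) := by
      have := y.mul_inv
      linear_combination this
    rw [e]
    refine sub_mem (Mk_mono (by omega) h.one) ?_
    refine Mk_mono ?_ (h.mul _ _ _ _ hy h1)
    push_cast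
    omega

theorem Cst.inv (h : Cst L S c d) (hk : 2 * c + d + 1 ≤ k) {y : Lˣ} (hy : (y : L) - 1 ∈ Mk L S k) :
    ((y⁻¹ : Lˣ) : L) - 1 ∈ Mk L S k := by
  have hc0 := h.c0
  have hd0 := h.d0
  obtain ⟨j, hj0, hj⟩ := exists_mem_Mk (S := S) ((y⁻¹ : Lˣ) : L)
  have h1 : ((y⁻¹ : Lˣ) : L) ∈ Mk L S (-d) := by
    refine h.inv_aux (by omega) hy j.toNat (Mk_mono ?_ hj)
    have := Int.toNat_of_nonneg hj0
    omega
  have h2 := h.mul _ _ _ _ hy h1
  have e1 : ((y⁻¹ : Lˣ) : L) - 1 = -(((y : L) - 1) * ((y⁻¹ : Lˣ) : L)) := by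
    have := y.mul_inv
    linear_combination this
  have h3 : ((y⁻¹ : Lˣ) : L) - 1 ∈ Mk L S (k + -d - c) := by
    rw [e1]
    exact neg_mem h2
  have h4 := h.mul _ _ _ _ hy h3
  have e2 : ((y⁻¹ : Lˣ) : L) - 1 = -((y : L) - 1) - ((y : L) - 1) * (((y⁻¹ : Lˣ) : L) - 1) := by
    have := y.mul_inv
    linear_combination this
  rw [e2]
  exact sub_mem (neg_mem hy) (Mk_mono (by omega) h4)

/-- The group `V_k`. -/
def Vk (h : Cst L S c d) (hk : 2 * c + d + 1 ≤ k) : Subgroup Lˣ where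
  carrier := {y | (y : L) - 1 ∈ Mk L S k}
  one_mem' := by
    show ((1 : Lˣ) : L) - 1 ∈ Mk L S k
    rw [Units.val_one, sub_self]
    exact zero_mem _
  mul_mem' := fun {x y} hx hy => by
    have hc0 := h.c0
    have hd0 := h.d0
    show ((x * y : Lˣ) : L) - 1 ∈ Mk L S k
    have e : ((x * y : Lˣ) : L) - 1 = ((x : L) - 1) * ((y : L) - 1) + ((x : L) - 1) + ((y : L) - 1) := by
      rw [Units.val_mul]
      ring
    rw [e]
    exact add_mem (add_mem (Mk_mono (by omega) (h.mul _ _ _ _ hx hy)) hx) hy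
  inv_mem' := fun {x} hx => h.inv hk hx

theorem mem_Vk (h : Cst L S c d) (hk : 2 * c + d + 1 ≤ k) (y : Lˣ) : y ∈ Vk h hk ↔ (y : L) - 1 ∈ Mk L S k := Iff.rfl

theorem Vk_stable (h : Cst L S c d) (hk : 2 * c + d + 1 ≤ k) (σ : L ≃ₐ[K] L) {y : Lˣ} (hy : y ∈ Vk h hk) :
    sU σ y ∈ Vk h hk := by
  have := gal_mem_Mk σ hy
  rwa [map_sub, map_one] at this

/-! Valuations. -/

theorem val_algebraMap_le (w : Pr L) {x : K} {i : ℤ} (hi : 0 ≤ i) (hx : (below K w).valuation K x ≤ exp (-i)) :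
    w.valuation L (algebraMap K L x) ≤ exp (-i) := by
  by_cases h0 : x = 0
  · rw [h0, map_zero, map_zero]
    exact zero_le
  rw [val_eq _ h0, exp_le_exp] at hx
  rw [val_eq _ ((map_ne_zero (algebraMap K L)).2 h0), exp_le_exp, od_algebraMap]
  have h1 : (1 : ℤ) ≤ w.asIdeal.ramificationIdx (𝓞 K) := by
    exact_mod_cast CFT.e_pos w
  have h2 : i ≤ od (below K w) x := by omega
  have h3 : i ≤ (w.asIdeal.ramificationIdx (𝓞 K) : ℤ) * od (below K w) x := by nlinarith
  omega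

theorem val_gal (w : Pr L) (τ : L ≃ₐ[K] L) (x : L) : w.valuation L (τ x) = (gp τ⁻¹ w).valuation L x := by
  by_cases h0 : x = 0
  · rw [h0, map_zero, map_zero, map_zero]
  have h1 := od_gp τ (gp τ⁻¹ w) x
  rw [gp_gp_inv] at h1
  rw [val_eq _ h0, val_eq _ ((map_ne_zero τ).2 h0), h1]

/-- The finite set of primes above `S`. -/
noncomputable def upS (L : Type) [Field L] [NumberField L] [Algebra K L] (S : Finset (Pr K)) : Finset (Pr L) :=
  ((S.finite_toSet).biUnion fun v _ => fib_fin (L := L) K v).toFinset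

theorem mem_upS (w : Pr L) : w ∈ upS L S ↔ below K w ∈ S := by
  unfold upS
  rw [Set.Finite.mem_toFinset, Set.mem_iUnion₂]
  constructor
  · rintro ⟨v, hv, h⟩
    have : below K w = v := h
    rw [this]
    exact hv
  · intro h
    exact ⟨_, h, rfl⟩

theorem Mk_val_le (L : Type) [Field L] [NumberField L] [Algebra K L] [IsGalois K L] (S : Finset (Pr K)) :
    ∃ c2 : ℤ, 0 ≤ c2 ∧ ∀ k : ℤ, 0 ≤ k → ∀ x ∈ Mk L S k, ∀ w : Pr L, below K w ∈ S → w.valuation L x ≤ exp (-k + c2) := by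
  obtain ⟨j, hj0, hj⟩ := exists_bound (upS L S ×ˢ (Finset.univ : Finset (L ≃ₐ[K] L))) fun p =>
    p.1.valuation L (IsGalois.normalBasis K L p.2)
  refine ⟨j, hj0, fun k hk x hx w hw => ?_⟩
  rw [← sum_co (K := K) x]
  refine Valuation.map_sum_le _ fun g _ => ?_
  rw [Algebra.smul_def, map_mul, exp_add]
  exact mul_le_mul' (val_algebraMap_le w hk (hx _ hw g)) (hj (w, g) (Finset.mem_product.2 ⟨(mem_upS w).2 hw, Finset.mem_univ _⟩))

open Classical in
/-- Coordinates by the trace. -/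
theorem co_trace (x : L) (g : L ≃ₐ[K] L) :
    co g x = Algebra.trace K L (x * (IsGalois.normalBasis K L).traceDual g) := by
  have h := (IsGalois.normalBasis K L).traceDual.traceDual_repr_apply x g
  rw [Module.Basis.traceDual_traceDual] at h
  exact h

theorem Mk_of_val (L : Type) [Field L] [NumberField L] [Algebra K L] [IsGalois K L] (S : Finset (Pr K)) (k : ℤ) :
    ∃ N : ℕ, ∀ x : L, (∀ w : Pr L, below K w ∈ S → w.valuation L x < exp (-(N : ℤ))) → x ∈ Mk L S k := by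
  classical
  obtain ⟨j, hj0, hj⟩ := exists_bound (upS L S ×ˢ (Finset.univ : Finset (L ≃ₐ[K] L))) fun p =>
    p.1.valuation L ((IsGalois.normalBasis K L).traceDual p.2)
  obtain ⟨e, he⟩ : ∃ e : ℕ, ∀ w ∈ upS L S, w.asIdeal.ramificationIdx (𝓞 K) ≤ e :=
    ⟨∑ w ∈ upS L S, w.asIdeal.ramificationIdx (𝓞 K), fun w hw =>
      Finset.single_le_sum (f := fun w : Pr L => w.asIdeal.ramificationIdx (𝓞 K)) (fun _ _ => Nat.zero_le _) hw⟩
  refine ⟨(j + e * |k|).toNat, fun x hx v hv g => ?_⟩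
  have hN : ((j + e * |k|).toNat : ℤ) = j + e * |k| := Int.toNat_of_nonneg (by positivity)
  rw [co_trace]
  set z := x * (IsGalois.normalBasis K L).traceDual g with hz
  obtain ⟨w, hw⟩ := below_surj L v
  have hwS : w ∈ upS L S := (mem_upS w).2 (by rw [hw]; exact hv)
  by_cases h0 : Algebra.trace K L z = 0
  · rw [h0, map_zero]
    exact zero_le
  have h1 : w.valuation L (algebraMap K L (Algebra.trace K L z)) ≤ exp (-((e : ℤ) * |k|)) := by
    rw [trace_eq_sum_automorphisms]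
    refine Valuation.map_sum_le _ fun τ _ => ?_
    rw [val_gal, hz, map_mul]
    have hb : below K (gp τ⁻¹ w) ∈ S := by
      rw [below_gp, hw]
      exact hv
    have a1 := (hx _ hb).le
    have a2 := hj (gp τ⁻¹ w, g) (Finset.mem_product.2 ⟨(mem_upS _).2 hb, Finset.mem_univ _⟩)
    refine (mul_le_mul' a1 a2).trans ?_
    rw [← exp_add, exp_le_exp, hN]
    omega
  rw [val_eq _ ((map_ne_zero (algebraMap K L)).2 h0), exp_le_exp, od_algebraMap, hw] at h1
  rw [val_eq _ h0, exp_le_exp]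
  have h2 : (1 : ℤ) ≤ w.asIdeal.ramificationIdx (𝓞 K) := by
    exact_mod_cast CFT.e_pos w
  have h3 : (w.asIdeal.ramificationIdx (𝓞 K) : ℤ) ≤ e := by exact_mod_cast he w hwS
  have h4 : (e : ℤ) * |k| ≤ (w.asIdeal.ramificationIdx (𝓞 K) : ℤ) * od v (Algebra.trace K L z) := by omega
  have h5 : |k| ≤ od v (Algebra.trace K L z) := by
    by_contra hlt
    rw [not_le] at hlt
    have h6 : (w.asIdeal.ramificationIdx (𝓞 K) : ℤ) * od v (Algebra.trace K L z) <
        (w.asIdeal.ramificationIdx (𝓞 K) : ℤ) * |k| := by nlinarith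
    have h7 : (w.asIdeal.ramificationIdx (𝓞 K) : ℤ) * |k| ≤ e * |k| := mul_le_mul_of_nonneg_right h3 (abs_nonneg _)
    omega
  have := le_abs_self k
  omega

end Pool.Agent.H69H
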